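import Pool.Agent.Helper243.Induct

set_option autoImplicit false
set_option linter.unusedSectionVars false

namespace Pool.Agent.Helper243.Auto

open Pool.Agent.Helper243.MG

/-- Labels (colours in the three copies) used on the edges of the 2-factor. -/
def tri : Fin 15 → Fin 3 → Fin 5 :=
  ![![1, 2, 1], ![1, 3, 1], ![1, 4, 1], ![2, 0, 0], ![3, 0, 0], ![4, 0, 0], ![2, 2, 2],
    ![2, 3, 4], ![2, 4, 3], ![3, 2, 4], ![3, 3, 3], ![3, 4, 2], ![4, 2, 3], ![4, 3, 2],
    ![4, 4, 4]]

/-- Labels used on the matching edges, by the value of the flow. -/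
def tau (a : K4) : Fin 3 → Fin 5 :=
  if a = (1, 0) then ![0, 1, 2] else if a = (0, 1) then ![0, 1, 3] else ![0, 1, 4]

/-- Three labels fit around a vertex, with `k` giving the colours of the three triangle edges:
`k j` is the colour of the triangle edge opposite to copy `j`. -/
def Fit (a b c k : Fin 3 → Fin 5) : Prop :=
  (∀ i, a i ≠ b i ∧ a i ≠ c i ∧ b i ≠ c i) ∧
  (∀ i j, j ≠ i → k j ≠ a i ∧ k j ≠ b i ∧ k j ≠ c i) ∧ ∀ i j, i ≠ j → k i ≠ k j

instance (a b c k : Fin 3 → Fin 5) : Decidable (Fit a b c k) := by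
  unfold Fit; infer_instance

/-- Transition relation along the 2-factor at a vertex whose matching edge has value `a`. -/
def Rel (a : K4) (x y : Fin 15) : Prop := ∃ k, Fit (tau a) (tri x) (tri y) k

def row (a : K4) (x : Fin 15) : ℕ :=
  (if a = (1, 0) then
    ![384, 16416, 1040, 4608, 16388, 1026, 0, 1, 1, 8, 16420, 0, 8, 0, 1042]
  else if a = (0, 1) then
    ![16416, 2560, 72, 16388, 8320, 65, 16420, 16, 0, 2, 0, 2, 0, 16, 73]
  else
    ![1040, 72, 12288, 1026, 65, 2304, 1042, 0, 32, 0, 73, 32, 4, 4, 0]) x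

/-- the opposite colours, found by brute force -/
def kk (a b c : Fin 3 → Fin 5) : Fin 3 → Fin 5 :=
  fun j => ((List.finRange 5).filter fun col =>
    decide (∀ i, i ≠ j → col ≠ a i ∧ col ≠ b i ∧ col ≠ c i)).headD 0

theorem row_sound : ∀ a : K4, a ≠ 0 → ∀ x y : Fin 15, (row a x).testBit y.val = true →
    Fit (tau a) (tri x) (tri y) (kk (tau a) (tri x) (tri y)) := by
  decide +kernel

def stepMask (a : K4) (S : ℕ) : ℕ :=
  (List.finRange 15).foldl (fun acc x => if S.testBit x.val then acc ||| row a x else acc) 0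

theorem foldl_sound (a : K4) (S : ℕ) (y : ℕ) : ∀ (l : List (Fin 15)) (acc : ℕ),
    (l.foldl (fun acc x => if S.testBit x.val then acc ||| row a x else acc) acc).testBit y
      = true → acc.testBit y = true ∨ ∃ x : Fin 15, S.testBit x.val = true ∧
        (row a x).testBit y = true := by
  intro l
  induction l with
  | nil => intro acc h; exact Or.inl h
  | cons x l ih =>
    intro acc h
    rw [List.foldl_cons] at h
    rcases ih _ h with h1 | h1
    · by_cases hx : S.testBit x.val = true
      · rw [if_pos hx, Nat.testBit_or, Bool.or_eq_true] at h1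
        rcases h1 with h1 | h1
        · exact Or.inl h1
        · exact Or.inr ⟨x, hx, h1⟩
      · rw [if_neg hx] at h1
        exact Or.inl h1
    · exact Or.inr h1

theorem step_sound (a : K4) (S : ℕ) (y : ℕ) (h : (stepMask a S).testBit y = true) :
    ∃ x : Fin 15, S.testBit x.val = true ∧ (row a x).testBit y = true := by
  rcases foldl_sound a S y _ _ h with h1 | h1
  · simp at h1
  · exact h1

/-- The reachable pairs of subsets, with the sum of the word read so far. -/
def L : List (ℕ × ℕ × K4) :=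
  [(8, 16, (0, 0)), (4608, 16388, (1, 0)), (16388, 8320, (0, 1)), (1026, 65, (1, 1)),
   (8, 1042, (0, 0)), (2, 73, (1, 1)), (4, 12288, (0, 1)), (1042, 1, (1, 1)),
   (73, 16, (0, 0)), (12288, 4, (1, 0)), (16420, 384, (0, 1)), (2560, 16420, (1, 0)),
   (73, 1042, (0, 0)), (4608, 16420, (1, 0)), (16388, 10880, (0, 1)), (1026, 73, (1, 1)),
   (16416, 4992, (0, 1)), (72, 1042, (0, 0)), (1040, 8, (1, 1)), (72, 16, (0, 0)),
   (10880, 16416, (1, 0)), (73, 1040, (0, 0)), (4992, 16388, (1, 0)), (16420, 8320, (0, 1)),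
   (1042, 65, (1, 1)), (8, 1040, (0, 0)), (16, 72, (1, 1)), (14592, 32, (1, 0)),
   (32, 14592, (0, 1)), (4992, 16420, (1, 0)), (16420, 10880, (0, 1)), (1042, 73, (1, 1)),
   (4, 14592, (0, 1)), (1042, 9, (1, 1)), (73, 18, (0, 0)), (12288, 36, (1, 0)),
   (16420, 4992, (0, 1)), (2304, 36, (1, 0)), (16420, 4608, (0, 1)), (8320, 16388, (1, 0)),
   (73, 1026, (0, 0)), (9, 1042, (0, 0)), (18, 73, (1, 1)), (36, 2304, (0, 1)),
   (36, 12288, (0, 1)), (14592, 4, (1, 0)), (10880, 16420, (1, 0)), (16388, 4608, (0, 1)),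
   (8320, 16420, (1, 0)), (65, 1042, (0, 0)), (9, 1026, (0, 0)), (18, 65, (1, 1)),
   (1026, 9, (1, 1)), (65, 18, (0, 0)), (36, 14592, (0, 1)), (14592, 36, (1, 0)),
   (1040, 9, (1, 1)), (72, 18, (0, 0)), (16, 73, (1, 1)), (1, 1042, (0, 0)),
   (1042, 8, (1, 1)), (73, 2, (0, 0)), (16420, 2560, (0, 1)), (9, 1040, (0, 0)),
   (18, 72, (1, 1)), (384, 16420, (1, 0)), (16388, 4992, (0, 1)), (16416, 10880, (0, 1)),
   (1040, 73, (1, 1)), (10880, 16388, (1, 0)), (4992, 16416, (1, 0)), (1042, 72, (1, 1))]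

theorem start_mem : ((8, 16, 0) : ℕ × ℕ × K4) ∈ L := by decide +kernel

theorem closed : ∀ p ∈ L, ∀ a : K4, a ≠ 0 →
    (stepMask a p.1, stepMask a p.2.1, p.2.2 + a) ∈ L := by
  decide +kernel

theorem final : ∀ p ∈ L, p.2.2 = 0 → p.1.testBit 3 = true ∨ p.2.1.testBit 4 = true := by
  decide +kernel

/-- For every sequence of nonzero values with sum zero there is a closed walk. -/
theorem exists_closed (w : ℕ → K4) (hw : ∀ k, w k ≠ 0) (n : ℕ)
    (hsum : ∑ k ∈ Finset.range n, w k = 0) :
    ∃ f : ℕ → Fin 15, f 0 = f n ∧ ∀ k < n, Rel (w k) (f k) (f (k + 1)) := by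
  have key : ∀ n, ∃ p ∈ L, p.2.2 = ∑ k ∈ Finset.range n, w k ∧
      (∀ y : Fin 15, p.1.testBit y.val = true →
        ∃ f : ℕ → Fin 15, f 0 = 3 ∧ f n = y ∧ ∀ k < n, Rel (w k) (f k) (f (k + 1))) ∧
      (∀ y : Fin 15, p.2.1.testBit y.val = true →
        ∃ f : ℕ → Fin 15, f 0 = 4 ∧ f n = y ∧ ∀ k < n, Rel (w k) (f k) (f (k + 1))) := by
    intro n
    induction n with
    | zero =>
      refine ⟨_, start_mem, by simp, ?_, ?_⟩
      · intro y hy
        have : y = 3 := by
          revert y; decide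
        exact ⟨fun _ => 3, rfl, this.symm, fun k hk => absurd hk (Nat.not_lt_zero k)⟩
      · intro y hy
        have : y = 4 := by
          revert y; decide
        exact ⟨fun _ => 4, rfl, this.symm, fun k hk => absurd hk (Nat.not_lt_zero k)⟩
    | succ n ih =>
      obtain ⟨p, hp, hs, h1, h2⟩ := ih
      refine ⟨_, closed p hp (w n) (hw n), ?_, ?_, ?_⟩
      · rw [Finset.sum_range_succ, ← hs]
      · intro y hy
        obtain ⟨x, hx, hxy⟩ := step_sound _ _ _ hy
        obtain ⟨f, hf0, hfn, hf⟩ := h1 x hx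
        refine ⟨Function.update f (n + 1) y, ?_, ?_, ?_⟩
        · rw [Function.update_of_ne (by omega)]; exact hf0
        · simp
        · intro k hk
          rw [Function.update_of_ne (a := k) (by omega)]
          by_cases hk' : k = n
          · subst hk'
            rw [Function.update_self, hfn]
            exact ⟨_, row_sound _ (hw k) x y hxy⟩
          · rw [Function.update_of_ne (by omega)]
            exact hf k (by omega)
      · intro y hy
        obtain ⟨x, hx, hxy⟩ := step_sound _ _ _ hy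
        obtain ⟨f, hf0, hfn, hf⟩ := h2 x hx
        refine ⟨Function.update f (n + 1) y, ?_, ?_, ?_⟩
        · rw [Function.update_of_ne (by omega)]; exact hf0
        · simp
        · intro k hk
          rw [Function.update_of_ne (a := k) (by omega)]
          by_cases hk' : k = n
          · subst hk'
            rw [Function.update_self, hfn]
            exact ⟨_, row_sound _ (hw k) x y hxy⟩
          · rw [Function.update_of_ne (by omega)]
            exact hf k (by omega)
  obtain ⟨p, hp, hs, h1, h2⟩ := key n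
  rcases final p hp (hs.trans hsum) with h | h
  · obtain ⟨f, hf0, hfn, hf⟩ := h1 3 h
    exact ⟨f, hf0.trans hfn.symm, hf⟩
  · obtain ⟨f, hf0, hfn, hf⟩ := h2 4 h
    exact ⟨f, hf0.trans hfn.symm, hf⟩

end Pool.Agent.Helper243.Auto
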