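import Pool.Agent.Helper243.Label

set_option autoImplicit false
set_option linter.unusedSectionVars false

namespace Pool.Agent.Helper243.BoxK3

open Finset Pool.Agent.Helper243.MG

variable {V : Type} [Fintype V] [DecidableEq V] (G : SimpleGraph V) [DecidableRel G.Adj]

/-- ends of an edge of a simple graph -/
noncomputable def sE (e : G.edgeSet) : V := (Quot.out e.1).1
noncomputable def tE (e : G.edgeSet) : V := (Quot.out e.1).2

theorem mk_ends (e : G.edgeSet) : s(sE G e, tE G e) = e.1 := Quot.out_eq e.1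

theorem adj_ends (e : G.edgeSet) : G.Adj (sE G e) (tE G e) := by
  have := e.2
  rw [← mk_ends G e] at this
  exact this

theorem loopless (e : G.edgeSet) : sE G e ≠ tE G e := (adj_ends G e).ne

theorem mem_inc_iff (e : G.edgeSet) (v : V) : e ∈ inc (sE G) (tE G) v ↔ v ∈ e.1 := by
  rw [mem_inc, ← mk_ends G e, Sym2.mem_iff]
  exact ⟨fun h => h.imp Eq.symm Eq.symm, fun h => h.imp Eq.symm Eq.symm⟩

theorem cubic (h : G.IsRegularOfDegree 3) : Cubic (sE G) (tE G) := by
  intro v
  rw [← Finset.card_union_of_disjoint (inc_disj (loopless G) v), ← inc_eq_union, ← h v,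
    ← SimpleGraph.card_incidenceFinset_eq_degree,
    ← Finset.card_map (Function.Embedding.subtype fun e => e ∈ G.edgeSet)]
  congr 1
  ext e
  rw [SimpleGraph.mem_incidenceFinset]
  simp only [Finset.mem_map, Function.Embedding.subtype_apply, Subtype.exists,
    exists_and_right, exists_eq_right, mem_inc_iff]
  constructor
  · rintro ⟨h1, h2⟩; exact ⟨h1, h2⟩
  · rintro ⟨h1, h2⟩; exact ⟨h1, h2⟩

theorem reach_mem {H : SimpleGraph V} (X : Finset V)
    (hX : ∀ a b, H.Adj a b → (a ∈ X ↔ b ∈ X)) {u v : V} (h : H.Reachable u v) :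
    u ∈ X ↔ v ∈ X := by
  obtain ⟨p⟩ := h
  induction p with
  | nil => exact Iff.rfl
  | cons hadj _ ih => exact (hX _ _ hadj).trans ih

theorem bridgeless (h : ∀ u v, G.Adj u v → (G.deleteEdges {s(u, v)}).Reachable u v) :
    ∀ X : Finset V, (cut (sE G) (tE G) X).card ≠ 1 := by
  intro X hX
  obtain ⟨e, he⟩ := Finset.card_eq_one.1 hX
  have hmem : e ∈ cut (sE G) (tE G) X := by rw [he]; simp
  rw [mem_cut] at hmem
  apply hmem
  refine reach_mem X ?_ (h _ _ (adj_ends G e))
  intro a b hab
  rw [SimpleGraph.deleteEdges_adj] at hab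
  by_contra hcon
  let e' : G.edgeSet := ⟨s(a, b), hab.1⟩
  have h1 : e' ∈ cut (sE G) (tE G) X := by
    rw [mem_cut]
    intro h2
    apply hcon
    have h3 := mk_ends G e'
    have h4 : s(sE G e', tE G e') = s(a, b) := h3
    rw [Sym2.eq_iff] at h4
    rcases h4 with ⟨h5, h6⟩ | ⟨h5, h6⟩
    · rw [← h5, ← h6]; exact h2
    · rw [← h5, ← h6]; exact h2.symm
  rw [he, Finset.mem_singleton] at h1
  apply hab.2
  rw [Set.mem_singleton_iff, mk_ends, ← h1]

/-- For every bridgeless cubic graph `G`, connected or not, the Cartesian product of `G` with a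
triangle has a 1-factorization. -/
theorem one_factorization (hreg : G.IsRegularOfDegree 3)
    (hbr : ∀ u v, G.Adj u v → (G.deleteEdges {s(u, v)}).Reachable u v) :
    ∃ (k : ℕ) (M : Fin k → (SimpleGraph.boxProd G (⊤ : SimpleGraph (Fin 3))).Subgraph),
      (∀ i, (M i).IsPerfectMatching) ∧
      ∀ e ∈ (SimpleGraph.boxProd G (⊤ : SimpleGraph (Fin 3))).edgeSet,
        ∃! i, e ∈ (M i).edgeSet := by
  classical
  rcases isEmpty_or_nonempty V with hV | ⟨⟨v0⟩⟩
  · refine ⟨0, fun i => i.elim0, fun i => i.elim0, ?_⟩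
    intro e
    induction e with
    | h x y => exact (hV.false x.1).elim
  -- the colouring
  obtain ⟨w0, hw0⟩ : ∃ w, G.Adj v0 w := by
    have h3 : 0 < G.degree v0 := by rw [hreg v0]; norm_num
    exact (G.degree_pos_iff_exists_adj v0).1 h3
  obtain ⟨M, φ, _, hgood⟩ := exists_good _ V G.edgeSet (sE G) (tE G) rfl (loopless G)
    (cubic G hreg) (bridgeless G hbr) ⟨s(v0, w0), hw0⟩
  obtain ⟨c, kc, hc1, hc2, hc3⟩ := exists_colouring (loopless G) (cubic G hreg) M φ hgood
  let col : V × Fin 3 → V × Fin 3 → Fin 5 := fun x y =>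
    if h : G.Adj x.1 y.1 then c ⟨s(x.1, y.1), h⟩ x.2 else kc x.1 (-(x.2 + y.2))
  set P := SimpleGraph.boxProd G (⊤ : SimpleGraph (Fin 3)) with hP
  have hcolG : ∀ (x y : V × Fin 3) (h : G.Adj x.1 y.1), col x y = c ⟨s(x.1, y.1), h⟩ x.2 := by
    intro x y h; simp [col, h]
  have hcolK : ∀ (x y : V × Fin 3), x.1 = y.1 → col x y = kc x.1 (-(x.2 + y.2)) := by
    intro x y h
    have : ¬ G.Adj x.1 y.1 := by rw [h]; exact G.irrefl
    simp [col, this]
  have hsymm : ∀ x y, P.Adj x y → col x y = col y x := by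
    intro x y hxy
    rw [hP, SimpleGraph.boxProd_adj] at hxy
    rcases hxy with ⟨h1, h2⟩ | ⟨_, h2⟩
    · rw [hcolG x y h1, hcolG y x h1.symm, h2]
      congr 2
      exact Sym2.eq_swap
    · rw [hcolK x y h2, hcolK y x h2.symm, h2, add_comm]
  have hinj : ∀ x y y', P.Adj x y → P.Adj x y' → y ≠ y' → col x y ≠ col x y' := by
    intro x y y' h h' hne
    rw [hP, SimpleGraph.boxProd_adj] at h h'
    have hthird : ∀ i j : Fin 3, i ≠ j → -(i + j) ≠ i := by decide
    have hthird' : ∀ i j k : Fin 3, j ≠ k → -(i + j) ≠ -(i + k) := by decide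
    rcases h with ⟨h1, h2⟩ | ⟨h1, h2⟩ <;> rcases h' with ⟨h3, h4⟩ | ⟨h3, h4⟩
    · rw [hcolG x y h1, hcolG x y' h3]
      refine hc1 x.1 x.2 _ _ ?_ ?_ ?_
      · rw [mem_inc_iff]; exact Sym2.mem_mk_left _ _
      · rw [mem_inc_iff]; exact Sym2.mem_mk_left _ _
      · intro h5
        have h6 : s(x.1, y.1) = s(x.1, y'.1) := congrArg Subtype.val h5
        have h7 : y.1 = y'.1 := Sym2.congr_right.1 h6
        exact hne (Prod.ext h7 (h2.symm.trans h4))
    · rw [hcolG x y h1, hcolK x y' h4]
      refine (hc2 x.1 x.2 _ _ ?_ ?_).symm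
      · rw [mem_inc_iff]; exact Sym2.mem_mk_left _ _
      · exact hthird _ _ (by simpa using h3)
    · rw [hcolK x y h2, hcolG x y' h3]
      refine hc2 x.1 x.2 _ _ ?_ ?_
      · rw [mem_inc_iff]; exact Sym2.mem_mk_left _ _
      · exact hthird _ _ (by simpa using h1)
    · rw [hcolK x y h2, hcolK x y' h4]
      refine hc3 x.1 _ _ (hthird' _ _ _ ?_)
      intro h5
      exact hne (Prod.ext (h2.symm.trans h4) h5)
  -- each colour appears exactly once at each vertex
  have hex : ∀ x (i : Fin 5), ∃! y, P.Adj x y ∧ col x y = i := by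
    intro x i
    have hdeg : (P.neighborFinset x).card = 5 := by
      rw [SimpleGraph.card_neighborFinset_eq_degree]
      have := SimpleGraph.degree_boxProd (G := G) (H := (⊤ : SimpleGraph (Fin 3))) x
      rw [hreg x.1] at this
      have h2 : (⊤ : SimpleGraph (Fin 3)).degree x.2 = 2 := by
        rw [SimpleGraph.complete_graph_degree]; rfl
      rw [h2] at this
      convert this
    have himg : (P.neighborFinset x).image (col x) = univ := by
      apply Finset.eq_univ_of_card
      rw [Finset.card_image_of_injOn, hdeg, Fintype.card_fin]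
      intro y hy y' hy' hyy
      by_contra hne
      simp only [Finset.mem_coe, SimpleGraph.mem_neighborFinset] at hy hy'
      exact hinj x y y' hy hy' hne hyy
    have hi : i ∈ (P.neighborFinset x).image (col x) := by rw [himg]; exact mem_univ i
    obtain ⟨y, hy, hyi⟩ := Finset.mem_image.1 hi
    rw [SimpleGraph.mem_neighborFinset] at hy
    refine ⟨y, ⟨hy, hyi⟩, ?_⟩
    rintro y' ⟨h1, h2⟩
    by_contra hne
    exact hinj x y' y h1 hy hne (h2.trans hyi.symm)
  refine ⟨5, fun i =>
    { verts := Set.univ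
      Adj := fun x y => P.Adj x y ∧ col x y = i
      adj_sub := fun h => h.1
      edge_vert := fun _ => Set.mem_univ _
      symm := ⟨fun x y h => ⟨h.1.symm, by rw [← hsymm x y h.1]; exact h.2⟩⟩ }, ?_, ?_⟩
  · intro i
    rw [SimpleGraph.Subgraph.isPerfectMatching_iff]
    intro x
    exact hex x i
  · intro e
    induction e with
    | h x y =>
      intro hxy
      refine ⟨col x y, ⟨hxy, rfl⟩, ?_⟩
      rintro i ⟨_, hi⟩
      exact hi.symm

end Pool.Agent.Helper243.BoxK3
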