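import Pool.Agent.Helper243.Lower

set_option autoImplicit false
set_option linter.unusedSectionVars false

namespace Pool.Agent.Helper243.MG

open Finset Module

variable {V E : Type} [Fintype V] [DecidableEq V] [Fintype E] [DecidableEq E]

theorem k_add_self (x : ZMod 2 × ZMod 2) : x + x = 0 := by
  revert x; decide

/-- If no cut inside `A` has exactly one or exactly three edges, there is a flow with values in
the Klein four group which is nonzero on `A`. -/
theorem exists_flow (s t : E → V) (A : Finset E)
    (h1 : ∀ X : Finset V, cut s t X ⊆ A → (cut s t X).card ≠ 1)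
    (h3 : ∀ X : Finset V, cut s t X ⊆ A → (cut s t X).card ≠ 3) :
    ∃ z : E → ZMod 2 × ZMod 2, (∀ v, bd s t z v = 0) ∧ ∀ e ∈ A, z e ≠ 0 := by
  classical
  -- a maximal subset without two-element cuts
  let P : Finset (Finset E) := A.powerset.filter fun B =>
    ∀ X : Finset V, cut s t X ⊆ B → (cut s t X).card ≠ 2
  have hne : P.Nonempty := by
    refine ⟨∅, ?_⟩
    simp only [P, Finset.mem_filter, Finset.mem_powerset, Finset.empty_subset, true_and]
    intro X hX h
    rw [Finset.subset_empty.1 hX] at h
    simp at h
  obtain ⟨B, hB, hmax⟩ := Finset.exists_max_image P Finset.card hne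
  have hB' := hB
  simp only [P, Finset.mem_filter, Finset.mem_powerset] at hB'
  obtain ⟨hBA, hB2⟩ := hB'
  obtain ⟨z, hz, hzB⟩ := exists_two_flows s t B (by
    intro X hX hX'
    have c1 := h1 X (hX.trans hBA)
    have c2 := hB2 X hX
    have c3 := h3 X (hX.trans hBA)
    have c0 := Finset.card_pos.2 hX'
    omega)
  refine ⟨z, hz, ?_⟩
  intro e he
  by_cases heB : e ∈ B
  · exact hzB e heB
  -- `B ∪ {e}` contains a cut of size two
  have hcut : ∃ X : Finset V, cut s t X ⊆ insert e B ∧ (cut s t X).card = 2 := by
    by_contra hcon
    push Not at hcon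
    have : insert e B ∈ P := by
      simp only [P, Finset.mem_filter, Finset.mem_powerset]
      exact ⟨Finset.insert_subset he hBA, hcon⟩
    have := hmax _ this
    rw [Finset.card_insert_of_notMem heB] at this
    omega
  obtain ⟨X, hX, hX2⟩ := hcut
  have heX : e ∈ cut s t X := by
    by_contra heX
    refine hB2 X ?_ hX2
    intro f hf
    have := hX hf
    rw [Finset.mem_insert] at this
    rcases this with rfl | h
    · exact absurd hf heX
    · exact h
  obtain ⟨a, b, hab, hXab⟩ := Finset.card_eq_two.1 hX2
  have hsum := sum_bd k_add_self s t z X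
  rw [Finset.sum_eq_zero fun v _ => hz v, hXab, Finset.sum_pair hab] at hsum
  have hfin : ∀ x y : ZMod 2 × ZMod 2, 0 = x + y → x ≠ 0 → y ≠ 0 := by decide
  rw [hXab, Finset.mem_insert, Finset.mem_singleton] at heX
  rcases heX with rfl | rfl
  · have hb : b ∈ B := by
      have := hX (by rw [hXab]; simp : b ∈ cut s t X)
      rw [Finset.mem_insert] at this
      rcases this with h | h
      · exact absurd h.symm hab
      · exact h
    exact hfin _ _ (by rw [hsum]; exact add_comm _ _) (hzB b hb)
  · have ha : a ∈ B := by
      have := hX (by rw [hXab]; simp : a ∈ cut s t X)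
      rw [Finset.mem_insert] at this
      rcases this with h | h
      · exact absurd h hab
      · exact h
    exact hfin _ _ hsum (hzB a ha)

end Pool.Agent.Helper243.MG
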