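import Pool.Agent.Helper243.Match

set_option autoImplicit false
set_option linter.unusedSectionVars false

namespace Pool.Agent.Helper243.MG

open Finset Module

abbrev K4 := ZMod 2 × ZMod 2

/-- `M` is a perfect matching, `φ` a flow in the Klein four group, nonzero on `M`. -/
def Good {V E : Type} [Fintype V] [DecidableEq V] [Fintype E] [DecidableEq E] (s t : E → V)
    (M : Finset E) (φ : E → K4) : Prop :=
  (∀ v, ∃! e, e ∈ M ∧ (s e = v ∨ t e = v)) ∧ (∀ v, bd s t φ v = 0) ∧ ∀ e ∈ M, φ e ≠ 0

theorem exists_aut (a b : K4) (ha : a ≠ 0) (hb : b ≠ 0) :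
    ∃ A : K4 →+ K4, A a = b ∧ ∀ x, A x = 0 → x = 0 := by
  have h : ∀ a b : K4, a ≠ 0 → b ≠ 0 → ∃ m : K4 × K4,
      (m.1.1 * a.1 + m.1.2 * a.2, m.2.1 * a.1 + m.2.2 * a.2) = b ∧
        ∀ x : K4, (m.1.1 * x.1 + m.1.2 * x.2, m.2.1 * x.1 + m.2.2 * x.2) = (0 : K4) → x = 0 := by
    decide +kernel
  obtain ⟨⟨⟨p, q⟩, ⟨r, s⟩⟩, h1, h2⟩ := h a b ha hb
  refine ⟨{ toFun := fun x => (p * x.1 + q * x.2, r * x.1 + s * x.2)
            map_zero' := by simp
            map_add' := by
              intro x y
              simp only [Prod.fst_add, Prod.snd_add, Prod.mk_add_mk]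
              ext <;> simp <;> ring }, h1, h2⟩

section

variable {V E : Type} [Fintype V] [DecidableEq V] [Fintype E] [DecidableEq E]

theorem cut_compl (s t : E → V) (X : Finset V) : cut s t Xᶜ = cut s t X := by
  ext e
  simp only [mem_cut, Finset.mem_compl]
  tauto

/-- The contracted end map. -/
def pr (X : Finset V) (v : V) : Option {v // v ∈ X} :=
  if h : v ∈ X then some ⟨v, h⟩ else none

theorem pr_of_mem {X : Finset V} {v : V} (h : v ∈ X) : pr X v = some ⟨v, h⟩ := by simp [pr, h]

theorem pr_of_not_mem {X : Finset V} {v : V} (h : v ∉ X) : pr X v = none := by simp [pr, h]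

theorem pr_eq_some {X : Finset V} {v : V} {w : {v // v ∈ X}} : pr X v = some w ↔ v = w := by
  unfold pr
  by_cases h : v ∈ X
  · simp only [h, dif_pos, Option.some.injEq]
    constructor
    · rintro rfl; rfl
    · rintro rfl; rfl
  · simp only [h, dif_neg, not_false_eq_true]
    constructor
    · intro h'; exact absurd h' (by simp)
    · rintro rfl; exact absurd w.2 h

theorem pr_eq_none {X : Finset V} {v : V} : pr X v = none ↔ v ∉ X := by
  unfold pr
  by_cases h : v ∈ X <;> simp [h]

/-- edges of the contraction -/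
abbrev Ec (s t : E → V) (X : Finset V) := {e : E // s e ∈ X ∨ t e ∈ X}

abbrev sc (s t : E → V) (X : Finset V) : Ec s t X → Option {v // v ∈ X} := fun e => pr X (s e)

abbrev tc (s t : E → V) (X : Finset V) : Ec s t X → Option {v // v ∈ X} := fun e => pr X (t e)

theorem card_sub (s t : E → V) (X : Finset V) (p : E → Prop) [DecidablePred p] :
    (univ.filter fun e : Ec s t X => p e).card =
      (univ.filter fun e : E => p e ∧ (s e ∈ X ∨ t e ∈ X)).card := by
  rw [← Finset.card_map (Function.Embedding.subtype fun e => s e ∈ X ∨ t e ∈ X)]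
  congr 1
  ext e
  simp only [Finset.mem_map, Finset.mem_filter, Finset.mem_univ, true_and,
    Function.Embedding.subtype_apply, Subtype.exists, exists_and_left, exists_prop,
    exists_eq_right_right]

theorem contract_loopless {s t : E → V} (hloop : ∀ e, s e ≠ t e) (X : Finset V) :
    ∀ e, sc s t X e ≠ tc s t X e := by
  rintro ⟨e, he⟩ h
  simp only [sc, tc] at h
  by_cases h1 : s e ∈ X
  · rw [pr_of_mem h1] at h
    exact hloop e (pr_eq_some.1 h.symm).symm
  · rw [pr_of_not_mem h1] at h
    have h2 := pr_eq_none.1 h.symm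
    exact he.elim h1 h2

theorem contract_cubic {s t : E → V} (hcub : Cubic s t) (X : Finset V)
    (h3 : (cut s t X).card = 3) : Cubic (sc s t X) (tc s t X) := by
  intro w
  rcases w with _ | w
  · simp only [sc, tc, pr_eq_none]
    rw [card_sub s t X (fun e => s e ∉ X), card_sub s t X (fun e => t e ∉ X), ← h3,
      ← Finset.card_union_of_disjoint]
    · congr 1
      ext e
      simp only [Finset.mem_union, Finset.mem_filter, Finset.mem_univ, true_and, mem_cut]
      tauto
    · rw [Finset.disjoint_left]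
      intro e
      simp only [Finset.mem_filter, Finset.mem_univ, true_and]
      tauto
  · simp only [sc, tc, pr_eq_some]
    rw [card_sub s t X (fun e => s e = w), card_sub s t X (fun e => t e = w)]
    have := hcub w
    rw [← this]
    congr 2
    · ext e
      simp only [Finset.mem_filter, Finset.mem_univ, true_and, and_iff_left_iff_imp]
      intro h; rw [h]; exact Or.inl w.2
    · ext e
      simp only [Finset.mem_filter, Finset.mem_univ, true_and, and_iff_left_iff_imp]
      intro h; rw [h]; exact Or.inr w.2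

theorem contract_bridgeless {s t : E → V} (hbr : ∀ X : Finset V, (cut s t X).card ≠ 1)
    (X : Finset V) : ∀ U, (cut (sc s t X) (tc s t X) U).card ≠ 1 := by
  intro U
  have h := hbr (univ.filter fun v => pr X v ∈ U)
  convert h using 2
  unfold cut
  rw [card_sub s t X (fun e => ¬ (pr X (s e) ∈ U ↔ pr X (t e) ∈ U))]
  congr 1
  ext e
  simp only [Finset.mem_filter, Finset.mem_univ, true_and, and_iff_left_iff_imp]
  intro h'
  by_contra hcon
  push Not at hcon
  rw [pr_of_not_mem hcon.1, pr_of_not_mem hcon.2] at h'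
  exact h' Iff.rfl

/-- A good structure on one side of a cut, with `e0` in the matching. -/
def PGood (s t : E → V) (X : Finset V) (e0 : E) : Prop :=
  ∃ (M' : Finset E) (φ' : E → K4), e0 ∈ M' ∧ (∀ e ∈ M', s e ∈ X ∨ t e ∈ X) ∧
      (∀ v ∈ X, ∃! e, e ∈ M' ∧ (s e = v ∨ t e = v)) ∧
      (∃! e, e ∈ M' ∧ e ∈ cut s t X) ∧
      (∀ v ∈ X, bd s t φ' v = 0) ∧ ∀ e ∈ M', φ' e ≠ 0

/-- What a good structure on a contraction gives on the original graph. -/
theorem good_of_contract {s t : E → V} (X : Finset V) (M : Finset (Ec s t X))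
    (φ : Ec s t X → K4) (h : Good (sc s t X) (tc s t X) M φ) (e0 : Ec s t X) (he0 : e0 ∈ M) :
    PGood s t X e0.1 := by
  classical
  obtain ⟨h1, h2, h3⟩ := h
  refine ⟨M.map (Function.Embedding.subtype _),
    fun e => if h : s e ∈ X ∨ t e ∈ X then φ ⟨e, h⟩ else (0 : K4), ?_, ?_, ?_, ?_, ?_, ?_⟩
  · exact Finset.mem_map_of_mem _ he0
  · intro e he
    rw [Finset.mem_map] at he
    obtain ⟨e', _, rfl⟩ := he
    exact e'.2
  · intro v hv
    obtain ⟨e, ⟨he, he'⟩, hu⟩ := h1 (some ⟨v, hv⟩)
    simp only [sc, tc, pr_eq_some] at he'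
    refine ⟨e.1, ⟨Finset.mem_map_of_mem _ he, he'⟩, ?_⟩
    rintro e2 ⟨h4, h5⟩
    rw [Finset.mem_map] at h4
    obtain ⟨e3, h6, rfl⟩ := h4
    have := hu e3 ⟨h6, by simp only [sc, tc, pr_eq_some]; exact h5⟩
    rw [this]; rfl
  · obtain ⟨e, ⟨he, he'⟩, hu⟩ := h1 none
    simp only [sc, tc, pr_eq_none] at he'
    refine ⟨e.1, ⟨Finset.mem_map_of_mem _ he, ?_⟩, ?_⟩
    · rw [mem_cut]
      have := e.2
      tauto
    rintro e2 ⟨h4, h5⟩
    rw [Finset.mem_map] at h4
    obtain ⟨e3, h6, rfl⟩ := h4
    have := hu e3 ⟨h6, by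
      simp only [sc, tc, pr_eq_none]
      simp only [Function.Embedding.subtype_apply, mem_cut] at h5
      have := e3.2
      tauto⟩
    rw [this]; rfl
  · intro v hv
    have h4 := h2 (some ⟨v, hv⟩)
    unfold bd at h4 ⊢
    simp only [sc, tc, pr_eq_some] at h4
    have key : ∀ f : E → V, (∀ e, f e = v → s e ∈ X ∨ t e ∈ X) →
        (∑ e with f e = v, if h : s e ∈ X ∨ t e ∈ X then φ ⟨e, h⟩ else (0 : K4)) =
          ∑ e ∈ (univ : Finset (Ec s t X)).filter (fun e => f e.1 = v), φ e := by
      intro f hf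
      rw [Finset.sum_filter, Finset.sum_filter]
      symm
      rw [← Finset.sum_subset (Finset.subset_univ
        (univ.map (Function.Embedding.subtype fun e => s e ∈ X ∨ t e ∈ X)))]
      · rw [Finset.sum_map]
        refine Finset.sum_congr rfl fun e _ => ?_
        have := e.2
        simp only [Function.Embedding.subtype_apply, this, dif_pos]
      · intro e _ he
        have : f e ≠ v := by
          intro h
          apply he
          rw [Finset.mem_map]
          exact ⟨⟨e, hf e h⟩, Finset.mem_univ _, rfl⟩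
        simp [this]
    rw [key s (by rintro e rfl; exact Or.inl hv), key t (by rintro e rfl; exact Or.inr hv)]
    exact h4
  · intro e he
    rw [Finset.mem_map] at he
    obtain ⟨e', h4, rfl⟩ := he
    have := e'.2
    simp only [Function.Embedding.subtype_apply, this, dif_pos]
    exact h3 e' h4

theorem card_match_one {s t : E → V} (hloop : ∀ e, s e ≠ t e) (M : Finset E) (v : V)
    (h : ∃! e, e ∈ M ∧ (s e = v ∨ t e = v)) :
    (univ.filter fun e => s e = v ∧ e ∈ M).card + (univ.filter fun e => t e = v ∧ e ∈ M).card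
      = 1 := by
  rw [← Finset.card_union_of_disjoint, Finset.card_eq_one]
  · obtain ⟨e, he, hu⟩ := h
    refine ⟨e, ?_⟩
    ext e'
    simp only [Finset.mem_union, Finset.mem_filter, Finset.mem_univ, true_and,
      Finset.mem_singleton]
    constructor
    · rintro (⟨h1, h2⟩ | ⟨h1, h2⟩)
      · exact hu e' ⟨h2, Or.inl h1⟩
      · exact hu e' ⟨h2, Or.inr h1⟩
    · rintro rfl
      rcases he.2 with h | h
      · exact Or.inl ⟨h, he.1⟩
      · exact Or.inr ⟨h, he.1⟩
  · rw [Finset.disjoint_left]
    intro e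
    simp only [Finset.mem_filter, Finset.mem_univ, true_and]
    rintro ⟨h1, _⟩ ⟨h2, _⟩
    exact hloop e (h1.trans h2.symm)

/-- Adding a constant off a perfect matching keeps a flow. -/
theorem bd_shift {s t : E → V} (hloop : ∀ e, s e ≠ t e) (hcub : Cubic s t) (M : Finset E) (v : V)
    (h : ∃! e, e ∈ M ∧ (s e = v ∨ t e = v)) (c : K4) :
    bd s t (fun e => if e ∈ M then 0 else c) v = 0 := by
  have h1 := card_match_one hloop M v h
  have h2 := hcub v
  have h3 : ∀ f : E → V, (∑ e with f e = v, if e ∈ M then 0 else c) +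
      (univ.filter fun e => f e = v ∧ e ∈ M).card • c = (univ.filter fun e => f e = v).card • c := by
    intro f
    have e1 : (univ.filter fun e => f e = v ∧ e ∈ M).card • c =
        ∑ e with f e = v, if e ∈ M then c else 0 := by
      rw [← Finset.sum_filter, Finset.filter_filter, Finset.sum_const]
    rw [e1, ← Finset.sum_add_distrib, ← Finset.sum_const]
    refine Finset.sum_congr rfl fun e _ => ?_
    by_cases he : e ∈ M <;> simp [he]
  have h4 := h3 s
  have h5 := h3 t
  unfold bd
  have h6 : ((∑ e with s e = v, if e ∈ M then 0 else c) +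
      (∑ e with t e = v, if e ∈ M then 0 else c)) + 1 • c = 3 • c := by
    rw [← h1, ← h2, add_smul, add_smul, ← h4, ← h5]
    abel
  have h7 : (3 : ℕ) • c = 1 • c := by
    have : ∀ x : K4, (3 : ℕ) • x = 1 • x := by decide
    exact this c
  rw [h7] at h6
  exact left_eq_add.1 (by rw [add_comm] at h6; exact h6.symm)

theorem glue {s t : E → V} (hloop : ∀ e, s e ≠ t e) (hcub : Cubic s t) (X : Finset V)
    (h3 : (cut s t X).card = 3) (e0 : E) (h1 : PGood s t X e0)
    (h2 : ∀ f ∈ cut s t X, PGood s t Xᶜ f) :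
    ∃ (M : Finset E) (φ : E → K4), e0 ∈ M ∧ Good s t M φ := by
  classical
  obtain ⟨M1, φ1, he0, hin1, hpm1, ⟨f, ⟨hf1, hfc⟩, hfu⟩, hfl1, hnz1⟩ := h1
  obtain ⟨M2, φ2, hfM2, hin2, hpm2, ⟨f', ⟨hf2, hfc'⟩, hfu'⟩, hfl2, hnz2⟩ := h2 f hfc
  have hff : f = f' := hfu' f ⟨hfM2, by rw [cut_compl]; exact hfc⟩
  subst hff
  obtain ⟨A, hA, hA0⟩ := exists_aut (φ2 f) (φ1 f) (hnz2 f hfM2) (hnz1 f hf1)
  have hcard : ((cut s t X).erase f).card = 2 := by
    rw [Finset.card_erase_of_mem hfc, h3]
  obtain ⟨g, h, hgh, hgh'⟩ := Finset.card_eq_two.1 hcard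
  have hcutX : cut s t X = insert f {g, h} := by
    rw [← hgh', Finset.insert_erase hfc]
  have hg : g ∈ (cut s t X).erase f := by rw [hgh']; simp
  have hh : h ∈ (cut s t X).erase f := by rw [hgh']; simp
  rw [Finset.mem_erase] at hg hh
  have hfn : f ∉ ({g, h} : Finset E) := by
    simp only [Finset.mem_insert, Finset.mem_singleton, not_or]
    exact ⟨hg.1.symm, hh.1.symm⟩
  have hgM2 : g ∉ M2 := fun h' => hg.1 (hfu' g ⟨h', by rw [cut_compl]; exact hg.2⟩)
  set c : K4 := φ1 g - A (φ2 g) with hc
  set ψ : E → K4 := fun e => A (φ2 e) + (if e ∈ M2 then 0 else c) with hψ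
  have hψfl : ∀ v ∈ Xᶜ, bd s t ψ v = 0 := by
    intro v hv
    have e1 : bd s t ψ v = A (bd s t φ2 v) + bd s t (fun e => if e ∈ M2 then 0 else c) v := by
      unfold bd
      simp only [hψ, Finset.sum_add_distrib, map_add, map_sum]
      abel
    rw [e1, hfl2 v hv, bd_shift hloop hcub M2 v (hpm2 v hv), map_zero, add_zero]
  have s1 := sum_bd k_add_self s t φ1 X
  rw [Finset.sum_eq_zero hfl1, hcutX, Finset.sum_insert hfn, Finset.sum_pair hgh] at s1
  have s2 := sum_bd k_add_self s t ψ Xᶜ
  rw [Finset.sum_eq_zero hψfl, cut_compl, hcutX, Finset.sum_insert hfn,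
    Finset.sum_pair hgh] at s2
  have hψf : ψ f = φ1 f := by simp [hψ, hfM2, hA]
  have hψg : ψ g = φ1 g := by simp [hψ, hgM2, hc]
  have hψh : ψ h = φ1 h := by
    rw [hψf, hψg] at s2
    have := s1.symm.trans s2
    have h1 := add_left_cancel this
    exact (add_left_cancel h1).symm
  have hagree : ∀ e ∈ cut s t X, ψ e = φ1 e := by
    intro e he
    rw [hcutX, Finset.mem_insert, Finset.mem_insert, Finset.mem_singleton] at he
    rcases he with rfl | rfl | rfl
    · exact hψf
    · exact hψg
    · exact hψh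
  -- an edge with an end in X and an end outside is in the cut
  have hcutmem : ∀ e, (s e ∈ X ∨ t e ∈ X) → (s e ∈ Xᶜ ∨ t e ∈ Xᶜ) → e ∈ cut s t X := by
    intro e h1 h2
    rw [mem_cut]
    simp only [Finset.mem_compl] at h2
    tauto
  refine ⟨M1 ∪ M2, fun e => if s e ∈ X ∨ t e ∈ X then φ1 e else ψ e,
    Finset.mem_union_left _ he0, ?_, ?_, ?_⟩
  · intro v
    by_cases hv : v ∈ X
    · obtain ⟨e, ⟨he, he'⟩, hu⟩ := hpm1 v hv
      refine ⟨e, ⟨Finset.mem_union_left _ he, he'⟩, ?_⟩
      rintro e' ⟨h4, h5⟩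
      rw [Finset.mem_union] at h4
      rcases h4 with h4 | h4
      · exact hu e' ⟨h4, h5⟩
      · have h6 : e' ∈ cut s t X := hcutmem e'
          (by rcases h5 with h5 | h5
              · exact Or.inl (h5 ▸ hv)
              · exact Or.inr (h5 ▸ hv)) (hin2 e' h4)
        have h7 : e' = f := hfu' e' ⟨h4, by rw [cut_compl]; exact h6⟩
        exact hu e' ⟨h7 ▸ hf1, h5⟩
    · have hv' : v ∈ Xᶜ := Finset.mem_compl.2 hv
      obtain ⟨e, ⟨he, he'⟩, hu⟩ := hpm2 v hv'
      refine ⟨e, ⟨Finset.mem_union_right _ he, he'⟩, ?_⟩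
      rintro e' ⟨h4, h5⟩
      rw [Finset.mem_union] at h4
      rcases h4 with h4 | h4
      · have h6 : e' ∈ cut s t X := hcutmem e' (hin1 e' h4)
          (by rcases h5 with h5 | h5
              · exact Or.inl (h5 ▸ hv')
              · exact Or.inr (h5 ▸ hv'))
        have h7 : e' = f := hfu e' ⟨h4, h6⟩
        exact hu e' ⟨h7 ▸ hfM2, h5⟩
      · exact hu e' ⟨h4, h5⟩
  · intro v
    by_cases hv : v ∈ X
    · rw [← hfl1 v hv]
      unfold bd
      congr 1
      · refine Finset.sum_congr rfl fun e he => ?_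
        have : s e ∈ X := by rw [(Finset.mem_filter.1 he).2]; exact hv
        simp [this]
      · refine Finset.sum_congr rfl fun e he => ?_
        have : t e ∈ X := by rw [(Finset.mem_filter.1 he).2]; exact hv
        simp [this]
    · have hv' : v ∈ Xᶜ := Finset.mem_compl.2 hv
      rw [← hψfl v hv']
      have key : ∀ e, (s e = v ∨ t e = v) → (if s e ∈ X ∨ t e ∈ X then φ1 e else ψ e) = ψ e := by
        intro e he
        by_cases h4 : s e ∈ X ∨ t e ∈ X
        · rw [if_pos h4, hagree e (hcutmem e h4 ?_)]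
          rcases he with h5 | h5
          · exact Or.inl (h5 ▸ hv')
          · exact Or.inr (h5 ▸ hv')
        · rw [if_neg h4]
      unfold bd
      congr 1
      · exact Finset.sum_congr rfl fun e he => key e (Or.inl (Finset.mem_filter.1 he).2)
      · exact Finset.sum_congr rfl fun e he => key e (Or.inr (Finset.mem_filter.1 he).2)
  · intro e he
    by_cases h4 : s e ∈ X ∨ t e ∈ X
    · simp only [h4, if_true]
      rw [Finset.mem_union] at he
      rcases he with he | he
      · exact hnz1 e he
      · have h6 : e ∈ cut s t X := hcutmem e h4 (hin2 e he)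
        have h7 : e = f := hfu' e ⟨he, by rw [cut_compl]; exact h6⟩
        rw [h7]
        exact hnz1 f hf1
    · simp only [h4, if_false]
      rw [Finset.mem_union] at he
      rcases he with he | he
      · exact absurd (hin1 e he) h4
      · simp only [hψ, he, if_true, add_zero]
        exact fun h0 => hnz2 e he (hA0 _ h0)

end

/-- Every bridgeless cubic multigraph has, through any given edge, a perfect matching and a flow
with values in the Klein four group that is nonzero on the matching. -/
theorem exists_good : ∀ (n : ℕ) (V E : Type) [Fintype V] [DecidableEq V] [Fintype E]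
    [DecidableEq E] (s t : E → V), Fintype.card V = n → (∀ e, s e ≠ t e) → Cubic s t →
    (∀ X : Finset V, (cut s t X).card ≠ 1) → ∀ e0 : E,
    ∃ (M : Finset E) (φ : E → K4), e0 ∈ M ∧ Good s t M φ := by
  intro n
  induction n using Nat.strong_induction_on with
  | _ n ih =>
  intro V E _ _ _ _ s t hn hloop hcub hbr e0
  by_cases hcase : ∃ X : Finset V, (cut s t X).card = 3 ∧ 2 ≤ X.card ∧ 2 ≤ Xᶜ.card
  · -- a nontrivial 3-cut: contract both sides
    have side : ∀ X : Finset V, (cut s t X).card = 3 → 2 ≤ Xᶜ.card → ∀ e, (s e ∈ X ∨ t e ∈ X) →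
        PGood s t X e := by
      intro X hX hX' e he
      have hcard : Fintype.card (Option {v // v ∈ X}) < n := by
        rw [Fintype.card_option, Fintype.card_coe, ← hn]
        have := Finset.card_add_card_compl X
        omega
      obtain ⟨M, φ, hM, hgood⟩ := ih _ hcard (Option {v // v ∈ X}) (Ec s t X) (sc s t X)
        (tc s t X) rfl (contract_loopless hloop X) (contract_cubic hcub X hX)
        (contract_bridgeless hbr X) ⟨e, he⟩
      exact good_of_contract X M φ hgood ⟨e, he⟩ hM
    obtain ⟨X, hX3, hX2, hXc2⟩ := hcase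
    by_cases he : s e0 ∈ X ∨ t e0 ∈ X
    · refine glue hloop hcub X hX3 e0 (side X hX3 hXc2 e0 he) ?_
      intro f hf
      refine side Xᶜ (by rw [cut_compl]; exact hX3) (by rw [compl_compl]; exact hX2) f ?_
      rw [mem_cut] at hf
      simp only [Finset.mem_compl]
      tauto
    · refine glue hloop hcub Xᶜ (by rw [cut_compl]; exact hX3) e0
        (side Xᶜ (by rw [cut_compl]; exact hX3) (by rw [compl_compl]; exact hX2) e0 ?_) ?_
      · simp only [Finset.mem_compl]
        tauto
      · intro f hf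
        rw [compl_compl]
        refine side X hX3 hXc2 f ?_
        rw [cut_compl, mem_cut] at hf
        tauto
  · -- only trivial 3-cuts
    push Not at hcase
    obtain ⟨M, hM0, hM⟩ := exists_matching hloop hcub hbr e0
    have hno3 : ∀ X : Finset V, cut s t X ⊆ M → (cut s t X).card ≠ 3 := by
      intro X hXM hX3
      have hodd : Odd X.card := even_cut hcub X (by rw [hX3]; decide)
      have hodd' : Odd Xᶜ.card := even_cut hcub Xᶜ (by rw [cut_compl, hX3]; decide)
      have hv : ∃ v, X = {v} ∨ Xᶜ = {v} := by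
        by_cases h2 : 2 ≤ X.card
        · have h3 := hcase X hX3 h2
          have : Xᶜ.card = 1 := by
            obtain ⟨k, hk⟩ := hodd'
            omega
          obtain ⟨v, hv⟩ := Finset.card_eq_one.1 this
          exact ⟨v, Or.inr hv⟩
        · have : X.card = 1 := by
            obtain ⟨k, hk⟩ := hodd
            omega
          obtain ⟨v, hv⟩ := Finset.card_eq_one.1 this
          exact ⟨v, Or.inl hv⟩
      obtain ⟨v, hv⟩ := hv
      have hinc : ∀ e ∈ cut s t X, s e = v ∨ t e = v := by
        intro e he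
        have he' : e ∈ cut s t {v} := by
          rcases hv with h | h
          · rwa [h] at he
          · rw [← cut_compl, h] at he
            exact he
        rw [mem_cut] at he'
        simp only [Finset.mem_singleton] at he'
        tauto
      obtain ⟨e, _, hu⟩ := hM v
      have : (cut s t X).card ≤ 1 := by
        rw [Finset.card_le_one]
        intro a ha b hb
        rw [hu a ⟨hXM ha, hinc a ha⟩, hu b ⟨hXM hb, hinc b hb⟩]
      omega
    obtain ⟨φ, hφ, hφM⟩ := exists_flow s t M (fun X _ => hbr X) hno3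
    exact ⟨M, φ, hM0, hM, hφ, hφM⟩

end Pool.Agent.Helper243.MG
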