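import Pool.Agent.Helper243.Auto

set_option autoImplicit false
set_option linter.unusedSectionVars false

namespace Pool.Agent.Helper243.MG

open Finset Module Pool.Agent.Helper243.Auto

theorem perm_apply_inv {V : Type} (σ : Equiv.Perm V) (v : V) : σ (σ⁻¹ v) = v := by
  simp

theorem exists_labelling {V T : Type} [Finite V] (σ : Equiv.Perm V) (R : V → T → T → Prop)
    (h : ∀ b : V, ∃ f : ℕ → T, f 0 = f (Function.minimalPeriod σ b) ∧
      ∀ k < Function.minimalPeriod σ b, R ((σ ^ k) b) (f k) (f (k + 1))) :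
    ∃ t : V → T, ∀ v, R v (t (σ⁻¹ v)) (t v) := by
  classical
  choose f hf0 hf using h
  let rep : V → V := fun v => Quotient.out (Quotient.mk (Equiv.Perm.SameCycle.setoid σ) v)
  have hrep : ∀ v, Equiv.Perm.SameCycle σ (rep v) v := fun v =>
    Quotient.mk_out (s := Equiv.Perm.SameCycle.setoid σ) v
  have hrep' : ∀ v, rep (σ⁻¹ v) = rep v := by
    intro v
    have : Quotient.mk (Equiv.Perm.SameCycle.setoid σ) (σ⁻¹ v) =
        Quotient.mk (Equiv.Perm.SameCycle.setoid σ) v := by
      apply Quotient.sound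
      show Equiv.Perm.SameCycle σ (σ⁻¹ v) v
      exact ⟨1, by simp⟩
    show Quotient.out _ = Quotient.out _
    rw [this]
  have hex : ∀ v, ∃ k, k < Function.minimalPeriod σ (rep v) ∧ (σ ^ k) (rep v) = v := by
    intro v
    obtain ⟨i, _, hi⟩ := (hrep v).exists_pow_eq'
    have hpos : 0 < Function.minimalPeriod σ (rep v) := by
      apply Function.minimalPeriod_pos_of_mem_periodicPts
      exact Function.Injective.mem_periodicPts σ.injective (rep v)
    refine ⟨i % Function.minimalPeriod σ (rep v), Nat.mod_lt _ hpos, ?_⟩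
    rw [← Equiv.Perm.iterate_eq_pow, Function.iterate_mod_minimalPeriod_eq,
      Equiv.Perm.iterate_eq_pow, hi]
  choose k hk hkv using hex
  have huniq : ∀ b i j, i < Function.minimalPeriod σ b → j < Function.minimalPeriod σ b →
      (σ ^ i) b = (σ ^ j) b → i = j := by
    intro b i j hi hj hij
    rw [← Equiv.Perm.iterate_eq_pow, ← Equiv.Perm.iterate_eq_pow] at hij
    exact Function.iterate_injOn_Iio_minimalPeriod hi hj hij
  refine ⟨fun v => f (rep v) (k v + 1), ?_⟩
  intro v
  have hk2 := hk (σ⁻¹ v)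
  have hkv2 := hkv (σ⁻¹ v)
  rw [hrep'] at hk2 hkv2
  have hR := hf (rep v) (k v) (hk v)
  rw [hkv v] at hR
  have hgoal : f (rep (σ⁻¹ v)) (k (σ⁻¹ v) + 1) = f (rep v) (k v) := by
    rw [hrep']
    rcases Nat.eq_zero_or_pos (k v) with h0 | hpos
    · have hv : rep v = v := by
        have := hkv v
        rw [h0, pow_zero] at this
        exact this
      have hn : 0 < Function.minimalPeriod σ (rep v) := by
        have := hk v
        omega
      have : k (σ⁻¹ v) = Function.minimalPeriod σ (rep v) - 1 := by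
        apply huniq (rep v) _ _ hk2 (by omega)
        rw [hkv2]
        have h1 : (σ ^ (Function.minimalPeriod σ (rep v))) (rep v) = rep v := by
          rw [← Equiv.Perm.iterate_eq_pow]
          exact Function.iterate_minimalPeriod
        apply σ.injective
        rw [← Equiv.Perm.mul_apply, ← Equiv.Perm.mul_apply, ← pow_succ',
          Nat.sub_add_cancel hn, h1, mul_inv_cancel, Equiv.Perm.one_apply]
        exact hv.symm
      rw [this, Nat.sub_add_cancel hn, ← hf0, h0]
    · have : k (σ⁻¹ v) = k v - 1 := by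
        apply huniq (rep v) _ _ hk2 (by have := hk v; omega)
        rw [hkv2]
        apply σ.injective
        rw [← Equiv.Perm.mul_apply, ← Equiv.Perm.mul_apply, ← pow_succ',
          Nat.sub_add_cancel hpos, hkv v, mul_inv_cancel, Equiv.Perm.one_apply]
      rw [this, Nat.sub_add_cancel hpos]
  show R v (f (rep (σ⁻¹ v)) (k (σ⁻¹ v) + 1)) (f (rep v) (k v + 1))
  rw [hgoal]
  exact hR

section

variable {V E : Type} [Fintype V] [DecidableEq V] [Fintype E] [DecidableEq E]

/-- Edges at a vertex. -/
def inc (s t : E → V) (v : V) : Finset E := univ.filter fun e => s e = v ∨ t e = v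

theorem mem_inc (s t : E → V) (v : V) (e : E) : e ∈ inc s t v ↔ s e = v ∨ t e = v := by
  simp [inc]

theorem inc_eq_union (s t : E → V) (v : V) :
    inc s t v = (univ.filter fun e => s e = v) ∪ univ.filter fun e => t e = v := by
  ext e; simp [inc]

theorem inc_disj {s t : E → V} (hloop : ∀ e, s e ≠ t e) (v : V) :
    Disjoint (univ.filter fun e => s e = v) (univ.filter fun e => t e = v) := by
  rw [Finset.disjoint_left]
  intro e
  simp only [Finset.mem_filter, Finset.mem_univ, true_and]
  intro h1 h2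
  exact hloop e (h1.trans h2.symm)

theorem card_inc {s t : E → V} (hloop : ∀ e, s e ≠ t e) (hcub : Cubic s t) (v : V) :
    (inc s t v).card = 3 := by
  rw [inc_eq_union, Finset.card_union_of_disjoint (inc_disj hloop v)]
  exact hcub v

theorem bd_eq_inc {K : Type} [AddCommMonoid K] {s t : E → V} (hloop : ∀ e, s e ≠ t e)
    (φ : E → K) (v : V) : bd s t φ v = ∑ e ∈ inc s t v, φ e := by
  rw [inc_eq_union, Finset.sum_union (inc_disj hloop v)]
  rfl

theorem exists_orientation {s t : E → V} (hloop : ∀ e, s e ≠ t e) (hcub : Cubic s t)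
    (M : Finset E) (hM : ∀ v, ∃! e, e ∈ M ∧ (s e = v ∨ t e = v)) :
    ∃ (α : V → E) (σ : Equiv.Perm V), Function.Injective α ∧ (∀ v, α v ∉ M) ∧
      (∀ v, (s (α v) = v ∧ t (α v) = σ v) ∨ (t (α v) = v ∧ s (α v) = σ v)) ∧
      ∀ v, (inc s t v).filter (fun e => e ∉ M) = {α v, α (σ⁻¹ v)} ∧ α v ≠ α (σ⁻¹ v) := by
  classical
  let N : V → Finset E := fun v => (inc s t v).filter fun e => e ∉ M
  have hNcard : ∀ v, (N v).card = 2 := by
    intro v
    have h1 := Finset.card_filter_add_card_filter_not (s := inc s t v) (fun e => e ∈ M)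
    have h2 : ((inc s t v).filter fun e => e ∈ M).card = 1 := by
      rw [Finset.card_eq_one]
      obtain ⟨e, he, hu⟩ := hM v
      refine ⟨e, ?_⟩
      ext e'
      simp only [Finset.mem_filter, mem_inc, Finset.mem_singleton]
      constructor
      · rintro ⟨h3, h4⟩; exact hu e' ⟨h4, h3⟩
      · rintro rfl; exact ⟨he.2, he.1⟩
    rw [h2, card_inc hloop hcub v] at h1
    show ((inc s t v).filter fun e => e ∉ M).card = 2
    omega
  have hall : ∀ S : Finset V, S.card ≤ (S.biUnion N).card := by
    intro S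
    have := Finset.card_mul_le_card_mul (s := S) (t := S.biUnion N) (m := 2) (n := 2)
      (fun v e => e ∈ N v) ?_ ?_
    · omega
    · intro v hv
      rw [← hNcard v]
      apply Finset.card_le_card
      intro e he
      rw [Finset.mem_bipartiteAbove]
      exact ⟨Finset.mem_biUnion.2 ⟨v, hv, he⟩, he⟩
    · intro e _
      calc _ ≤ ({s e, t e} : Finset V).card := by
            apply Finset.card_le_card
            intro v hv
            rw [Finset.mem_bipartiteBelow] at hv
            have := (Finset.mem_filter.1 hv.2).1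
            rw [mem_inc] at this
            rw [Finset.mem_insert, Finset.mem_singleton]
            rcases this with h | h
            · exact Or.inl h.symm
            · exact Or.inr h.symm
        _ ≤ 2 := Finset.card_le_two
  obtain ⟨α, hα, hαN⟩ := (Finset.all_card_le_biUnion_card_iff_exists_injective N).1 hall
  have hαM : ∀ v, α v ∉ M := fun v => (Finset.mem_filter.1 (hαN v)).2
  have hαinc : ∀ v, s (α v) = v ∨ t (α v) = v := fun v =>
    (mem_inc s t v _).1 (Finset.mem_filter.1 (hαN v)).1
  let τ : V → V := fun v => if s (α v) = v then t (α v) else s (α v)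
  have hτ : ∀ v, (s (α v) = v ∧ t (α v) = τ v) ∨ (t (α v) = v ∧ s (α v) = τ v) := by
    intro v
    by_cases h : s (α v) = v
    · left; exact ⟨h, by simp [τ, h]⟩
    · right
      refine ⟨(hαinc v).resolve_left h, by simp [τ, h]⟩
  have hτne : ∀ v, τ v ≠ v := by
    intro v h
    rcases hτ v with ⟨h1, h2⟩ | ⟨h1, h2⟩
    · exact hloop (α v) (by rw [h1, h2, h])
    · exact hloop (α v) (by rw [h1, h2, h])
  have hτN : ∀ v, α v ∈ N (τ v) := by
    intro v
    refine Finset.mem_filter.2 ⟨(mem_inc _ _ _ _).2 ?_, hαM v⟩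
    rcases hτ v with ⟨h1, h2⟩ | ⟨h1, h2⟩
    · exact Or.inr h2
    · exact Or.inl h2
  have hinj : Function.Injective τ := by
    intro v v' hvv
    by_contra hne
    have h1 : ({α v, α v', α (τ v)} : Finset E) ⊆ N (τ v) := by
      intro e he
      simp only [Finset.mem_insert, Finset.mem_singleton] at he
      rcases he with rfl | rfl | rfl
      · exact hτN v
      · rw [hvv]; exact hτN v'
      · exact hαN _
    have h2 := Finset.card_le_card h1
    rw [hNcard, Finset.card_eq_three.2 ⟨α v, α v', α (τ v), hα.ne hne, hα.ne (hτne v).symm,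
      hα.ne (by rw [hvv]; exact (hτne v').symm), rfl⟩] at h2
    omega
  let σ : Equiv.Perm V := Equiv.ofBijective τ (Finite.injective_iff_bijective.1 hinj)
  have hσ : ∀ v, σ v = τ v := fun v => rfl
  have hne : ∀ v, α v ≠ α (σ⁻¹ v) := by
    intro v h
    have h1 := hα h
    have h2 : σ v = v := by
      conv_lhs => rw [h1]
      simp
    exact hτne v h2
  refine ⟨α, σ, hα, hαM, hτ, fun v => ⟨?_, hne v⟩⟩
  symm
  apply Finset.eq_of_subset_of_card_le
  · intro e he
    rw [Finset.mem_insert, Finset.mem_singleton] at he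
    rcases he with rfl | rfl
    · exact hαN v
    · have := hτN (σ⁻¹ v)
      rw [← hσ, perm_apply_inv] at this
      exact this
  · rw [Finset.card_pair (hne v)]
    exact (hNcard v).le

/-- The colouring of three copies of a bridgeless cubic multigraph and of the triangles. -/
theorem exists_colouring {s t : E → V} (hloop : ∀ e, s e ≠ t e) (hcub : Cubic s t)
    (M : Finset E) (φ : E → K4) (hgood : Good s t M φ) :
    ∃ (c : E → Fin 3 → Fin 5) (kc : V → Fin 3 → Fin 5),
      (∀ v i e e', e ∈ inc s t v → e' ∈ inc s t v → e ≠ e' → c e i ≠ c e' i) ∧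
      (∀ v i j e, e ∈ inc s t v → j ≠ i → kc v j ≠ c e i) ∧
      ∀ v i j, i ≠ j → kc v i ≠ kc v j := by
  classical
  obtain ⟨hM, hfl, hnz⟩ := hgood
  obtain ⟨α, σ, hα, hαM, hασ, hN⟩ := exists_orientation hloop hcub M hM
  choose μ hμ hμu using hM
  have hμM : ∀ v, μ v ∈ M := fun v => (hμ v).1
  have hinc : ∀ v, inc s t v = {μ v, α v, α (σ⁻¹ v)} := by
    intro v
    rw [← (hN v).1]
    ext e
    simp only [Finset.mem_insert, Finset.mem_filter]
    constructor
    · intro h
      by_cases he : e ∈ M
      · exact Or.inl (hμu v e ⟨he, (mem_inc _ _ _ _).1 h⟩)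
      · exact Or.inr ⟨h, he⟩
    · rintro (rfl | h)
      · exact (mem_inc _ _ _ _).2 (hμ v).2
      · exact h.1
  have hflow : ∀ v, φ (μ v) = φ (α v) - φ (α (σ⁻¹ v)) := by
    intro v
    have h := hfl v
    rw [bd_eq_inc hloop, hinc v, Finset.sum_insert, Finset.sum_pair (hN v).2] at h
    · have hk : ∀ a b c : K4, a + (b + c) = 0 → a = b - c := by decide
      exact hk _ _ _ h
    · simp only [Finset.mem_insert, Finset.mem_singleton, not_or]
      exact ⟨fun h => hαM v (h ▸ hμM v), fun h => hαM (σ⁻¹ v) (h ▸ hμM v)⟩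
  obtain ⟨l, hl⟩ := exists_labelling σ (fun v x y => Rel (φ (μ v)) x y) (by
    intro b
    apply exists_closed (fun k => φ (μ ((σ ^ k) b))) (fun k => hnz _ (hμM _))
    have h1 : ∀ k : ℕ, φ (μ ((σ ^ k) b)) =
        φ (α ((σ ^ (k + 1)) (σ⁻¹ b))) - φ (α ((σ ^ k) (σ⁻¹ b))) := by
      intro k
      rw [hflow]
      congr 3
      · rw [pow_succ, Equiv.Perm.mul_apply, perm_apply_inv]
      · rw [← Equiv.Perm.mul_apply, ← Equiv.Perm.mul_apply, ← zpow_natCast,
          ← zpow_neg_one, ← zpow_add, ← zpow_add, add_comm]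
    rw [Finset.sum_congr rfl fun k _ => h1 k, Finset.sum_range_sub
      (fun k => φ (α ((σ ^ k) (σ⁻¹ b))))]
    have h2 : (σ ^ (Function.minimalPeriod σ b)) (σ⁻¹ b) = σ⁻¹ b := by
      have h3 : (σ ^ (Function.minimalPeriod σ b)) b = b := by
        rw [← Equiv.Perm.iterate_eq_pow]
        exact Function.iterate_minimalPeriod
      apply σ.injective
      rw [perm_apply_inv, ← Equiv.Perm.mul_apply, ← pow_succ', pow_succ,
        Equiv.Perm.mul_apply, perm_apply_inv, h3]
    rw [h2, pow_zero, Equiv.Perm.one_apply, sub_self])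
  choose kc hkc using hl
  let c : E → Fin 3 → Fin 5 := fun e =>
    if e ∈ M then tau (φ e) else if h : ∃ v, α v = e then tri (l h.choose) else fun _ => 0
  have hcM : ∀ v, c (μ v) = tau (φ (μ v)) := fun v => by simp [c, hμM v]
  have hcF : ∀ v, c (α v) = tri (l v) := by
    intro v
    have hex : ∃ w, α w = α v := ⟨v, rfl⟩
    have : hex.choose = v := hα hex.choose_spec
    simp only [c, hαM v, if_false, hex, dif_pos, this]
  refine ⟨c, kc, ?_, ?_, ?_⟩
  · intro v i e e' he he' hne
    have hF := (hkc v).1 i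
    rw [hinc v] at he he'
    simp only [Finset.mem_insert, Finset.mem_singleton] at he he'
    rcases he with rfl | rfl | rfl <;> rcases he' with rfl | rfl | rfl
    · exact absurd rfl hne
    · rw [hcM, hcF]; exact hF.2.1
    · rw [hcM, hcF]; exact hF.1
    · rw [hcM, hcF]; exact hF.2.1.symm
    · exact absurd rfl hne
    · rw [hcF, hcF]; exact hF.2.2.symm
    · rw [hcM, hcF]; exact hF.1.symm
    · rw [hcF, hcF]; exact hF.2.2
    · exact absurd rfl hne
  · intro v i j e he hji
    have hF := (hkc v).2.1 i j hji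
    rw [hinc v] at he
    simp only [Finset.mem_insert, Finset.mem_singleton] at he
    rcases he with rfl | rfl | rfl
    · rw [hcM]; exact hF.1
    · rw [hcF]; exact hF.2.2
    · rw [hcF]; exact hF.2.1
  · intro v i j hij
    exact (hkc v).2.2 i j hij

end

end Pool.Agent.Helper243.MG
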