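import Mathlib

set_option autoImplicit false

namespace Pool.Agent.Helper243.Partition

open Finset

variable {E : Type} [DecidableEq E]

theorem partition_aux (r : Finset E → ℕ)
    (hsub : ∀ A B, r (A ∪ B) + r (A ∩ B) ≤ r A + r B)
    (hle : ∀ A, r A ≤ A.card) (S : Finset E) :
    ∀ I₁ I₂ : Finset E, Disjoint S I₁ → Disjoint S I₂ →
      (∀ A ⊆ S, A.card + I₁.card + I₂.card ≤ r (A ∪ I₁) + r (A ∪ I₂)) →
      ∃ A B : Finset E, A ∪ B = S ∪ I₁ ∪ I₂ ∧ r A = A.card ∧ r B = B.card := by
  induction S using Finset.induction_on with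
  | empty =>
    intro I₁ I₂ _ _ h
    have h0 := h ∅ (Finset.Subset.refl _)
    simp only [Finset.card_empty, Finset.empty_union, zero_add] at h0
    have h1 := hle I₁
    have h2 := hle I₂
    exact ⟨I₁, I₂, by simp, by omega, by omega⟩
  | insert e S he ih =>
    intro I₁ I₂ d₁ d₂ h
    have he₁ : e ∉ I₁ := Finset.disjoint_left.1 d₁ (Finset.mem_insert_self _ _)
    have he₂ : e ∉ I₂ := Finset.disjoint_left.1 d₂ (Finset.mem_insert_self _ _)
    have dS₁ : Disjoint S I₁ := d₁.mono_left (Finset.subset_insert _ _)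
    have dS₂ : Disjoint S I₂ := d₂.mono_left (Finset.subset_insert _ _)
    by_cases c1 : ∀ A ⊆ S, A.card + (insert e I₁).card + I₂.card ≤
        r (A ∪ insert e I₁) + r (A ∪ I₂)
    · obtain ⟨A, B, hAB, hA, hB⟩ := ih (insert e I₁) I₂
        (by rw [Finset.disjoint_insert_right]; exact ⟨he, dS₁⟩) dS₂ c1
      refine ⟨A, B, ?_, hA, hB⟩
      rw [hAB]
      ext x
      simp only [Finset.mem_union, Finset.mem_insert]
      tauto
    by_cases c2 : ∀ A ⊆ S, A.card + I₁.card + (insert e I₂).card ≤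
        r (A ∪ I₁) + r (A ∪ insert e I₂)
    · obtain ⟨A, B, hAB, hA, hB⟩ := ih I₁ (insert e I₂) dS₁
        (by rw [Finset.disjoint_insert_right]; exact ⟨he, dS₂⟩) c2
      refine ⟨A, B, ?_, hA, hB⟩
      rw [hAB]
      ext x
      simp only [Finset.mem_union, Finset.mem_insert]
      tauto
    exfalso
    push Not at c1 c2
    obtain ⟨A, hA, hA'⟩ := c1
    obtain ⟨B, hB, hB'⟩ := c2
    rw [Finset.card_insert_of_notMem he₁] at hA'
    rw [Finset.card_insert_of_notMem he₂] at hB'
    have heA : e ∉ A := fun h => he (hA h)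
    have heB : e ∉ B := fun h => he (hB h)
    have s1 := hsub (A ∪ insert e I₁) (B ∪ I₁)
    have s2 := hsub (A ∪ I₂) (B ∪ insert e I₂)
    have u1 : (A ∪ insert e I₁) ∪ (B ∪ I₁) = insert e (A ∪ B) ∪ I₁ := by
      ext x; simp only [Finset.mem_union, Finset.mem_insert]; tauto
    have u2 : (A ∪ I₂) ∪ (B ∪ insert e I₂) = insert e (A ∪ B) ∪ I₂ := by
      ext x; simp only [Finset.mem_union, Finset.mem_insert]; tauto
    have i1 : (A ∪ insert e I₁) ∩ (B ∪ I₁) = (A ∩ B) ∪ I₁ := by
      ext x; simp only [Finset.mem_union, Finset.mem_inter, Finset.mem_insert]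
      constructor
      · rintro ⟨h1 | h1 | h1, h2 | h2⟩
        · exact Or.inl ⟨h1, h2⟩
        · exact Or.inr h2
        · subst h1; exact absurd h2 heB
        · exact Or.inr h2
        · exact Or.inr h1
        · exact Or.inr h2
      · rintro (⟨h1, h2⟩ | h1)
        · exact ⟨Or.inl h1, Or.inl h2⟩
        · exact ⟨Or.inr (Or.inr h1), Or.inr h1⟩
    have i2 : (A ∪ I₂) ∩ (B ∪ insert e I₂) = (A ∩ B) ∪ I₂ := by
      ext x; simp only [Finset.mem_union, Finset.mem_inter, Finset.mem_insert]
      constructor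
      · rintro ⟨h1 | h1, h2 | h2 | h2⟩
        · exact Or.inl ⟨h1, h2⟩
        · subst h2; exact absurd h1 heA
        · exact Or.inr h2
        · exact Or.inr h1
        · exact Or.inr h1
        · exact Or.inr h2
      · rintro (⟨h1, h2⟩ | h1)
        · exact ⟨Or.inl h1, Or.inl h2⟩
        · exact ⟨Or.inr h1, Or.inr (Or.inr h1)⟩
    rw [u1, i1] at s1
    rw [u2, i2] at s2
    have k1 := h (insert e (A ∪ B)) (Finset.insert_subset_insert _ (Finset.union_subset hA hB))
    have k2 := h (A ∩ B) ((Finset.inter_subset_left.trans hA).trans (Finset.subset_insert _ _))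
    have heAB : e ∉ A ∪ B := by simp [heA, heB]
    rw [Finset.card_insert_of_notMem heAB] at k1
    have c := Finset.card_union_add_card_inter A B
    omega

/-- Partition of a set into two independent sets of a matroid given by its rank function. -/
theorem partition (r : Finset E → ℕ)
    (hsub : ∀ A B, r (A ∪ B) + r (A ∩ B) ≤ r A + r B)
    (hle : ∀ A, r A ≤ A.card) (S : Finset E) (h : ∀ A ⊆ S, A.card ≤ 2 * r A) :
    ∃ A B : Finset E, A ∪ B = S ∧ r A = A.card ∧ r B = B.card := by
  obtain ⟨A, B, hAB, hA, hB⟩ := partition_aux r hsub hle S ∅ ∅ (by simp) (by simp)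
    (by
      intro A hA
      have := h A hA
      simp only [Finset.card_empty, Finset.union_empty]
      omega)
  exact ⟨A, B, by simpa using hAB, hA, hB⟩

end Pool.Agent.Helper243.Partition
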