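import Pool.Agent.Helper243.Rank
import Pool.Agent.Helper243.Partition

set_option autoImplicit false
set_option linter.unusedSectionVars false

namespace Pool.Agent.Helper243.MG

open Finset Module

variable {V E : Type} [Fintype V] [DecidableEq V] [Fintype E] [DecidableEq E]

theorem bdL_single (s t : E → V) (e : E) :
    bdL s t (Pi.single e 1) = Pi.single (s e) 1 + Pi.single (t e) 1 := by
  funext v
  show bd s t (Pi.single e 1) v = _
  have h : ∀ f : E → V, ∑ e' with f e' = v, (Pi.single e (1 : ZMod 2) : E → ZMod 2) e' =
      (Pi.single (f e) 1 : V → ZMod 2) v := by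
    intro f
    rw [Finset.sum_filter]
    simp only [Pi.single_apply]
    have : ∀ a : E, (if f a = v then (if a = e then (1 : ZMod 2) else 0) else 0) =
        if a = e then (if v = f e then 1 else 0) else 0 := by
      intro a
      by_cases h1 : a = e
      · subst h1
        by_cases h2 : f a = v
        · simp [h2]
        · have : ¬ v = f a := fun h => h2 h.symm
          simp [h2, this]
      · simp [h1]
    rw [Finset.sum_congr rfl fun a _ => this a]
    simp
  simp only [bd, h, Pi.add_apply]

/-- If all nonempty cuts inside `A` have at least four edges, the rank of `A` is at least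
half its size. -/
theorem card_le_two_rk (s t : E → V) (A : Finset E)
    (h4 : ∀ X : Finset V, cut s t X ⊆ A → (cut s t X).Nonempty → 4 ≤ (cut s t X).card) :
    A.card ≤ 2 * rk s t A := by
  classical
  let Rel : V → V → Prop := fun u v => ∃ e, e ∉ A ∧ s e = u ∧ t e = v
  let Q := Quot Rel
  let mk : V → Q := Quot.mk Rel
  haveI : Finite Q := Finite.of_surjective mk Quot.mk_surjective
  haveI : Fintype Q := Fintype.ofFinite Q
  have hmk : ∀ e, e ∉ A → mk (s e) = mk (t e) := fun e he => Quot.sound ⟨e, he, rfl, rfl⟩
  -- the elementary cuts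
  let y : Q → E → ZMod 2 := fun q e =>
    (if mk (s e) = q then 1 else 0) + (if mk (t e) = q then 1 else 0)
  have hy : ∀ q e, y q e ≠ 0 ↔ ¬ (mk (s e) = q ↔ mk (t e) = q) := by
    intro q e
    by_cases h1 : mk (s e) = q <;> by_cases h2 : mk (t e) = q <;> simp [y, h1, h2]
    decide
  let Y : Q → Dual (ZMod 2) (A → ZMod 2) := fun q =>
    ∑ e : A, y q e • LinearMap.proj e
  have hYapp : ∀ q z, Y q z = ∑ e : A, y q e * z e := by
    intro q z
    simp [Y, LinearMap.sum_apply]
  set R := (Z s t).map (res A) with hR
  let T : Finset Q := univ.filter fun q => Y q ≠ 0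
  -- the annihilator is spanned by the elementary cuts
  have hann : R.dualAnnihilator ≤ Submodule.span (ZMod 2) ((T.image Y : Finset _) : Set _) := by
    intro ψ hψ
    rw [Submodule.mem_dualAnnihilator] at hψ
    have h1 : ψ ∘ₗ (res A) ∈ (LinearMap.ker (bdL s t)).dualAnnihilator := by
      rw [Submodule.mem_dualAnnihilator]
      intro z hz
      exact hψ _ (Submodule.mem_map_of_mem hz)
    rw [← LinearMap.range_dualMap_eq_dualAnnihilator_ker] at h1
    obtain ⟨x, hx⟩ := h1
    have hx1 : ∀ e, x (Pi.single (s e) 1) + x (Pi.single (t e) 1) =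
        ψ (res A (Pi.single e 1)) := by
      intro e
      have := LinearMap.congr_fun hx (Pi.single e 1)
      rw [LinearMap.dualMap_apply, bdL_single, map_add] at this
      exact this
    have hx0 : ∀ e, e ∉ A → x (Pi.single (s e) 1) = x (Pi.single (t e) 1) := by
      intro e he
      have h0 : res A (Pi.single e (1 : ZMod 2)) = 0 := by
        funext a
        have : (a : E) ≠ e := fun h => he (h ▸ a.2)
        simp [LinearMap.funLeft, Pi.single_apply, this]
      have := hx1 e
      rw [h0, map_zero] at this
      exact CharTwo.add_eq_zero.1 this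
    let xb : Q → ZMod 2 := Quot.lift (fun v => x (Pi.single v 1)) (by
      rintro u v ⟨e, he, rfl, rfl⟩
      exact hx0 e he)
    have hxb : ∀ v, x (Pi.single v 1) = xb (mk v) := fun v => rfl
    have hψ' : ψ = ∑ q, xb q • Y q := by
      apply LinearMap.pi_ext'
      intro e
      apply LinearMap.ext_ring
      have e1 : (LinearMap.single (ZMod 2) (fun _ : A => ZMod 2) e) 1 =
          res A (Pi.single (e : E) 1) := by
        funext a
        simp only [LinearMap.single_apply, LinearMap.funLeft_apply, Pi.single_apply]
        by_cases h : a = e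
        · simp [h]
        · have : ¬ (a : E) = e := fun h' => h (Subtype.ext h')
          simp [h, this]
      rw [LinearMap.comp_apply, LinearMap.comp_apply, e1, ← hx1, hxb, hxb]
      rw [LinearMap.sum_apply]
      have e2 : ∀ q, (xb q • Y q) (res A (Pi.single (e : E) 1)) = xb q * y q e := by
        intro q
        rw [LinearMap.smul_apply, hYapp, smul_eq_mul]
        congr 1
        have : ∀ a : A, y q a * (res A (Pi.single (e : E) (1 : ZMod 2))) a =
            if a = e then y q e else 0 := by
          intro a
          simp only [LinearMap.funLeft_apply, Pi.single_apply]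
          by_cases h : a = e
          · simp [h]
          · have : ¬ (a : E) = e := fun h' => h (Subtype.ext h')
            simp [h, this]
        rw [Finset.sum_congr rfl fun a _ => this a]
        simp
      rw [Finset.sum_congr rfl fun q _ => e2 q]
      simp only [y, mul_add, Finset.sum_add_distrib]
      simp
    rw [hψ']
    refine Submodule.sum_mem _ fun q _ => Submodule.smul_mem _ _ ?_
    by_cases hq : Y q = 0
    · rw [hq]; exact Submodule.zero_mem _
    · apply Submodule.subset_span
      simp only [Finset.coe_image, Set.mem_image, Finset.mem_coe]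
      exact ⟨q, by simp [T, hq], rfl⟩
  have hfin : finrank (ZMod 2) R.dualAnnihilator ≤ T.card := by
    refine (Submodule.finrank_mono hann).trans ?_
    refine (finrank_span_finset_le_card _).trans ?_
    exact Finset.card_image_le
  have hsum := Subspace.finrank_add_finrank_dualAnnihilator_eq R
  have hA : finrank (ZMod 2) (A → ZMod 2) = A.card := by simp
  -- counting
  have hcut : ∀ q, cut s t (univ.filter fun v => mk v = q) = A.filter fun e => y q e ≠ 0 := by
    intro q
    ext e
    simp only [mem_cut, Finset.mem_filter, Finset.mem_univ, true_and, hy]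
    constructor
    · intro h
      refine ⟨?_, h⟩
      by_contra he
      exact h (by rw [hmk e he])
    · exact fun h => h.2
  have hT4 : ∀ q ∈ T, 4 ≤ (A.filter fun e => y q e ≠ 0).card := by
    intro q hq
    have hq' : Y q ≠ 0 := (Finset.mem_filter.1 hq).2
    have hne : (A.filter fun e => y q e ≠ 0).Nonempty := by
      by_contra hne
      rw [Finset.not_nonempty_iff_eq_empty, Finset.filter_eq_empty_iff] at hne
      apply hq'
      apply LinearMap.ext
      intro z
      rw [hYapp]
      refine Finset.sum_eq_zero fun e _ => ?_
      have := hne e.2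
      push Not at this
      rw [this, zero_mul]
    rw [← hcut] at hne ⊢
    refine h4 _ ?_ hne
    rw [hcut]
    exact Finset.filter_subset _ _
  have hcount : ∑ q ∈ T, (A.filter fun e => y q e ≠ 0).card ≤ 2 * A.card := by
    have : ∀ q, (A.filter fun e => y q e ≠ 0).card = ∑ e ∈ A, if y q e ≠ 0 then 1 else 0 := by
      intro q
      rw [Finset.card_filter]
    rw [Finset.sum_congr rfl fun q _ => this q, Finset.sum_comm]
    have h2 : ∀ e ∈ A, (∑ q ∈ T, if y q e ≠ 0 then 1 else 0) ≤ 2 := by
      intro e _
      have : (∑ q ∈ T, if y q e ≠ 0 then 1 else 0) ≤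
          ∑ q : Q, ((if mk (s e) = q then 1 else 0) + (if mk (t e) = q then 1 else 0)) := by
        refine (Finset.sum_le_sum_of_subset (Finset.subset_univ T)).trans ?_
        refine Finset.sum_le_sum fun q _ => ?_
        by_cases h1 : mk (s e) = q <;> by_cases h2 : mk (t e) = q <;> simp [y, h1, h2]
        decide
      refine this.trans ?_
      rw [Finset.sum_add_distrib]
      simp
    calc _ ≤ ∑ e ∈ A, 2 := Finset.sum_le_sum h2
      _ = 2 * A.card := by rw [Finset.sum_const, smul_eq_mul, mul_comm]
  have hlow : 4 * T.card ≤ ∑ q ∈ T, (A.filter fun e => y q e ≠ 0).card := by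
    calc 4 * T.card = ∑ q ∈ T, 4 := by rw [Finset.sum_const, smul_eq_mul, mul_comm]
      _ ≤ _ := Finset.sum_le_sum hT4
  have hrk : rk s t A = finrank (ZMod 2) R := rfl
  omega

/-- Two elements of the cycle space cover any edge set whose nonempty cuts have at least four
edges. -/
theorem exists_two_flows (s t : E → V) (A : Finset E)
    (h4 : ∀ X : Finset V, cut s t X ⊆ A → (cut s t X).Nonempty → 4 ≤ (cut s t X).card) :
    ∃ z : E → ZMod 2 × ZMod 2, (∀ v, bd s t z v = 0) ∧ ∀ e ∈ A, z e ≠ 0 := by
  obtain ⟨B, C, hBC, hB, hC⟩ := Partition.partition (rk s t) (rk_submod s t) (rk_le s t) A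
    (fun A' hA' => card_le_two_rk s t A' fun X hX => h4 X (hX.trans hA'))
  obtain ⟨z1, hz1, hz1'⟩ := exists_flow_one s t B hB
  obtain ⟨z2, hz2, hz2'⟩ := exists_flow_one s t C hC
  refine ⟨fun e => (z1 e, z2 e), ?_, ?_⟩
  · intro v
    have h1 := hz1 v
    have h2 := hz2 v
    unfold bd at h1 h2 ⊢
    apply Prod.ext
    · simpa [Prod.fst_sum] using h1
    · simpa [Prod.snd_sum] using h2
  · intro e he h
    rw [← hBC, Finset.mem_union] at he
    rcases he with he | he
    · have := congrArg Prod.fst h
      simp [hz1' e he] at this
    · have := congrArg Prod.snd h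
      simp [hz2' e he] at this

end Pool.Agent.Helper243.MG
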