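import Pool.Agent.Helper243.Flow

set_option autoImplicit false
set_option linter.unusedSectionVars false

namespace Pool.Agent.Helper243.MG

open Finset Module

variable {V E : Type} [Fintype V] [DecidableEq V] [Fintype E] [DecidableEq E]

/-- A multigraph given by end maps is cubic. -/
def Cubic (s t : E → V) : Prop :=
  ∀ v, (univ.filter fun e => s e = v).card + (univ.filter fun e => t e = v).card = 3

theorem cut_parity {s t : E → V} (hcub : Cubic s t) (X : Finset V) :
    (X.card : ZMod 2) = ((cut s t X).card : ZMod 2) := by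
  have h := sum_bd (K := ZMod 2) (fun x => CharTwo.add_self_eq_zero x) s t (fun _ => 1) X
  rw [Finset.sum_const, nsmul_eq_mul, mul_one] at h
  rw [← h]
  have : ∀ v ∈ X, bd s t (fun _ => (1 : ZMod 2)) v = 1 := by
    intro v _
    unfold bd
    rw [Finset.sum_const, Finset.sum_const, nsmul_eq_mul, nsmul_eq_mul, mul_one, mul_one,
      ← Nat.cast_add, hcub v]
    decide
  rw [Finset.sum_congr rfl this, Finset.sum_const, nsmul_eq_mul, mul_one]

theorem odd_cut {s t : E → V} (hcub : Cubic s t) (X : Finset V) (h : Odd X.card) :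
    Odd (cut s t X).card := by
  rw [← ZMod.natCast_eq_one_iff_odd] at h ⊢
  rw [← cut_parity hcub X, h]

theorem even_cut {s t : E → V} (hcub : Cubic s t) (X : Finset V) (h : Odd (cut s t X).card) :
    Odd X.card := by
  rw [← ZMod.natCast_eq_one_iff_odd] at h ⊢
  rw [cut_parity hcub X, h]

theorem cut_univ (s t : E → V) : cut s t univ = ∅ := by
  ext e; simp [mem_cut]

theorem even_card {s t : E → V} (hcub : Cubic s t) : Even (Fintype.card V) := by
  rw [← Nat.not_odd_iff_even]
  intro h
  have := odd_cut hcub univ (by simpa using h)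
  rw [cut_univ] at this
  simp at this

theorem cut_card_le {s t : E → V} (hcub : Cubic s t) (X : Finset V) (e0 : E)
    (ha : s e0 ∈ X) (hb : t e0 ∈ X) : (cut s t X).card + 2 ≤ 3 * X.card := by
  have h1 : 3 * X.card =
      ∑ v ∈ X, ((univ.filter fun e => s e = v).card + (univ.filter fun e => t e = v).card) := by
    rw [Finset.sum_congr rfl fun v _ => hcub v, Finset.sum_const, smul_eq_mul, mul_comm]
  have h2 : ∀ f : E → V, ∑ v ∈ X, (univ.filter fun e => f e = v).card =
      ∑ e : E, if f e ∈ X then 1 else 0 := by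
    intro f
    simp_rw [Finset.card_filter]
    rw [Finset.sum_comm]
    refine Finset.sum_congr rfl fun e _ => ?_
    rw [Finset.sum_ite_eq]
  rw [h1, Finset.sum_add_distrib, h2 s, h2 t, ← Finset.sum_add_distrib]
  have h3 : (cut s t X).card + 2 = ∑ e : E, ((if ¬ (s e ∈ X ↔ t e ∈ X) then 1 else 0) +
      (if e = e0 then 2 else 0)) := by
    rw [Finset.sum_add_distrib, Finset.sum_ite_eq' univ e0]
    simp only [Finset.mem_univ, if_true]
    rw [cut, Finset.card_filter]
  rw [h3]
  refine Finset.sum_le_sum fun e _ => ?_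
  by_cases he : e = e0
  · subst he; simp [ha, hb]
  · by_cases h4 : s e ∈ X <;> by_cases h5 : t e ∈ X <;> simp [he, h4, h5]

theorem exists_matching {s t : E → V} (hloop : ∀ e, s e ≠ t e) (hcub : Cubic s t)
    (hbr : ∀ X : Finset V, (cut s t X).card ≠ 1) (e0 : E) :
    ∃ M : Finset E, e0 ∈ M ∧ ∀ v, ∃! e, e ∈ M ∧ (s e = v ∨ t e = v) := by
  classical
  let W := {v : V // v ≠ s e0 ∧ v ≠ t e0}
  let H : SimpleGraph W :=
    { Adj := fun u v => u ≠ v ∧ ∃ e, (s e = u ∧ t e = v) ∨ (s e = v ∧ t e = u)
      symm := ⟨fun u v h => ⟨h.1.symm, by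
        obtain ⟨e, he⟩ := h.2
        exact ⟨e, he.symm⟩⟩⟩
      loopless := ⟨fun u h => h.1 rfl⟩ }
  have hW : Nat.card W + 2 = Fintype.card V := by
    rw [Nat.card_eq_fintype_card, Fintype.card_subtype]
    have h1 : (univ.filter fun v : V => v ≠ s e0 ∧ v ≠ t e0) = univ \ {s e0, t e0} := by
      ext v; simp
    rw [h1, Finset.card_sdiff_of_subset (Finset.subset_univ _), Finset.card_pair (hloop e0),
      Finset.card_univ]
    have : ({s e0, t e0} : Finset V).card ≤ Fintype.card V := Finset.card_le_univ _
    rw [Finset.card_pair (hloop e0)] at this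
    omega
  have htutte : ∀ S : Set W, ¬ H.IsTutteViolator S := by
    intro S hS
    unfold SimpleGraph.IsTutteViolator at hS
    set H' := ((⊤ : H.Subgraph).deleteVerts S).coe with hH'
    let j : ((⊤ : H.Subgraph).deleteVerts S).verts → V := fun x => x.1.1
    have hj : Function.Injective j := fun x y h => Subtype.ext (Subtype.ext h)
    have hmemv : ∀ w : W, w ∈ ((⊤ : H.Subgraph).deleteVerts S).verts ↔ w ∉ S := by
      intro w; simp
    let S' : Finset V := univ.filter fun v => v = s e0 ∨ v = t e0 ∨ ∃ w : W, w ∈ S ∧ w.1 = v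
    let K : H'.ConnectedComponent → Finset V := fun c =>
      univ.filter fun v => ∃ x, x ∈ c.supp ∧ j x = v
    have hKmem : ∀ c v, v ∈ K c ↔ ∃ x, x ∈ c.supp ∧ j x = v := by
      intro c v; simp [K]
    have hKcard : ∀ c, (K c).card = c.supp.ncard := by
      intro c
      have : ((K c : Finset V) : Set V) = j '' c.supp := by
        ext v
        simp [hKmem]
      rw [← Set.ncard_coe_finset, this, Set.ncard_image_of_injective _ hj]
    -- an edge leaving a component ends in S'
    have hleave : ∀ c u v, u ∈ K c → v ∉ K c → (∃ e, (s e = u ∧ t e = v) ∨ (s e = v ∧ t e = u)) →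
        u ∉ S' ∧ v ∈ S' := by
      intro c u v hu hv he
      rw [hKmem] at hu
      obtain ⟨x, hx, rfl⟩ := hu
      have hxS : x.1 ∉ S := (hmemv x.1).1 x.2
      refine ⟨?_, ?_⟩
      · simp only [S', Finset.mem_filter, Finset.mem_univ, true_and]
        rintro (h | h | ⟨w, hw, h⟩)
        · exact x.1.2.1 h
        · exact x.1.2.2 h
        · exact hxS (by rw [← Subtype.ext (h : w.1 = x.1.1)]; exact hw)
      · by_contra hvS
        simp only [S', Finset.mem_filter, Finset.mem_univ, true_and, not_or, not_exists,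
          not_and] at hvS
        let w : W := ⟨v, hvS.1, hvS.2.1⟩
        have hwS : w ∉ S := fun h => hvS.2.2 w h rfl
        let y : ((⊤ : H.Subgraph).deleteVerts S).verts := ⟨w, (hmemv w).2 hwS⟩
        apply hv
        rw [hKmem]
        refine ⟨y, ?_, rfl⟩
        have hne : x.1 ≠ w := by
          intro h
          obtain ⟨e, he⟩ := he
          have : j x = v := congrArg Subtype.val h
          rcases he with ⟨h1, h2⟩ | ⟨h1, h2⟩
          · exact hloop e (by rw [h1, h2, this])
          · exact hloop e (by rw [h1, h2, this])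
        have hadj : H'.Adj x y := by
          rw [hH', SimpleGraph.Subgraph.coe_adj, SimpleGraph.Subgraph.deleteVerts_adj]
          exact ⟨by simp, hxS, by simp, hwS, hne, he⟩
        rw [SimpleGraph.ConnectedComponent.mem_supp_iff] at hx ⊢
        rw [← hx]
        exact (SimpleGraph.ConnectedComponent.sound hadj.reachable).symm
    have hcutS : ∀ c, cut s t (K c) ⊆ cut s t S' := by
      intro c e he
      rw [mem_cut] at he ⊢
      by_cases h1 : s e ∈ K c
      · have h2 : t e ∉ K c := fun h => he ⟨fun _ => h, fun _ => h1⟩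
        have := hleave c _ _ h1 h2 ⟨e, Or.inl ⟨rfl, rfl⟩⟩
        exact fun h => this.1 (h.2 this.2)
      · have h2 : t e ∈ K c := by
          by_contra h
          exact he ⟨fun h' => absurd h' h1, fun h' => absurd h' h⟩
        have := hleave c _ _ h2 h1 ⟨e, Or.inr ⟨rfl, rfl⟩⟩
        exact fun h => this.1 (h.1 this.2)
    have hKdisj : ∀ c c' v, v ∈ K c → v ∈ K c' → c = c' := by
      intro c c' v h1 h2
      rw [hKmem] at h1 h2
      obtain ⟨x, hx, hxv⟩ := h1
      obtain ⟨y, hy, hyv⟩ := h2
      have : x = y := hj (hxv.trans hyv.symm)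
      subst this
      rw [SimpleGraph.ConnectedComponent.mem_supp_iff] at hx hy
      rw [← hx, ← hy]
    have hdisj : ∀ c c', c ≠ c' → Disjoint (cut s t (K c)) (cut s t (K c')) := by
      intro c c' hcc
      rw [Finset.disjoint_left]
      intro e h1 h2
      have hend : ∀ c, e ∈ cut s t (K c) → (s e ∈ K c ∧ s e ∉ S' ∧ t e ∈ S') ∨
          (t e ∈ K c ∧ t e ∉ S' ∧ s e ∈ S') := by
        intro c he
        rw [mem_cut] at he
        by_cases h1 : s e ∈ K c
        · have h2 : t e ∉ K c := fun h => he ⟨fun _ => h, fun _ => h1⟩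
          have := hleave c _ _ h1 h2 ⟨e, Or.inl ⟨rfl, rfl⟩⟩
          exact Or.inl ⟨h1, this⟩
        · have h2 : t e ∈ K c := by
            by_contra h
            exact he ⟨fun h' => absurd h' h1, fun h' => absurd h' h⟩
          have := hleave c _ _ h2 h1 ⟨e, Or.inr ⟨rfl, rfl⟩⟩
          exact Or.inr ⟨h2, this⟩
      rcases hend c h1 with ⟨a1, a2, a3⟩ | ⟨a1, a2, a3⟩ <;>
        rcases hend c' h2 with ⟨b1, b2, b3⟩ | ⟨b1, b2, b3⟩
      · exact hcc (hKdisj c c' _ a1 b1)
      · exact a2 b3
      · exact a2 b3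
      · exact hcc (hKdisj c c' _ a1 b1)
    have h3 : ∀ c ∈ H'.oddComponents, 3 ≤ (cut s t (K c)).card := by
      intro c hc
      have hodd : Odd (K c).card := by rw [hKcard]; exact hc
      have h1 := odd_cut hcub _ hodd
      have h2 := hbr (K c)
      obtain ⟨k, hk⟩ := h1
      omega
    have : Fintype H'.ConnectedComponent := Fintype.ofFinite _
    let O : Finset H'.ConnectedComponent := univ.filter fun c => c ∈ H'.oddComponents
    have hO : H'.oddComponents.ncard = O.card := by
      rw [← Set.ncard_coe_finset]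
      congr 1
      ext c; simp [O]
    have hsum : 3 * O.card ≤ (cut s t S').card := by
      calc 3 * O.card = ∑ c ∈ O, 3 := by rw [Finset.sum_const, smul_eq_mul, mul_comm]
        _ ≤ ∑ c ∈ O, (cut s t (K c)).card :=
            Finset.sum_le_sum fun c hc => h3 c (Finset.mem_filter.1 hc).2
        _ = (O.biUnion fun c => cut s t (K c)).card := by
            rw [Finset.card_biUnion]
            intro c _ c' _ h
            exact hdisj c c' h
        _ ≤ (cut s t S').card := Finset.card_le_card (by
            intro e he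
            rw [Finset.mem_biUnion] at he
            obtain ⟨c, _, hc⟩ := he
            exact hcutS c hc)
    have hS'card : S'.card ≤ S.ncard + 2 := by
      have : (S' : Set V) ⊆ (Subtype.val '' S) ∪ {s e0, t e0} := by
        intro v hv
        simp only [S', Finset.coe_filter, Finset.mem_univ, true_and] at hv
        rcases hv with h | h | ⟨w, hw, h⟩
        · exact Or.inr (Or.inl h)
        · exact Or.inr (Or.inr h)
        · exact Or.inl ⟨w, hw, h⟩
      have h1 := Set.ncard_le_ncard this (Set.toFinite _)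
      rw [Set.ncard_coe_finset] at h1
      have h2 := Set.ncard_union_le (Subtype.val '' S) ({s e0, t e0} : Set V)
      rw [Set.ncard_image_of_injective _ Subtype.val_injective, Set.ncard_pair (hloop e0)] at h2
      omega
    have hle := cut_card_le hcub S' e0 (by simp [S']) (by simp [S'])
    have hpar := SimpleGraph.odd_ncard_oddComponents (G := H')
    have hvc : Nat.card ((⊤ : H.Subgraph).deleteVerts S).verts + S.ncard = Nat.card W := by
      have : ((⊤ : H.Subgraph).deleteVerts S).verts = Sᶜ := by
        ext w; simp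
      rw [this, Nat.card_coe_set_eq, add_comm]
      exact Set.ncard_add_ncard_compl S
    have hev := even_card hcub
    rw [hO] at hpar hS
    have hle' : O.card ≤ S.ncard + 1 := by omega
    have hOeq : O.card = S.ncard + 1 := by omega
    rw [hOeq] at hpar
    rw [← hW, ← hvc] at hev
    have : Nat.card ((⊤ : H.Subgraph).deleteVerts S).verts % 2 = S.ncard % 2 := by
      rw [Nat.even_iff] at hev
      omega
    rw [Nat.odd_iff, Nat.odd_iff] at hpar
    omega
  obtain ⟨N, hN⟩ := SimpleGraph.tutte.2 htutte
  -- choose an edge for every matched pair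
  have hchoose : ∀ p : Sym2 W, p ∈ N.edgeSet → ∃ e : E, s(s e, t e) = p.map Subtype.val := by
    intro p
    induction p with
    | h u v =>
      intro h
      obtain ⟨e, he⟩ := (N.adj_sub h).2
      refine ⟨e, ?_⟩
      rw [Sym2.map_mk]
      rcases he with ⟨h1, h2⟩ | ⟨h1, h2⟩
      · rw [h1, h2]
      · rw [h1, h2]; exact Sym2.eq_swap
  have hne : Nonempty E := ⟨e0⟩
  choose! ε hε using hchoose
  refine ⟨univ.filter fun e => e = e0 ∨ ∃ p ∈ N.edgeSet, ε p = e, by simp, ?_⟩
  intro v
  have hmem : ∀ e : E, (s e = v ∨ t e = v) ↔ v ∈ s(s e, t e) := by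
    intro e
    simp only [Sym2.mem_iff, eq_comm]
  simp only [Finset.mem_filter, Finset.mem_univ, true_and, hmem]
  by_cases hv : v = s e0 ∨ v = t e0
  · refine ⟨e0, ⟨Or.inl rfl, by simpa [Sym2.mem_iff] using hv⟩, ?_⟩
    rintro e ⟨h | ⟨p, hp, rfl⟩, h2⟩
    · exact h
    · exfalso
      rw [hε p hp, Sym2.mem_map] at h2
      obtain ⟨w, _, rfl⟩ := h2
      rcases hv with h | h
      · exact w.2.1 h
      · exact w.2.2 h
  · push Not at hv
    let w : W := ⟨v, hv⟩
    obtain ⟨w', hw', hu⟩ := hN.1 (hN.2 w)
    refine ⟨ε s(w, w'), ⟨Or.inr ⟨_, hw', rfl⟩, ?_⟩, ?_⟩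
    · rw [hε _ hw', Sym2.map_mk]
      exact Sym2.mem_mk_left _ _
    · rintro e ⟨h | ⟨p, hp, rfl⟩, h2⟩
      · subst h
        rw [Sym2.mem_iff] at h2
        rcases h2 with h | h
        · exact absurd h hv.1
        · exact absurd h hv.2
      · rw [hε p hp, Sym2.mem_map] at h2
        obtain ⟨w2, hw2, h3⟩ := h2
        have : w2 = w := Subtype.ext h3
        subst this
        congr 1
        obtain ⟨w3, rfl⟩ := hw2
        rw [hu w3 hp]

end Pool.Agent.Helper243.MG
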