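import Mathlib

set_option autoImplicit false

namespace Pool.Agent.Helper243.RD

/-! ### Matchings of a small cube given by direction tables -/

/-- direction of colour `c` at the vertex `v` -/
def dirN (D : List ℕ) (c v : ℕ) : ℕ := (D.getD c 0 >>> (3 * v)) % 8

def fN (D : List ℕ) (c v : ℕ) : ℕ := v ^^^ 2 ^ dirN D c v

/-- the tables describe `d` disjoint perfect matchings -/
def chk0 (d : ℕ) (D : List ℕ) : Bool :=
  decide (∀ v < 2 ^ d, ∀ c < d, dirN D c v < d ∧ dirN D c (fN D c v) = dirN D c v ∧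
    ∀ c' < c, dirN D c' v ≠ dirN D c v)

theorem fN_lt {d : ℕ} {D : List ℕ} (h : chk0 d D = true) {c v : ℕ} (hc : c < d)
    (hv : v < 2 ^ d) : fN D c v < 2 ^ d := by
  have := of_decide_eq_true h v hv c hc
  refine Nat.xor_lt_two_pow hv ?_
  exact Nat.pow_lt_pow_right (by norm_num) this.1

/-- the vertices of the cube as numbers -/
noncomputable def toBits (d : ℕ) : Fin (2 ^ d) ≃ (Fin d → Bool) :=
  Equiv.ofBijective (fun x i => x.val.testBit i.val) (by
    rw [Fintype.bijective_iff_injective_and_card]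
    constructor
    · intro x y h
      apply Fin.ext
      apply Nat.eq_of_testBit_eq
      intro i
      by_cases hi : i < d
      · exact congrFun h ⟨i, hi⟩
      · have h1 : x.val < 2 ^ i := lt_of_lt_of_le x.isLt
          (Nat.pow_le_pow_right (by norm_num) (by omega))
        have h2 : y.val < 2 ^ i := lt_of_lt_of_le y.isLt
          (Nat.pow_le_pow_right (by norm_num) (by omega))
        rw [Nat.testBit_lt_two_pow h1, Nat.testBit_lt_two_pow h2]
    · simp)

theorem toBits_apply {d : ℕ} (x : Fin (2 ^ d)) (i : Fin d) : toBits d x i = x.val.testBit i.val :=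
  rfl

/-- the matchings as maps of the vertex set -/
def fF (d : ℕ) (D : List ℕ) (c : ℕ) (x : Fin (2 ^ d)) : Fin (2 ^ d) :=
  if h : fN D c x.val < 2 ^ d then ⟨fN D c x.val, h⟩ else x

theorem fF_val {d : ℕ} {D : List ℕ} (h : chk0 d D = true) {c : ℕ} (hc : c < d)
    (x : Fin (2 ^ d)) : (fF d D c x).val = fN D c x.val := by
  unfold fF
  rw [dif_pos (fN_lt h hc x.isLt)]

theorem fF_inv {d : ℕ} {D : List ℕ} (h : chk0 d D = true) (c : ℕ) (hc : c < d)
    (x : Fin (2 ^ d)) : fF d D c (fF d D c x) = x := by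
  apply Fin.ext
  rw [fF_val h hc, fF_val h hc]
  have := (of_decide_eq_true h x.val x.isLt c hc).2.1
  show fN D c x.val ^^^ 2 ^ dirN D c (fN D c x.val) = x.val
  rw [this]
  show (x.val ^^^ 2 ^ dirN D c x.val) ^^^ 2 ^ dirN D c x.val = x.val
  rw [Nat.xor_assoc, Nat.xor_self, Nat.xor_zero]

theorem dirN_inj {d : ℕ} {D : List ℕ} (h : chk0 d D = true) {v c c' : ℕ} (hv : v < 2 ^ d)
    (hc : c < d) (hc' : c' < d) (he : dirN D c v = dirN D c' v) : c = c' := by
  rcases Nat.lt_trichotomy c c' with h1 | h1 | h1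
  · exact absurd he ((of_decide_eq_true h v hv c' hc').2.2 c h1)
  · exact h1
  · exact absurd he.symm ((of_decide_eq_true h v hv c hc).2.2 c' h1)

theorem fF_inj {d : ℕ} {D : List ℕ} (h : chk0 d D = true) (x : Fin (2 ^ d)) (c : ℕ) (hc : c < d)
    (c' : ℕ) (hc' : c' < d) (he : fF d D c x = fF d D c' x) : c = c' := by
  have h1 := congrArg Fin.val he
  rw [fF_val h hc, fF_val h hc'] at h1
  apply dirN_inj h x.isLt hc hc'
  have h2 : 2 ^ dirN D c x.val = 2 ^ dirN D c' x.val := by
    have := congrArg (fun t => x.val ^^^ t) h1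
    simpa only [fN, ← Nat.xor_assoc, Nat.xor_self, Nat.zero_xor] using this
  exact Nat.pow_right_injective (le_refl 2) h2

theorem fF_cube {d : ℕ} {D : List ℕ} (h : chk0 d D = true) (c : ℕ) (hc : c < d)
    (x : Fin (2 ^ d)) : ∃! i, toBits d (fF d D c x) i ≠ toBits d x i := by
  have hd := (of_decide_eq_true h x.val x.isLt c hc).1
  have key : ∀ i : Fin d, toBits d (fF d D c x) i ≠ toBits d x i ↔ i.val = dirN D c x.val := by
    intro i
    rw [toBits_apply, toBits_apply, fF_val h hc]
    unfold fN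
    rw [Nat.testBit_xor, Nat.testBit_two_pow, eq_comm (a := i.val)]
    cases x.val.testBit i.val <;> simp
  refine ⟨⟨dirN D c x.val, hd⟩, (key _).2 rfl, ?_⟩
  intro j hj
  exact Fin.ext ((key j).1 hj)

/-! ### Closure of a vertex under a set of edges, with vertex sets as bit masks -/

/-- one round of propagation; `(E, sh)` encodes the edges `v, v + sh` with `v` in `E` -/
def stepM (L : List (ℕ × ℕ)) (S : ℕ) : ℕ :=
  L.foldl (fun T p => T ||| ((T &&& p.1) <<< p.2) ||| ((T >>> p.2) &&& p.1)) S

def closes (L : List (ℕ × ℕ)) (A : ℕ) : ℕ → ℕ → Bool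
  | 0, S => S &&& A == A
  | n + 1, S => if S &&& A == A then true else closes L A n (stepM L S)

theorem stepM_sound (Q : ℕ → Prop) : ∀ (L : List (ℕ × ℕ)),
    (∀ p ∈ L, ∀ v, p.1.testBit v = true → (Q v ↔ Q (v + p.2))) → ∀ S : ℕ,
    (∀ v, S.testBit v = true → Q v) → ∀ v, (stepM L S).testBit v = true → Q v := by
  intro L
  induction L with
  | nil => intro _ S hS v hv; exact hS v hv
  | cons p L ih =>
    intro hL S hS v hv
    refine ih (fun q hq => hL q (List.mem_cons_of_mem _ hq))
      (S ||| ((S &&& p.1) <<< p.2) ||| ((S >>> p.2) &&& p.1)) ?_ v hv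
    intro w hw
    have hp := hL p List.mem_cons_self
    rw [Nat.testBit_or, Nat.testBit_or, Nat.testBit_shiftLeft, Nat.testBit_and, Nat.testBit_and,
      Nat.testBit_shiftRight] at hw
    simp only [Bool.or_eq_true, Bool.and_eq_true, decide_eq_true_eq] at hw
    rcases hw with (hw | ⟨h1, h2, h3⟩) | ⟨h1, h2⟩
    · exact hS w hw
    · have := (hp _ h3).1 (hS _ h2)
      rwa [Nat.sub_add_cancel h1] at this
    · rw [Nat.add_comm] at h1
      exact (hp _ h2).2 (hS _ h1)

theorem closes_sound (Q : ℕ → Prop) (L : List (ℕ × ℕ))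
    (hL : ∀ p ∈ L, ∀ v, p.1.testBit v = true → (Q v ↔ Q (v + p.2))) (A : ℕ) : ∀ (n S : ℕ),
    closes L A n S = true → (∀ v, S.testBit v = true → Q v) → ∀ v, A.testBit v = true → Q v := by
  have base : ∀ S, (S &&& A == A) = true → (∀ v, S.testBit v = true → Q v) →
      ∀ v, A.testBit v = true → Q v := by
    intro S h hS v hv
    rw [beq_iff_eq] at h
    rw [← h, Nat.testBit_and, Bool.and_eq_true] at hv
    exact hS v hv.1
  intro n
  induction n with
  | zero => intro S h hS; exact base S h hS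
  | succ n ih =>
    intro S h hS
    unfold closes at h
    split_ifs at h with h1
    · exact base S h1 hS
    · exact ih _ h (stepM_sound Q L hL S hS)

theorem closure_sound (P : ℕ → Prop) (L : List (ℕ × ℕ))
    (hL : ∀ p ∈ L, ∀ v, p.1.testBit v = true → (P v ↔ P (v + p.2))) (A n v0 : ℕ)
    (h : closes L A n (2 ^ v0) = true) {v w : ℕ} (hv : A.testBit v = true)
    (hw : A.testBit w = true) : P v ↔ P w := by
  have key : ∀ v, A.testBit v = true → (P v ↔ P v0) := by
    refine closes_sound (fun v => P v ↔ P v0) L ?_ A n (2 ^ v0) h ?_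
    · intro p hp v hv
      have := hL p hp v hv
      constructor
      · intro h; exact this.symm.trans h
      · intro h; exact this.trans h
    · intro v hv
      rw [Nat.testBit_two_pow] at hv
      rw [of_decide_eq_true hv]
  exact (key v hv).trans (key w hw).symm

/-- the edges of the colours in the mask `ρ` -/
def rows : List (List (ℕ × ℕ)) → ℕ → List (ℕ × ℕ)
  | [], _ => []
  | r :: M, ρ => if ρ.testBit 0 = true then r ++ rows M (ρ / 2) else rows M (ρ / 2)

theorem mem_rows : ∀ (M : List (List (ℕ × ℕ))) (ρ : ℕ) (p : ℕ × ℕ), p ∈ rows M ρ →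
    ∃ i, i < M.length ∧ ρ.testBit i = true ∧ p ∈ M.getD i [] := by
  intro M
  induction M with
  | nil => intro ρ p h; simp [rows] at h
  | cons r M ih =>
    intro ρ p h
    unfold rows at h
    have key : p ∈ rows M (ρ / 2) → ∃ i, i < (r :: M).length ∧ ρ.testBit i = true ∧
        p ∈ (r :: M).getD i [] := by
      intro h
      obtain ⟨i, h1, h2, h3⟩ := ih _ _ h
      refine ⟨i + 1, by simpa using h1, ?_, by simpa using h3⟩
      rw [Nat.testBit_succ]; exact h2
    split_ifs at h with h0
    · rw [List.mem_append] at h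
      rcases h with h | h
      · exact ⟨0, by simp, h0, by simpa using h⟩
      · exact key h
    · exact key h

/-- the edge masks are correct: every encoded edge of colour `i` is an edge of the matching `i`
for which `ok` holds -/
def chkM (d : ℕ) (D : List ℕ) (ok : ℕ → ℕ → Bool) (M : List (List (ℕ × ℕ))) : Bool :=
  decide (∀ i < M.length, ∀ p ∈ M.getD i [], p.1 < 2 ^ 2 ^ d ∧ ∀ v < 2 ^ d,
    p.1.testBit v = true → fN D i v = v + p.2 ∧ ok i v = true)

theorem chkM_spec {d : ℕ} {D : List ℕ} {ok : ℕ → ℕ → Bool} {M : List (List (ℕ × ℕ))}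
    (h : chkM d D ok M = true) {i : ℕ} (hi : i < M.length) {p : ℕ × ℕ} (hp : p ∈ M.getD i [])
    {v : ℕ} (hv : p.1.testBit v = true) : v < 2 ^ d ∧ fN D i v = v + p.2 ∧ ok i v = true := by
  obtain ⟨h1, h2⟩ := of_decide_eq_true h i hi p hp
  have h3 : v < 2 ^ d := by
    by_contra hcon
    have : p.1 < 2 ^ v := lt_of_lt_of_le h1 (Nat.pow_le_pow_right (by norm_num) (by omega))
    rw [Nat.testBit_lt_two_pow this] at hv
    exact Bool.noConfusion hv
  exact ⟨h3, h2 v h3 hv⟩

end Pool.Agent.Helper243.RD
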