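import Mathlib

set_option autoImplicit false

namespace Pool.Agent.Helper243.RD

/-- Roles of the vertices of the cube in the inductive construction. `free` is an ordinary vertex;
the other kinds are the reserved vertices. -/
inductive Kind
  | free
  | cl (c : ℕ) (s i j : Bool)
  | C (i j : Bool)
  | E (i : Bool)
  | Es (i : Bool)
  | B (k i : Bool)
  | y (k : Bool)
  | A (k : Bool)
  deriving DecidableEq

/-- The rotation of `0, ..., m - 2` fixing `m - 1`. -/
def rot (m c : ℕ) : ℕ := if c + 1 = m then c else if c + 2 = m then 0 else c + 1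

/-- The inverse of `rot m`. -/
def rotInv (m c : ℕ) : ℕ := if c + 1 = m then c else if c = 0 then m - 2 else c - 1

/-- The rotation one level below. -/
def rp (m c : ℕ) : ℕ := if c + 2 = m then c else if c + 3 = m then 0 else c + 1

/-- The kind of the neighbour in colour `r` of a reserved vertex of kind `κ`, at level `m`. -/
def tab (m : ℕ) (κ : Kind) (r : ℕ) : Kind :=
  match κ with
  | .free => .free
  | .cl c s i j =>
    if r + 1 = m then .cl c (!s) i j
    else if s = true then
      (if r = rp m c then .cl c s (!i) j
        else if r = rp m (c + 1) then .cl c s i (!j) else .free)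
    else
      (if r = c then .cl c s (!i) j else if r = c + 1 then .cl c s i (!j) else .free)
  | .C i j => if r + 2 = m then .C (!i) j else if r + 1 = m then .C i (!j) else .free
  | .E i => if r + 1 = m then .E (!i) else .free
  | .Es i => if r + 1 = m then .Es (!i) else .free
  | .B k i => if r + 1 = m then .B k (!i) else .free
  | .y _ => .free
  | .A _ => .free

/-- Reserved vertices of the small kinds. -/
def vt : Kind → Bool
  | .E _ => true
  | .Es _ => true
  | .B _ _ => true
  | .y _ => true
  | .A _ => true
  | _ => false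

/-- Colours of the 4-cycles inside the big zones. -/
def ex4 (m : ℕ) (κ : Kind) (r : ℕ) : Prop :=
  match κ with
  | .cl c s _ _ => if s = true then r = rp m c ∨ r = rp m (c + 1) else r = c ∨ r = c + 1
  | .C _ _ => r + 2 = m ∨ r + 1 = m
  | _ => False

/-- The kind of the vertex `(x, s)` at the next level, in terms of the kind of `x`. -/
def nk (m : ℕ) (κ : Kind) (s : Bool) : Kind :=
  match κ with
  | .free => .free
  | .cl c t i j => if t = true then .free else .cl c s i j
  | .C i j => .cl (m - 2) s i j
  | .E i => .C i s
  | .Es _ => .free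
  | .B k i => if s = true then (if i = true then .y k else .free)
      else (if i = true then .free else .A k)
  | .y k => if k = true then .Es s else .E s
  | .A k => .B k s

/-- Gadgets. At `L1 β` the colour `β` gets the vertical edges. -/
inductive Gad
  | none
  | L1 (β : ℕ)
  | L2 (β : ℕ)
  deriving DecidableEq

/-- The gadget at a vertex of a given kind. -/
def gad (m : ℕ) : Kind → Gad
  | .cl c s i j => if s = true then
      (if c + 5 ≤ m then (if i = true then .L2 (c + 2) else .L1 (c + 2))
        else if c + 3 = m then (if j = true then .L2 0 else .L1 0) else .none)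
      else .none
  | .Es _ => .L1 (m - 1)
  | _ => .none

/-- The old colour used by the new colour `c` at a vertex of copy `s` with gadget `g`;
the value `m` means the vertical edge. -/
def mu (m : ℕ) (g : Gad) (s : Bool) (c : ℕ) : ℕ :=
  match g with
  | .none => if c = m then m else if s = true then rotInv m c else c
  | .L1 β => if c = m then β else if c = β then m else if s = true then
      (if c = rot m β then rotInv m β else rotInv m c) else c
  | .L2 β => if c = m then m else if s = true then
      (if c = β then β else if c = rot m β then rotInv m β else rotInv m c) else c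

def Valid (m : ℕ) : Kind → Prop
  | .cl c _ _ _ => c + 3 ≤ m
  | _ => True

/-- The new colouring of the next cube. -/
def nf (m : ℕ) {W : Type} (f : ℕ → W → W) (kd : W → Kind) (c : ℕ) (v : W × Bool) : W × Bool :=
  if mu m (gad m (kd v.1)) v.2 c = m then (v.1, !v.2)
  else (f (mu m (gad m (kd v.1)) v.2 c) v.1, v.2)

def nkd (m : ℕ) {W : Type} (kd : W → Kind) (v : W × Bool) : Kind := nk m (kd v.1) v.2

def InvG (m : ℕ) {W : Type} (f : ℕ → W → W) (kd : W → Kind) (P : W → Prop) (r : ℕ) : Prop :=
  ∀ x, vt (kd x) = false → vt (kd (f r x)) = false → ¬ ex4 m (kd x) r → (P x ↔ P (f r x))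

def InvK {W : Type} (f : ℕ → W → W) (kd : W → Kind) (P : W → Prop) (r : ℕ) : Prop :=
  ∀ x, kd x = .free → kd (f r x) = .free → (P x ↔ P (f r x))

structure Good (m : ℕ) {W : Type} (e : W ≃ (Fin m → Bool)) (f : ℕ → W → W) (kd : W → Kind) :
    Prop where
  inv : ∀ c < m, ∀ x, f c (f c x) = x
  inj : ∀ x, ∀ c < m, ∀ c' < m, f c x = f c' x → c = c'
  cube : ∀ c < m, ∀ x, ∃! i, e (f c x) i ≠ e x i
  valid : ∀ x, Valid m (kd x)
  tab : ∀ c < m, ∀ x, kd x ≠ .free → kd (f c x) = tab m (kd x) c
  ex : ∀ κ, κ ≠ .free → Valid m κ → ∃ x, kd x = κ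
  G : ∀ a b c, a < m → b < m → c < m → a ≠ b → a ≠ c → b ≠ c → ∀ P : W → Prop,
    InvG m f kd P a → InvG m f kd P b → InvG m f kd P c →
    ∀ x y, vt (kd x) = false → vt (kd y) = false → (P x ↔ P y)
  K : ∀ a b c d, a < m → b < m → c < m → d < m → a ≠ b → a ≠ c → a ≠ d → b ≠ c → b ≠ d →
    c ≠ d → ∀ P : W → Prop, InvK f kd P a → InvK f kd P b → InvK f kd P c → InvK f kd P d →
    ∀ x y, kd x = .free → kd y = .free → (P x ↔ P y)

end Pool.Agent.Helper243.RD
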