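import Pool.Agent.Helper243.RStep

set_option autoImplicit false

namespace Pool.Agent.Helper243.RD

variable {m : ℕ} {W : Type} {e : W ≃ (Fin m → Bool)} {f : ℕ → W → W} {kd : W → Kind}

/-- Coordinates of the next cube. -/
def ext (e : W ≃ (Fin m → Bool)) : W × Bool ≃ (Fin (m + 1) → Bool) where
  toFun v := Fin.snoc (α := fun _ => Bool) (e v.1) v.2
  invFun g := (e.symm (Fin.init (α := fun _ => Bool) g), g (Fin.last m))
  left_inv := by rintro ⟨x, s⟩; simp
  right_inv := by intro g; simp

theorem ext_castSucc (x : W) (s : Bool) (i : Fin m) : ext e (x, s) i.castSucc = e x i := by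
  simp [ext]

theorem ext_last (x : W) (s : Bool) : ext e (x, s) (Fin.last m) = s := by
  simp [ext]

theorem mu_cases (hm : 5 ≤ m) (x : W) (s : Bool) {c : ℕ} (hc : c < m + 1) :
    mu m (gad m (kd x)) s c = m ∨ mu m (gad m (kd x)) s c < m := by
  have := mu_le hm (gv hm (κ := kd x)) s (c := c) (by omega)
  omega

theorem step_inv (hm : 5 ≤ m) (hG : Good m e f kd) (c : ℕ) (hc : c < m + 1) (v : W × Bool) :
    nf m f kd c (nf m f kd c v) = v := by
  obtain ⟨x, s⟩ := v
  rcases mu_cases (kd := kd) hm x s hc with h | h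
  · rw [nf_vert h, nf_vert (mu_vert hm (gv hm) s (by omega) h)]; simp
  · rw [nf_eq rfl h]
    have h2 : mu m (gad m (kd (f (mu m (gad m (kd x)) s c) x))) s c =
        mu m (gad m (kd x)) s c := by
      by_cases h0 : kd x = .free
      · by_cases h1 : kd (f (mu m (gad m (kd x)) s c) x) = .free
        · rw [h1, h0]
        · refine mu_free hm (hG.valid _) h1 s (by omega) ?_ h ?_
          · rw [h0]; rfl
          · rw [← hG.tab _ h _ h1, hG.inv _ h, h0]
      · rw [hG.tab _ h x h0]
        exact mu_tab hm (hG.valid x) s (by omega) rfl h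
    rw [nf_eq h2 h, hG.inv _ h]

theorem step_inj (hm : 5 ≤ m) (hG : Good m e f kd) (v : W × Bool) (c : ℕ) (hc : c < m + 1)
    (c' : ℕ) (hc' : c' < m + 1) (h : nf m f kd c v = nf m f kd c' v) : c = c' := by
  obtain ⟨x, s⟩ := v
  apply mu_inj hm (gv hm (κ := kd x)) s (by omega) (by omega)
  rcases mu_cases (kd := kd) hm x s hc with h1 | h1 <;>
    rcases mu_cases (kd := kd) hm x s hc' with h2 | h2
  · rw [h1, h2]
  · rw [nf_vert h1, nf_eq rfl h2] at h
    have := congrArg Prod.snd h
    cases s <;> simp at this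
  · rw [nf_vert h2, nf_eq rfl h1] at h
    have := congrArg Prod.snd h
    cases s <;> simp at this
  · rw [nf_eq rfl h1, nf_eq rfl h2] at h
    exact hG.inj x _ h1 _ h2 (congrArg Prod.fst h)

theorem step_cube (hm : 5 ≤ m) (hG : Good m e f kd) (c : ℕ) (hc : c < m + 1) (v : W × Bool) :
    ∃! i, ext e (nf m f kd c v) i ≠ ext e v i := by
  obtain ⟨x, s⟩ := v
  rcases mu_cases (kd := kd) hm x s hc with h1 | h1
  · rw [nf_vert h1]
    refine ⟨Fin.last m, ?_, ?_⟩
    · simp only [ext_last]; cases s <;> simp
    · intro i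
      refine Fin.lastCases ?_ (fun j => ?_) i
      · intro _; rfl
      · intro h; exact absurd (by rw [ext_castSucc, ext_castSucc]) h
  · rw [nf_eq rfl h1]
    obtain ⟨j, hj, hj'⟩ := hG.cube _ h1 x
    refine ⟨j.castSucc, ?_, ?_⟩
    · simp only [ext_castSucc]; exact hj
    · intro i
      refine Fin.lastCases ?_ (fun k => ?_) i
      · intro h; exact absurd (by rw [ext_last, ext_last]) h
      · intro h
        simp only [ext_castSucc] at h
        rw [hj' k h]

theorem Good.step (hm : 5 ≤ m) (hG : Good m e f kd) :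
    Good (m + 1) (ext e) (nf m f kd) (nkd m kd) where
  inv := step_inv hm hG
  inj := step_inj hm hG
  cube := step_cube hm hG
  valid := by
    rintro ⟨x, s⟩
    have h := hG.valid x
    rw [nkd_eq]
    revert h
    generalize kd x = κ
    intro h
    rcases κ with _ | ⟨c0, t, i, j⟩ | ⟨i, j⟩ | i | i | ⟨k, i⟩ | k | k
    · trivial
    · cases t
      · simp only [nk, Valid, Bool.false_eq_true, if_false] at *; omega
      · simp [nk, Valid]
    · simp only [nk, Valid]; omega
    · trivial
    · trivial
    · cases s <;> cases i <;> simp [nk, Valid]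
    · cases k <;> simp [nk, Valid]
    · trivial
  tab := by
    rintro c hc ⟨x, s⟩ hk
    rw [nkd_eq] at hk
    obtain ⟨h1, h2⟩ := tab_step hm (hG.valid x) s (c := c) (by omega) hk
    rw [nkd_eq]
    rcases mu_cases (kd := kd) hm x s hc with h | h
    · rw [nf_vert h, nkd_eq]; exact h1 h
    · rw [nf_eq rfl h, nkd_eq, hG.tab _ h x ?_]
      · exact h2 (by omega)
      · intro h0; rw [h0] at hk; exact hk rfl
  ex := by
    have key : ∀ κ0 s, κ0 ≠ .free → Valid m κ0 → ∃ v : W × Bool, nkd m kd v = nk m κ0 s := by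
      intro κ0 s h1 h2
      obtain ⟨x, hx⟩ := hG.ex κ0 h1 h2
      exact ⟨(x, s), by rw [nkd_eq, hx]⟩
    intro κ hκ hv
    rcases κ with _ | ⟨c0, t, i, j⟩ | ⟨i, j⟩ | i | i | ⟨k, i⟩ | k | k
    · exact absurd rfl hκ
    · simp only [Valid] at hv
      by_cases h : c0 + 3 ≤ m
      · simpa [nk] using key (.cl c0 false i j) t (by simp) h
      · have h2 : m - 2 = c0 := by omega
        simpa [nk, h2] using key (.C i j) t (by simp) trivial
    · simpa [nk] using key (.E i) j (by simp) trivial
    · simpa [nk] using key (.y false) i (by simp) trivial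
    · simpa [nk] using key (.y true) i (by simp) trivial
    · simpa [nk] using key (.A k) i (by simp) trivial
    · simpa [nk] using key (.B k true) true (by simp) trivial
    · simpa [nk] using key (.B k false) false (by simp) trivial
  G := step_G hm hG
  K := step_K hm hG

/-- all triples of matchings have connected union -/
def Tri (m : ℕ) {W : Type} (f : ℕ → W → W) : Prop :=
  ∀ a b c, a < m → b < m → c < m → a ≠ b → a ≠ c → b ≠ c → ∀ P : W → Prop,
    (∀ x, P x ↔ P (f a x)) → (∀ x, P x ↔ P (f b x)) → (∀ x, P x ↔ P (f c x)) →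
    ∀ x y, P x ↔ P y

theorem ex4_small {κ : Kind} (h : vt κ = true) {r : ℕ} : ¬ ex4 m κ r := by
  rcases κ with _ | ⟨c0, t, i, j⟩ | ⟨i, j⟩ | i | i | ⟨k, i⟩ | k | k <;> simp_all [ex4, vt]

theorem tri_of_good (hm : 5 ≤ m) (hG : Good m e f kd) : Tri m f := by
  intro a b c ha hb hc hab hac hbc P h1 h2 h3
  have hs := hG.G a b c ha hb hc hab hac hbc P (fun x _ _ _ => h1 x) (fun x _ _ _ => h2 x)
    (fun x _ _ _ => h3 x)
  obtain ⟨x0, hx0⟩ := exists_free hm hG
  have fin : ∀ x, P x ↔ P x0 := by
    intro x
    by_cases hk : vt (kd x) = false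
    · exact hs x x0 hk (by rw [hx0]; rfl)
    · have hne : kd x ≠ .free := by intro h; rw [h] at hk; exact hk rfl
      have hk' : vt (kd x) = true := by simpa using hk
      have key : ∀ r, r + 1 < m → (∀ x, P x ↔ P (f r x)) → (P x ↔ P x0) := by
        intro r hr hP
        have h4 : tab m (kd x) r = .free := by
          exact tab_eq_free (by omega) (ex4_small hk')
        have h5 : kd (f r x) = .free := by rw [hG.tab r (by omega) x hne, h4]
        exact (hP x).trans (hs _ x0 (by rw [h5]; rfl) (by rw [hx0]; rfl))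
      have : a + 1 < m ∨ b + 1 < m := by omega
      rcases this with h | h
      · exact key a h h1
      · exact key b h h2
  intro x y
  exact (fin x).trans (fin y).symm

end Pool.Agent.Helper243.RD
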