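import Pool.Agent.Helper243.RSmall

set_option autoImplicit false

namespace Pool.Agent.Helper243.RD

/-- The cube graph `Q_d`: vertices are 0-1 strings of length `d`, adjacent when they differ in
exactly one coordinate. -/
def Q (d : ℕ) : SimpleGraph (Fin d → Bool) where
  Adj x y := ∃! i, x i ≠ y i
  symm := ⟨by
    rintro x y ⟨i, hi, hi'⟩
    exact ⟨i, Ne.symm hi, fun j hj => hi' j (Ne.symm hj)⟩⟩
  loopless := ⟨by
    rintro x ⟨i, hi, -⟩
    exact hi rfl⟩

/-- `F` is a 1-factor (perfect matching) of `Q_d`, seen as a spanning subgraph. -/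
def IsOneFactor (d : ℕ) (F : SimpleGraph (Fin d → Bool)) : Prop :=
  F ≤ Q d ∧ ∀ v, ∃! w, F.Adj v w

/-- `M` is a 1-factorization of `Q_d`: a set of 1-factors such that every edge of `Q_d` lies in
exactly one of them. -/
def IsOneFactorization (d : ℕ) (M : Set (SimpleGraph (Fin d → Bool))) : Prop :=
  (∀ F ∈ M, IsOneFactor d F) ∧ ∀ x y, (Q d).Adj x y → ∃! F, F ∈ M ∧ F.Adj x y

/-- The set of positive integers `r` such that some 1-factorization of `Q_d` has the property
that the union of every `r` distinct members is connected. -/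
def RSet (d : ℕ) : Set ℕ :=
  {r | 0 < r ∧ ∃ M : Set (SimpleGraph (Fin d → Bool)), IsOneFactorization d M ∧
    ∀ S : Set (SimpleGraph (Fin d → Bool)), S ⊆ M → S.ncard = r → (sSup S).Connected}

/-! ### Upper bound -/

section upper

variable {d : ℕ} {W : Type} {e : W ≃ (Fin d → Bool)} {f : ℕ → W → W}

/-- the matching of colour `c` as a graph -/
def mat (hF : Fac d e f) (c : ℕ) (hc : c < d) : SimpleGraph (Fin d → Bool) where
  Adj x y := e (f c (e.symm x)) = y
  symm := ⟨by
    intro x y h
    rw [← h, e.symm_apply_apply, hF.inv c hc, e.apply_symm_apply]⟩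
  loopless := ⟨by
    intro x h
    obtain ⟨i, hi, -⟩ := hF.cube c hc (e.symm x)
    apply hi
    rw [h, e.apply_symm_apply]⟩

theorem mat_adj (hF : Fac d e f) {c : ℕ} (hc : c < d) (x y : Fin d → Bool) :
    (mat hF c hc).Adj x y ↔ e (f c (e.symm x)) = y := Iff.rfl

theorem mat_inj (hF : Fac d e f) {c c' : ℕ} (hc : c < d) (hc' : c' < d) {x y : Fin d → Bool}
    (h : (mat hF c hc).Adj x y) (h' : (mat hF c' hc').Adj x y) : c = c' := by
  rw [mat_adj] at h h'
  exact hF.inj _ c hc c' hc' (e.injective (h.trans h'.symm))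

theorem exists_mat (hF : Fac d e f) {x y : Fin d → Bool} (h : (Q d).Adj x y) :
    ∃ c, ∃ hc : c < d, (mat hF c hc).Adj x y := by
  -- the direction used by each colour at `x`
  choose g hg hg' using fun c : Fin d => hF.cube c.val c.isLt (e.symm x)
  simp only [e.apply_symm_apply] at hg hg'
  have hval : ∀ (z : Fin d → Bool) (i : Fin d), (z i ≠ x i) → (∀ j, z j ≠ x j → j = i) →
      z = Function.update x i (!x i) := by
    intro z i h1 h2
    funext j
    by_cases hj : j = i
    · subst hj
      rw [Function.update_self]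
      revert h1
      cases z j <;> cases x j <;> simp
    · rw [Function.update_of_ne hj]
      by_contra h3
      exact hj (h2 j h3)
  have hinj : Function.Injective g := by
    intro c c' hcc
    apply Fin.ext
    have h1 := hval _ _ (hg c) (hg' c)
    have h2 := hval _ _ (hg c') (hg' c')
    rw [hcc] at h1
    exact hF.inj _ c c.isLt c' c'.isLt (e.injective (h1.trans h2.symm))
  have hsurj : Function.Surjective g := Finite.surjective_of_injective hinj
  obtain ⟨i, hi, hi'⟩ := h
  obtain ⟨c, hc⟩ := hsurj i
  refine ⟨c.val, c.isLt, ?_⟩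
  rw [mat_adj]
  have h1 := hval _ _ (hg c) (hg' c)
  have h2 := hval y i (Ne.symm hi) (fun j hj => hi' j (Ne.symm hj))
  rw [h1, h2, hc]

theorem three_mem (hF : Fac d e f) : 3 ∈ RSet d := by
  refine ⟨by norm_num, {F | ∃ c, ∃ hc : c < d, F = mat hF c hc}, ⟨?_, ?_⟩, ?_⟩
  · rintro F ⟨c, hc, rfl⟩
    refine ⟨?_, fun v =>
      ⟨e (f c (e.symm v)), rfl, fun w hw => ((mat_adj hF hc v w).1 hw).symm⟩⟩
    intro x y h
    rw [mat_adj] at h
    obtain ⟨i, hi, hi'⟩ := hF.cube c hc (e.symm x)
    rw [h, e.apply_symm_apply] at hi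
    refine ⟨i, Ne.symm hi, ?_⟩
    intro j hj
    apply hi'
    rw [h, e.apply_symm_apply]
    exact Ne.symm hj
  · intro x y h
    obtain ⟨c, hc, hadj⟩ := exists_mat hF h
    refine ⟨mat hF c hc, ⟨⟨c, hc, rfl⟩, hadj⟩, ?_⟩
    rintro F ⟨⟨c', hc', rfl⟩, hadj'⟩
    have := mat_inj hF hc hc' hadj hadj'
    subst this
    rfl
  · intro S hS hcard
    obtain ⟨F1, F2, F3, h12, h13, h23, rfl⟩ := Set.ncard_eq_three.1 hcard
    obtain ⟨a, ha, rfl⟩ := hS (Set.mem_insert _ _)
    obtain ⟨b, hb, rfl⟩ := hS (Set.mem_insert_of_mem _ (Set.mem_insert _ _))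
    obtain ⟨c, hc, rfl⟩ := hS (Set.mem_insert_of_mem _ (Set.mem_insert_of_mem _ rfl))
    have hab : a ≠ b := by rintro rfl; exact h12 rfl
    have hac : a ≠ c := by rintro rfl; exact h13 rfl
    have hbc : b ≠ c := by rintro rfl; exact h23 rfl
    set U := sSup {mat hF a ha, mat hF b hb, mat hF c hc} with hU
    have step : ∀ r (hr : r < d), mat hF r hr ∈ ({mat hF a ha, mat hF b hb, mat hF c hc} :
        Set (SimpleGraph (Fin d → Bool))) → ∀ x : W, U.Adj (e x) (e (f r x)) := by
      intro r hr hmem x
      rw [hU, SimpleGraph.sSup_adj]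
      exact ⟨_, hmem, by rw [mat_adj, e.symm_apply_apply]⟩
    have hP : ∀ x0 : W, ∀ r (hr : r < d), mat hF r hr ∈ ({mat hF a ha, mat hF b hb, mat hF c hc} :
        Set (SimpleGraph (Fin d → Bool))) → ∀ x : W, U.Reachable (e x0) (e x) ↔
          U.Reachable (e x0) (e (f r x)) := by
      intro x0 r hr hmem x
      have := (step r hr hmem x).reachable
      exact ⟨fun h => h.trans this, fun h => h.trans this.symm⟩
    have : Nonempty (Fin d → Bool) := ⟨fun _ => false⟩
    refine SimpleGraph.Connected.mk ?_
    intro u v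
    have := hF.tri a b c ha hb hc hab hac hbc (fun x => U.Reachable (e (e.symm u)) (e x))
      (hP _ a ha (by simp)) (hP _ b hb (by simp)) (hP _ c hc (by simp)) (e.symm u) (e.symm v)
    simp only [e.apply_symm_apply] at this
    exact this.1 (SimpleGraph.Reachable.refl _)

end upper

/-! ### Lower bound (Laufer's sign argument) -/

section lower

variable {d : ℕ}

/-- sum of the coordinates modulo 2 -/
def par (v : Fin d → Bool) : ZMod 2 := ∑ i, if v i = true then 1 else 0

theorem par_adj {x y : Fin d → Bool} (h : (Q d).Adj x y) : par x + par y = 1 := by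
  obtain ⟨i, hi, hi'⟩ := h
  unfold par
  rw [← Finset.sum_add_distrib, Finset.sum_eq_single i]
  · revert hi
    cases x i <;> cases y i <;> simp
  · intro j _ hj
    have : x j = y j := by
      by_contra h
      exact hj (hi' j h)
    rw [this]
    cases y j
    · simp
    · simp only [if_true]; decide
  · intro h; exact absurd (Finset.mem_univ i) h

theorem par_flip {x y : Fin d → Bool} (h : (Q d).Adj x y) : par y = 0 ↔ ¬ par x = 0 := by
  have := par_adj h
  revert this
  generalize par x = a
  generalize par y = b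
  revert a b
  decide

/-- A perfect matching as a bijection from the even to the odd vertices. -/
theorem exists_equiv {F : SimpleGraph (Fin d → Bool)} (hF : IsOneFactor d F) :
    ∃ α : {v : Fin d → Bool // par v = 0} ≃ {v : Fin d → Bool // ¬ par v = 0},
      ∀ v, F.Adj v.1 (α v).1 := by
  choose g hg hg' using hF.2
  have gg : ∀ v, g (g v) = v := fun v => (hg' (g v) v (hg v).symm).symm
  have gp : ∀ v, par (g v) = 0 ↔ ¬ par v = 0 := fun v => par_flip (hF.1 (hg v))
  refine ⟨⟨fun v => ⟨g v.1, fun h => (gp v.1).1 h v.2⟩, fun v => ⟨g v.1, (gp v.1).2 v.2⟩,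
    fun v => Subtype.ext (gg v.1), fun v => Subtype.ext (gg v.1)⟩, fun v => hg v.1⟩

theorem card_even (d : ℕ) (hd : 2 ≤ d)
    (α : {v : Fin d → Bool // par v = 0} ≃ {v : Fin d → Bool // ¬ par v = 0}) :
    ∃ k, 0 < k ∧ Fintype.card {v : Fin d → Bool // par v = 0} = 2 * k := by
  have h1 := Fintype.card_congr α
  have h2 := Fintype.card_subtype_compl (fun v : Fin d → Bool => par v = 0)
  have h3 : Fintype.card {v : Fin d → Bool // par v = 0} ≤ Fintype.card (Fin d → Bool) :=
    Fintype.card_subtype_le _
  have h4 : Fintype.card (Fin d → Bool) = 2 ^ d := by simp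
  obtain ⟨n, rfl⟩ := Nat.exists_eq_add_of_le' hd
  refine ⟨2 ^ n, by positivity, ?_⟩
  rw [h4] at h2 h3
  rw [pow_add] at h2 h3
  omega

open Equiv.Perm in
/-- Two 1-factors with connected union give an odd permutation of the even vertices. -/
theorem sign_of_connected (hd : 2 ≤ d) {F F' : SimpleGraph (Fin d → Bool)}
    {α α' : {v : Fin d → Bool // par v = 0} ≃ {v : Fin d → Bool // ¬ par v = 0}}
    (hF : IsOneFactor d F) (hF' : IsOneFactor d F')
    (hα : ∀ v, F.Adj v.1 (α v).1) (hα' : ∀ v, F'.Adj v.1 (α' v).1)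
    (hc : (F ⊔ F').Connected) : Equiv.Perm.sign (α.trans α'.symm) = -1 := by
  set τ : Equiv.Perm {v : Fin d → Bool // par v = 0} := α.trans α'.symm with hτ
  -- the matched partners
  have uF : ∀ (v : {v : Fin d → Bool // par v = 0}) w, F.Adj v.1 w → w = (α v).1 :=
    fun v w h => (hF.2 v.1).unique h (hα v)
  have uF' : ∀ (v : {v : Fin d → Bool // par v = 0}) w, F'.Adj v.1 w → w = (α' v).1 :=
    fun v w h => (hF'.2 v.1).unique h (hα' v)
  have same : ∀ x y, SameCycle τ x y := by
    intro x y
    -- the even vertex attached to a vertex by the second matching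
    let P : (Fin d → Bool) → Prop := fun v => ∀ a : {v : Fin d → Bool // par v = 0},
      (a.1 = v ∨ (α' a).1 = v) → SameCycle τ x a
    have hP : ∀ v w, (F ⊔ F').Adj v w → P v → P w := by
      intro v w hvw hv a ha
      rw [SimpleGraph.sup_adj] at hvw
      by_cases hpw : par w = 0
      · -- `w` is even
        have haw : a.1 = w := by
          rcases ha with h | h
          · exact h
          · exact absurd (h ▸ hpw) (α' a).2
        subst haw
        rcases hvw with hvw | hvw
        · -- first matching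
          have e1 := uF a v hvw.symm
          have h2 := hv (τ a) (Or.inr (by rw [hτ]; simp [e1]))
          exact (sameCycle_apply_right.1 h2)
        · have e1 := uF' a v hvw.symm
          exact hv a (Or.inr e1.symm)
      · have haw : (α' a).1 = w := by
          rcases ha with h | h
          · exact absurd (h ▸ a.2) hpw
          · exact h
        have hpv : par v = 0 := by
          have hq : (Q d).Adj w v := by
            rcases hvw with h | h
            · exact (hF.1 h).symm
            · exact (hF'.1 h).symm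
          exact (par_flip hq).2 hpw
        rcases hvw with hvw | hvw
        · have e1 := uF ⟨v, hpv⟩ w hvw
          have h2 := hv ⟨v, hpv⟩ (Or.inl rfl)
          have e2 : τ ⟨v, hpv⟩ = a := by
            rw [hτ, Equiv.trans_apply, Equiv.symm_apply_eq]
            apply Subtype.ext
            rw [haw, ← e1]
          rw [← e2]
          exact sameCycle_apply_right.2 h2
        · have e1 := uF' ⟨v, hpv⟩ w hvw
          have e2 : a = ⟨v, hpv⟩ := by
            apply α'.injective
            apply Subtype.ext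
            rw [haw, e1]
          rw [e2]
          exact hv _ (Or.inl rfl)
    have hreach := hc.preconnected x.1 y.1
    obtain ⟨p⟩ := hreach
    have : ∀ {u v : Fin d → Bool} (p : (F ⊔ F').Walk u v), P u → P v := by
      intro u v p
      induction p with
      | nil => exact id
      | cons h p ih => exact fun hu => ih (hP _ _ h hu)
    have hx : P x.1 := by
      intro a ha
      rcases ha with h | h
      · have : a = x := Subtype.ext h
        rw [this]
      · exact absurd (h ▸ x.2) (α' a).2
    exact this p hx y (Or.inl rfl)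
  obtain ⟨k, hk, hcard⟩ := card_even d hd α
  have hne : ∀ x, τ x ≠ x := by
    intro x hx
    have h1 : Fintype.card {v : Fin d → Bool // par v = 0} ≤ 1 := by
      rw [Fintype.card_le_one_iff]
      have : ∀ y, y = x := by
        intro y
        obtain ⟨n, hn⟩ := same x y
        rw [← hn]
        exact Equiv.Perm.zpow_apply_eq_self_of_apply_eq_self hx n
      intro a b
      rw [this a, this b]
    omega
  have hcyc : IsCycle τ := by
    have : 0 < Fintype.card {v : Fin d → Bool // par v = 0} := by omega
    obtain ⟨x⟩ := Fintype.card_pos_iff.1 this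
    exact ⟨x, hne x, fun y _ => same x y⟩
  have hsupp : τ.support = Finset.univ := by
    ext x; simp [hne x]
  rw [hcyc.sign, hsupp, Finset.card_univ, hcard, pow_mul]
  simp

/-- No three 1-factors have pairwise connected unions. -/
theorem no_three (hd : 2 ≤ d) {F1 F2 F3 : SimpleGraph (Fin d → Bool)} (h1 : IsOneFactor d F1)
    (h2 : IsOneFactor d F2) (h3 : IsOneFactor d F3) (h12 : (F1 ⊔ F2).Connected)
    (h23 : (F2 ⊔ F3).Connected) (h31 : (F3 ⊔ F1).Connected) : False := by
  obtain ⟨α1, k1⟩ := exists_equiv h1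
  obtain ⟨α2, k2⟩ := exists_equiv h2
  obtain ⟨α3, k3⟩ := exists_equiv h3
  have s12 := sign_of_connected hd h1 h2 k1 k2 h12
  have s23 := sign_of_connected hd h2 h3 k2 k3 h23
  have s31 := sign_of_connected hd h3 h1 k3 k1 h31
  have e : (α3.trans α1.symm : Equiv.Perm _) * (α2.trans α3.symm) * (α1.trans α2.symm) = 1 := by
    ext x
    simp
  have := congrArg Equiv.Perm.sign e
  rw [map_mul, map_mul, s12, s23, s31, map_one] at this
  exact absurd this (by decide)

/-- A 1-factorization of `Q_d`, `d ≥ 3`, has three different members. -/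
theorem exists_three (hd : 3 ≤ d) {M : Set (SimpleGraph (Fin d → Bool))}
    (hM : IsOneFactorization d M) : ∃ F1 ∈ M, ∃ F2 ∈ M, ∃ F3 ∈ M, F1 ≠ F2 ∧ F2 ≠ F3 ∧ F3 ≠ F1 := by
  let z : Fin d → Bool := fun _ => false
  let w : Fin d → (Fin d → Bool) := fun i => Function.update z i true
  have hw : ∀ i, (Q d).Adj z (w i) := by
    intro i
    refine ⟨i, by simp [z, w], ?_⟩
    intro j hj
    by_contra h
    exact hj (by simp [z, w, Function.update_of_ne h])
  have hwinj : ∀ i j, w i = w j → i = j := by
    intro i j h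
    by_contra hij
    have := congrFun h i
    simp [w, z, Function.update_of_ne hij] at this
  choose F hF _ using fun i => hM.2 _ _ (hw i)
  have hFne : ∀ i j, i ≠ j → F i ≠ F j := by
    intro i j hij h
    have h1 := (hF i).2
    have h2 := (hF j).2
    rw [h] at h1
    exact hij (hwinj i j ((((hM.1 _ (hF j).1).2 z)).unique h1 h2))
  refine ⟨F ⟨0, by omega⟩, (hF _).1, F ⟨1, by omega⟩, (hF _).1, F ⟨2, by omega⟩, (hF _).1,
    hFne _ _ (by simp), hFne _ _ (by simp), hFne _ _ (by simp)⟩

theorem lower (hd : 3 ≤ d) {r : ℕ} (hr : r ∈ RSet d) : 3 ≤ r := by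
  obtain ⟨hpos, M, hM, hconn⟩ := hr
  by_contra hcon
  obtain ⟨F1, m1, F2, m2, F3, m3, h12, h23, h31⟩ := exists_three hd hM
  have pair : ∀ F ∈ M, ∀ F' ∈ M, F ≠ F' → (F ⊔ F').Connected := by
    intro F hF F' hF' hne
    obtain rfl | rfl : r = 1 ∨ r = 2 := by omega
    · have := hconn {F} (by simpa using hF) (Set.ncard_singleton F)
      rw [sSup_singleton] at this
      exact this.mono le_sup_left
    · have := hconn {F, F'} (by rintro G (rfl | rfl) <;> assumption) (Set.ncard_pair hne)
      rwa [sSup_pair] at this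
  exact no_three (by omega) (hM.1 _ m1) (hM.1 _ m2) (hM.1 _ m3) (pair _ m1 _ m2 h12)
    (pair _ m2 _ m3 h23) (pair _ m3 _ m1 h31)

end lower

theorem main (d : ℕ) (hd : 3 ≤ d) : IsLeast (RSet d) 3 := by
  obtain ⟨W, e, f, hF⟩ := exists_fac d hd
  exact ⟨three_mem hF, fun r hr => lower hd hr⟩

end Pool.Agent.Helper243.RD
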