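import Pool.Agent.Helper243.RBase

set_option autoImplicit false

namespace Pool.Agent.Helper243.RD

def D3 : List ℕ := [0x0,
  0x249249,
  0x492492]

def M3 : List (List (ℕ × ℕ)) :=
  [[(0x55, 1)],
   [(0x33, 2)],
   [(0xf, 4)]]

def D4 : List ℕ := [0x65901b65901b,
  0x492492000249,
  0x249492492,
  0x2cb6c02cb6c0]

def M4 : List (List (ℕ × ℕ)) :=
  [[(0x404, 1), (0x1010, 2), (0xa3, 8)],
   [(0x50, 1), (0x3, 2), (0xf00, 4)],
   [(0x5000, 1), (0x300, 2), (0xf, 4)],
   [(0x101, 1), (0x2020, 2), (0x5c, 8)]]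

def D5 : List ℕ := [0x240240240246e46e46e46e4,
  0x28b28b30b30b00000030a30a,
  0x51251249249230a30a000000,
  0x6c06596c065949b49b49b49b,
  0x8598c08598c0851851851851]

def M5 : List (List (ℕ × ℕ)) :=
  [[(0x44440000, 1), (0xcc, 8), (0x3333, 16)],
   [(0x5500, 1), (0x22220022, 2), (0x4000001, 4), (0x110000, 8), (0x44, 16)],
   [(0x55, 1), (0x2200, 2), (0xb0f0100, 4), (0x4400, 16)],
   [(0x10100000, 1), (0x1010000, 2), (0xc0c, 4), (0xca0033, 8)],
   [(0x1010000, 1), (0x10101111, 2), (0x202, 4), (0x240000, 8), (0x8888, 16)]]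

def D6 : List ℕ := [0x6c00006d50154c0540ad5a510002490150154c0540ad5a51,
  0x249249a69249a69a69540540249000a69249a69a69540540,
  0x9256db9246db9226da9246dd71d6db71c6db71a6da71c6dd,
  0x49449554054001401502a02a49449554054028c28d02a02a,
  0x1a92201a92234d9232499238e39242cb924965924249924,
  0xb6bb6c28baac69b28c69b28cb6ab6a8a2aaa0130138a328b]

def M6 : List (List (ℕ × ℕ)) :=
  [[(0x1504110050441100, 1), (0x103000001, 2), (0x2080200020802, 4), (0xc0004000000040, 8), (0x110498, 32)],
   [(0x1105000011, 1), (0x3313110030131100, 2), (0x800000008, 4), (0xa0aa44, 32)],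
   [(0x10000000100, 4), (0xf000e00af00ae, 8), (0xe0f000004050, 16), (0x10000001, 32)],
   [(0x11444400110044, 1), (0x2200, 2), (0xe0802010e080401, 4), (0x100000001000, 16), (0x1440122, 32)],
   [(0x4040000000000000, 1), (0x203000200030, 2), (0x101000000000000, 4), (0x20000100500000, 8), (0xe0e0000af0f, 16), (0x5000, 32)],
   [(0x4400, 1), (0x20020200000002, 2), (0x4040401050204, 4), (0x1000b000000011, 8), (0x101000000a0, 16), (0xee0a0000, 32)]]

def D7 : List ℕ := [0x34e000000000c7102dd7538d55651300030b58052d55551572e0006aa8a2d35b40d729a26ee01b6ec91b38db4034c900,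
  0x33c694b34ad593593a93a9391bdae49b4ad932db2bb2bb2035c69b34b2c592592b14b1491ddaea9aaaa933db3bb3bb3,
  0x49c49bb5cb5b01c67101c67128a8a2b52b5228e8a62492494594db4594db000671000671492492451451016016451451,
  0x9228e29228e29228e29228e2c71671d347b665900071c0002ca30a2cd24924930b24934bc71671d357b665965971a75a,
  0xad5796cd6796ac0d404c0540ae52cc8e6ce4ae334c8e3d64b54796d56796a9ccad49d4adb408c0966cc0ac08ed8e5ced,
  0xd8030c24930c34d30c249d2c000000249000d556d30006ebda39640230006e38e46e3cc002434c000024ca428c000024,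
  0x669b757adc716aea9e7ae01e7acb5d7ad85902ca59cae89e880ab5980d7596e01e9ae01e38bb2538b34d56a522cae28e]

def M7 : List (List (ℕ × ℕ)) :=
  [[(0x5550400005010000500010004000101, 1), (0x20001002000200000000000000002020, 2), (0xa00080a0005000100000000, 4), (0x100000080000000c30000, 8), (0x4040000400a0000001c, 16), (0x400003510000000020201c40, 32), (0x1000a0a410004000, 64)],
   [(0x40000000000000004000000000000000, 1), (0x1000000000000000100000000000000, 2), (0xc0a06000c010100000b0200050000, 4), (0x100011003000000000000000200011, 8), (0xc000000000550000c000, 16), (0x203008800000000128a0088, 32), (0x282044000d002e66, 64)],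
   [(0x4040000000000000505000004400, 1), (0x101200020331010010100110011, 2), (0xc00000005030400080800000f0a020a, 4), (0x230028000000000027000800000000, 8), (0x101000000a000000000000000000, 16), (0xcc00000000000000000000, 32), (0x20200001100, 64)],
   [(0x5050000000000000000, 1), (0x110010002223323211001100, 2), (0x1010101000000000100000000000001, 4), (0x40004000800a000400001000800aa, 8), (0xeaea000000500000040000000040, 16), (0x100004, 32), (0xa2a70000, 64)],
   [(0x1111000000000000000011011000, 1), (0x20002000000000000000000, 2), (0x2020008000000000202040c00000000, 4), (0x480040004400500008002000040044, 8), (0x21a300001000000008a0, 16), (0x9000840400000000c0408313, 32), (0x595080000180008, 64)],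
   [(0x10000000550500500045000140540054, 1), (0x2322230003000000000000002000200, 2), (0x2000000000000000400, 4), (0xd001000d400000000, 8), (0x5050000000000002b2000003103, 16), (0x50020000000004000000, 32), (0xc000000800008000, 64)],
   [(0x4000040001010040400000000, 1), (0x10010000000101000000000020220002, 2), (0x400000000040400000000000904, 4), (0x800082008200020000000200100000, 8), (0x10080000808000000600, 16), (0x2d3028200000000009056020, 32), (0x24a115140400091, 64)]]

def nd (d v : ℕ) : Fin (2 ^ d) := if h : v < 2 ^ d then ⟨v, h⟩ else ⟨0, by positivity⟩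

theorem nd_val {d : ℕ} (x : Fin (2 ^ d)) : nd d x.val = x := by
  unfold nd; rw [dif_pos x.isLt]

theorem nd_lt {d v : ℕ} (h : v < 2 ^ d) : (nd d v).val = v := by
  unfold nd; rw [dif_pos h]

theorem tri_small {d : ℕ} (hd : d ≤ 8) {D : List ℕ} {M : List (List (ℕ × ℕ))}
    (h0 : chk0 d D = true) (hM : chkM d D (fun _ _ => true) M = true) (hl : M.length = d)
    {n : ℕ} (hc : ∀ ρ < 2 ^ d, pc ρ = 3 → closes (rows M ρ) (2 ^ 2 ^ d - 1) n (2 ^ 0) = true) :
    Tri d (fF d D) := by
  intro a b c ha hb hc' hab hac hbc P h1 h2 h3 x y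
  obtain ⟨p1, -⟩ := pc3 ⟨a, by omega⟩ ⟨b, by omega⟩ ⟨c, by omega⟩ (by simpa using hab)
    (by simpa using hac) (by simpa using hbc)
  have hρ : 2 ^ a ||| 2 ^ b ||| 2 ^ c < 2 ^ d :=
    Nat.or_lt_two_pow (Nat.or_lt_two_pow (Nat.pow_lt_pow_right (by norm_num) ha)
      (Nat.pow_lt_pow_right (by norm_num) hb)) (Nat.pow_lt_pow_right (by norm_num) hc')
  have hbit : ∀ z : Fin (2 ^ d), (2 ^ 2 ^ d - 1).testBit z.val = true := by
    intro z; rw [Nat.testBit_two_pow_sub_one]; simp
  have key := closure_sound (fun v => P (nd d v)) (rows M (2 ^ a ||| 2 ^ b ||| 2 ^ c)) ?_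
    (2 ^ 2 ^ d - 1) n 0 (hc _ hρ p1) (hbit x) (hbit y)
  · simpa only [nd_val] using key
  · intro p hp v hv
    obtain ⟨i, i1, i2, i3⟩ := mem_rows _ _ _ hp
    obtain ⟨q1, q2, -⟩ := chkM_spec hM i1 i3 hv
    rw [hl] at i1
    have hi : ∀ x, P x ↔ P (fF d D i x) := by
      rcases bits3 i2 with h | h | h <;> rw [h] <;> assumption
    have e1 : fF d D i (nd d v) = nd d (v + p.2) := by
      apply Fin.ext
      rw [fF_val h0 i1, nd_lt q1, q2, nd_lt]
      rw [← q2]; exact fN_lt h0 i1 q1
    have := hi (nd d v)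
    rw [e1] at this
    exact this

/-- A colouring of the edges of the `d`-cube, as a family of involutions, in which every three
colours are connected. -/
structure Fac (d : ℕ) {W : Type} (e : W ≃ (Fin d → Bool)) (f : ℕ → W → W) : Prop where
  inv : ∀ c < d, ∀ x, f c (f c x) = x
  inj : ∀ x, ∀ c < d, ∀ c' < d, f c x = f c' x → c = c'
  cube : ∀ c < d, ∀ x, ∃! i, e (f c x) i ≠ e x i
  tri : Tri d f

theorem fac_small {d : ℕ} (hd : d ≤ 8) {D : List ℕ} {M : List (List (ℕ × ℕ))}
    (h0 : chk0 d D = true) (hM : chkM d D (fun _ _ => true) M = true) (hl : M.length = d)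
    {n : ℕ} (hc : ∀ ρ < 2 ^ d, pc ρ = 3 → closes (rows M ρ) (2 ^ 2 ^ d - 1) n (2 ^ 0) = true) :
    Fac d (toBits d) (fF d D) :=
  ⟨fF_inv h0, fF_inj h0, fF_cube h0, tri_small hd h0 hM hl hc⟩

theorem fac3 : Fac 3 (toBits 3) (fF 3 D3) :=
  fac_small (M := M3) (n := 12) (by norm_num) (by decide +kernel) (by decide +kernel)
    (by decide +kernel) (by decide +kernel)

theorem fac4 : Fac 4 (toBits 4) (fF 4 D4) :=
  fac_small (M := M4) (n := 12) (by norm_num) (by decide +kernel) (by decide +kernel)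
    (by decide +kernel) (by decide +kernel)

theorem fac5 : Fac 5 (toBits 5) (fF 5 D5) :=
  fac_small (M := M5) (n := 12) (by norm_num) (by decide +kernel) (by decide +kernel)
    (by decide +kernel) (by decide +kernel)

theorem fac6 : Fac 6 (toBits 6) (fF 6 D6) :=
  fac_small (M := M6) (n := 12) (by norm_num) (by decide +kernel) (by decide +kernel)
    (by decide +kernel) (by decide +kernel)

theorem fac7 : Fac 7 (toBits 7) (fF 7 D7) :=
  fac_small (M := M7) (n := 12) (by norm_num) (by decide +kernel) (by decide +kernel)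
    (by decide +kernel) (by decide +kernel)

theorem exists_good (n : ℕ) : ∃ (W : Type) (e : W ≃ (Fin (n + 8) → Bool)) (f : ℕ → W → W)
    (kd : W → Kind), Good (n + 8) e f kd := by
  induction n with
  | zero => exact ⟨_, _, _, _, good8⟩
  | succ n ih =>
    obtain ⟨W, e, f, kd, h⟩ := ih
    have := h.step (by omega)
    rw [show n + 1 + 8 = n + 8 + 1 by omega]
    exact ⟨_, _, _, _, this⟩

/-- Every cube of dimension at least 3 has the wanted colouring. -/
theorem exists_fac (d : ℕ) (hd : 3 ≤ d) : ∃ (W : Type) (e : W ≃ (Fin d → Bool))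
    (f : ℕ → W → W), Fac d e f := by
  by_cases h8 : 8 ≤ d
  · obtain ⟨n, rfl⟩ := Nat.exists_eq_add_of_le' h8
    obtain ⟨W, e, f, kd, h⟩ := exists_good n
    exact ⟨W, e, f, h.inv, h.inj, h.cube, tri_of_good (by omega) h⟩
  · obtain rfl | rfl | rfl | rfl | rfl : d = 3 ∨ d = 4 ∨ d = 5 ∨ d = 6 ∨ d = 7 := by omega
    · exact ⟨_, _, _, fac3⟩
    · exact ⟨_, _, _, fac4⟩
    · exact ⟨_, _, _, fac5⟩
    · exact ⟨_, _, _, fac6⟩
    · exact ⟨_, _, _, fac7⟩

end Pool.Agent.Helper243.RD
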