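import Pool.Agent.Helper243.RTabC

set_option autoImplicit false

namespace Pool.Agent.Helper243.RD

variable {m : ℕ} {W : Type} {e : W ≃ (Fin m → Bool)} {f : ℕ → W → W} {kd : W → Kind}

theorem nf_vert {x : W} {s : Bool} {c : ℕ} (h : mu m (gad m (kd x)) s c = m) :
    nf m f kd c (x, s) = (x, !s) := by
  simp [nf, h]

theorem nf_eq {x : W} {s : Bool} {c r : ℕ} (h : mu m (gad m (kd x)) s c = r) (hr : r < m) :
    nf m f kd c (x, s) = (f r x, s) := by
  have : r ≠ m := by omega
  simp [nf, h, this]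

theorem nkd_eq (x : W) (s : Bool) : nkd m kd (x, s) = nk m (kd x) s := rfl

/-! ### Elementary consequences of invariance -/

theorem gcopy (hm : 5 ≤ m) (hG : Good m e f kd) {P : W × Bool → Prop} {c : ℕ} (hc : c < m)
    (h : InvG (m + 1) (nf m f kd) (nkd m kd) P c) (s : Bool) :
    InvG m f kd (fun x => P (x, s)) (df m s c) := by
  intro x h1 h2 h3
  have hv := hG.valid x
  have e1 := mu_df hm hv s hc (Or.inl h1) h3
  have e2 := nf_eq (f := f) e1 (df_lt hm s hc)
  have e3 := h (x, s) (vt_nk h1 s) (by rw [e2]; exact vt_nk h2 s) (ex4_nk hm hv h1 s hc h3)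
  rw [e2] at e3
  exact e3

theorem gvert {P : W × Bool → Prop} {c : ℕ}
    (h : InvG (m + 1) (nf m f kd) (nkd m kd) P c) {x : W} (h1 : vt (nk m (kd x) false) = false)
    (h2 : vt (nk m (kd x) true) = false) (h3 : mu m (gad m (kd x)) false c = m)
    (h4 : ¬ ex4 (m + 1) (nk m (kd x) false) c) : P (x, false) ↔ P (x, true) := by
  have e2 := nf_vert (f := f) h3
  have e3 := h (x, false) h1 (by rw [e2]; exact h2) h4
  rw [e2] at e3
  exact e3

theorem gesc (hm : 5 ≤ m) (hG : Good m e f kd) {P : W × Bool → Prop} {c : ℕ} (hc : c ≤ m)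
    (h : InvG (m + 1) (nf m f kd) (nkd m kd) P c) {x : W} {s : Bool} (h0 : kd x ≠ .free)
    (h1 : vt (nk m (kd x) s) = false) (h2 : esc m (kd x) s c) :
    ∃ y, kd y = .free ∧ (P (x, s) ↔ P (y, s)) := by
  have h3 := esc_ex4 hm (hG.valid x) hc h2
  obtain ⟨h4, h5⟩ := h2
  have e2 := nf_eq (f := f) rfl h4
  have e4 : kd (f (mu m (gad m (kd x)) s c) x) = .free := by
    rw [hG.tab _ h4 x h0, h5]
  have e3 := h (x, s) h1 (by rw [e2, nkd_eq, e4]; rfl) h3
  rw [e2] at e3
  exact ⟨_, e4, e3⟩

theorem kcopy (hm : 5 ≤ m) {P : W × Bool → Prop} {c : ℕ} (hc : c < m)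
    (h : InvK (nf m f kd) (nkd m kd) P c) (s : Bool) :
    InvK f kd (fun x => P (x, s)) (df m s c) := by
  intro x h1 h2
  have e1 : mu m (gad m (kd x)) s c = df m s c := by
    rw [h1]; exact mu_none s hc
  have e2 := nf_eq (f := f) e1 (df_lt hm s hc)
  have e3 := h (x, s) (by rw [nkd_eq, h1]; rfl) (by rw [e2, nkd_eq, h2]; rfl)
  rw [e2] at e3
  exact e3

theorem kvert {P : W × Bool → Prop} {c : ℕ}
    (h : InvK (nf m f kd) (nkd m kd) P c) {x : W} (h1 : nk m (kd x) false = .free)
    (h2 : nk m (kd x) true = .free) (h3 : mu m (gad m (kd x)) false c = m) :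
    P (x, false) ↔ P (x, true) := by
  have e2 := nf_vert (f := f) h3
  have e3 := h (x, false) h1 (by rw [e2]; exact h2)
  rw [e2] at e3
  exact e3

theorem kesc (hG : Good m e f kd) {P : W × Bool → Prop} {c : ℕ}
    (h : InvK (nf m f kd) (nkd m kd) P c) {x : W} {s : Bool} (h0 : kd x ≠ .free)
    (h1 : nk m (kd x) s = .free) (h2 : esc m (kd x) s c) :
    ∃ y, kd y = .free ∧ (P (x, s) ↔ P (y, s)) := by
  obtain ⟨h4, h5⟩ := h2
  have e2 := nf_eq (f := f) rfl h4
  have e4 : kd (f (mu m (gad m (kd x)) s c) x) = .free := by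
    rw [hG.tab _ h4 x h0, h5]
  have e3 := h (x, s) h1 (by rw [e2, nkd_eq, e4]; rfl)
  rw [e2] at e3
  exact ⟨_, e4, e3⟩

theorem InvG.toK {P : W → Prop} {r : ℕ} (h : InvG m f kd P r) : InvK f kd P r := by
  intro x h1 h2
  exact h x (by rw [h1]; rfl) (by rw [h2]; rfl) (by rw [h1]; simp [ex4])

/-! ### Escaping colours -/

/-- Among any four old colours one escapes. -/
theorem esc_four (hm : 5 ≤ m) {κ : Kind} (hv : Valid m κ) (s : Bool) {a b c d : ℕ}
    (ha : a < m) (hb : b < m) (hc : c < m) (hd : d < m) (hab : a ≠ b) (hac : a ≠ c)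
    (had : a ≠ d) (hbc : b ≠ c) (hbd : b ≠ d) (hcd : c ≠ d) :
    esc m κ s a ∨ esc m κ s b ∨ esc m κ s c ∨ esc m κ s d := by
  obtain ⟨u, v, huv⟩ := ex4_two (m := m) κ
  have key : ∀ r, r < m → ¬ esc m κ s r → r + 1 = m ∨ df m s r = u ∨ df m s r = v := by
    intro r hr h
    by_cases h1 : r + 1 = m
    · exact Or.inl h1
    · right
      apply huv
      by_contra h2
      exact h (esc_of hm hv (by omega) h2)
  by_contra hcon
  push Not at hcon
  obtain ⟨n1, n2, n3, n4⟩ := hcon
  have i1 : df m s a ≠ df m s b := fun h => hab (df_inj hm s ha hb h)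
  have i2 : df m s a ≠ df m s c := fun h => hac (df_inj hm s ha hc h)
  have i3 : df m s a ≠ df m s d := fun h => had (df_inj hm s ha hd h)
  have i4 : df m s b ≠ df m s c := fun h => hbc (df_inj hm s hb hc h)
  have i5 : df m s b ≠ df m s d := fun h => hbd (df_inj hm s hb hd h)
  have i6 : df m s c ≠ df m s d := fun h => hcd (df_inj hm s hc hd h)
  rcases key a ha n1 with k1 | k1 | k1 <;> rcases key b hb n2 with k2 | k2 | k2 <;>
    rcases key c hc n3 with k3 | k3 | k3 <;> rcases key d hd n4 with k4 | k4 | k4 <;> omega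

/-- Kinds whose only reserved neighbour is in the newest colour. -/
theorem esc_small (hm : 5 ≤ m) {κ : Kind} (hv : Valid m κ) (h : vt κ = true) (s : Bool) {c : ℕ}
    (hc : c + 1 < m) : esc m κ s c := by
  refine esc_of hm hv hc ?_
  rcases κ with _ | ⟨c0, t, i, j⟩ | ⟨i, j⟩ | i | i | ⟨k, i⟩ | k | k <;> simp_all [ex4, vt]

/-- At a gadget of colour `β`, at most one further colour is bad besides the newest one. -/
theorem esc_L1 (hm : 5 ≤ m) {κ : Kind} (hv : Valid m κ) (s : Bool) {β p q : ℕ}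
    (hκ : gad m κ = .L1 β) (hp : p + 1 < m) (hq : q + 1 < m) (hpq : p ≠ q) (h1 : p ≠ β)
    (h2 : q ≠ β) : esc m κ s p ∨ esc m κ s q := by
  rcases κ with _ | ⟨c0, t, i, j⟩ | ⟨i, j⟩ | i | i | ⟨k, i⟩ | k | k
  · simp [gad] at hκ
  · cases t
    · simp [gad] at hκ
    · obtain ⟨l1, l2, -⟩ := lab hm hv (by rw [hκ]; simp)
      rw [hκ] at l1 l2
      simp only [gb] at l1 l2
      by_contra hcon
      push Not at hcon
      have k1 : ex4 m (.cl c0 true i j) (df m s p) := by
        by_contra h; exact hcon.1 (esc_of hm hv hp h)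
      have k2 : ex4 m (.cl c0 true i j) (df m s q) := by
        by_contra h; exact hcon.2 (esc_of hm hv hq h)
      rw [l2] at k1 k2
      cases s
      · simp only [df, Bool.false_eq_true, if_false] at k1 k2
        omega
      · simp only [df, if_true] at k1 k2
        have e1 : rotInv m p ≠ rotInv m β := fun h => h1 (rotInv_inj hm (by omega) (by omega) h)
        have e2 : rotInv m q ≠ rotInv m β := fun h => h2 (rotInv_inj hm (by omega) (by omega) h)
        have e3 : rotInv m p ≠ rotInv m q := fun h => hpq (rotInv_inj hm (by omega) (by omega) h)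
        omega
  · simp [gad] at hκ
  · simp [gad] at hκ
  · exact Or.inl (esc_small hm hv rfl s hp)
  all_goals simp [gad] at hκ

/-- Two old colours cannot both be bad in both copies. -/
theorem esc_two (hm : 5 ≤ m) {κ : Kind} (hv : Valid m κ) {p q : ℕ}
    (hp : p + 1 < m) (hq : q + 1 < m) (hpq : p ≠ q) :
    ∃ s, esc m κ s p ∨ esc m κ s q := by
  obtain ⟨u, v, huv⟩ := ex4_two (m := m) κ
  by_contra hcon
  push Not at hcon
  have key : ∀ r s, r + 1 < m → ¬ esc m κ s r → df m s r = u ∨ df m s r = v := by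
    intro r s hr h
    apply huv
    by_contra h2
    exact h (esc_of hm hv (by omega) h2)
  have k1 := key p false hp (hcon false).1
  have k2 := key q false hq (hcon false).2
  have k3 := key p true hp (hcon true).1
  have k4 := key q true hq (hcon true).2
  simp only [df, Bool.false_eq_true, if_false, if_true] at k1 k2 k3 k4
  exact two_of hm hp hq hpq k1 k2 k3 k4

/-! ### The connectivity statement for triples -/

theorem exists_free (hm : 5 ≤ m) (hG : Good m e f kd) : ∃ x, kd x = .free := by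
  obtain ⟨z, hz⟩ := hG.ex (.y false) (by simp) trivial
  exact ⟨f 0 z, by rw [hG.tab 0 (by omega) z (by rw [hz]; simp), hz]; rfl⟩

theorem step_G_pure (hm : 5 ≤ m) (hG : Good m e f kd) {P : W × Bool → Prop} {a b c : ℕ}
    (ha : a < m) (hb : b < m) (hc : c < m) (hab : a ≠ b) (hac : a ≠ c) (hbc : b ≠ c)
    (h1 : InvG (m + 1) (nf m f kd) (nkd m kd) P a)
    (h2 : InvG (m + 1) (nf m f kd) (nkd m kd) P b)
    (h3 : InvG (m + 1) (nf m f kd) (nkd m kd) P c) (v w : W × Bool)
    (hv : vt (nkd m kd v) = false) (hw : vt (nkd m kd w) = false) : P v ↔ P w := by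
  have hs : ∀ s x y, vt (kd x) = false → vt (kd y) = false → (P (x, s) ↔ P (y, s)) := by
    intro s
    exact hG.G _ _ _ (df_lt hm s ha) (df_lt hm s hb) (df_lt hm s hc)
      (fun h => hab (df_inj hm s ha hb h)) (fun h => hac (df_inj hm s ha hc h))
      (fun h => hbc (df_inj hm s hb hc h)) _ (gcopy hm hG ha h1 s) (gcopy hm hG hb h2 s)
      (gcopy hm hG hc h3 s)
  obtain ⟨x0, hx0⟩ := exists_free hm hG
  have att : ∀ x s, vt (nk m (kd x) s) = false → (P (x, s) ↔ P (x0, s)) := by
    intro x s hx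
    by_cases hk : vt (kd x) = false
    · exact hs s x x0 hk (by rw [hx0]; rfl)
    · have hk' : vt (kd x) = true := by simpa using hk
      have hne : kd x ≠ .free := by intro h; rw [h] at hk; exact hk rfl
      have : a + 1 < m ∨ b + 1 < m := by omega
      rcases this with h | h
      · obtain ⟨y, hy, hP⟩ := gesc hm hG (by omega) h1 hne hx (esc_small hm (hG.valid x) hk' s h)
        exact hP.trans (hs s y x0 (by rw [hy]; rfl) (by rw [hx0]; rfl))
      · obtain ⟨y, hy, hP⟩ := gesc hm hG (by omega) h2 hne hx (esc_small hm (hG.valid x) hk' s h)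
        exact hP.trans (hs s y x0 (by rw [hy]; rfl) (by rw [hx0]; rfl))
  have link : ∀ β, β < m → β ≠ 1 → β + 2 ≠ m →
      InvG (m + 1) (nf m f kd) (nkd m kd) P β → (P (x0, false) ↔ P (x0, true)) := by
    intro β hβ hβ1 hβ2 hinv
    obtain ⟨κ, k1, k2, k3⟩ := exists_L1 hm hβ hβ1 hβ2
    obtain ⟨x1, hx1⟩ := hG.ex κ k1 k2
    have n1 : ∀ s, nk m (kd x1) s = .free := by
      intro s; rw [hx1]; exact nk_L1 (by rw [k3]; simp) s
    have g1 : P (x1, false) ↔ P (x1, true) := by
      refine gvert hinv (by rw [n1]; rfl) (by rw [n1]; rfl) ?_ (by rw [n1]; simp [ex4])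
      rw [hx1, k3]; exact mu_beta hβ false
    exact ((att x1 false (by rw [n1]; rfl)).symm.trans g1).trans (att x1 true (by rw [n1]; rfl))
  have hlink : P (x0, false) ↔ P (x0, true) := by
    have : (a ≠ 1 ∧ a + 2 ≠ m) ∨ (b ≠ 1 ∧ b + 2 ≠ m) ∨ (c ≠ 1 ∧ c + 2 ≠ m) := by omega
    rcases this with h | h | h
    · exact link a ha h.1 h.2 h1
    · exact link b hb h.1 h.2 h2
    · exact link c hc h.1 h.2 h3
  have fin : ∀ v : W × Bool, vt (nkd m kd v) = false → (P v ↔ P (x0, false)) := by
    rintro ⟨x, s⟩ hx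
    cases s
    · exact att x false hx
    · exact (att x true hx).trans hlink.symm
  exact (fin v hv).trans (fin w hw).symm

/-- The new colour together with two old colours, generic case. -/
theorem step_G_mixed1 (hm : 5 ≤ m) (hG : Good m e f kd) {P : W × Bool → Prop} {a b : ℕ}
    (ha : a + 1 < m) (hb : b + 1 < m) (hab : a ≠ b) (hr1 : rotInv m a ≠ b) (hr2 : rotInv m b ≠ a)
    (h1 : InvG (m + 1) (nf m f kd) (nkd m kd) P a)
    (h2 : InvG (m + 1) (nf m f kd) (nkd m kd) P b)
    (h3 : InvG (m + 1) (nf m f kd) (nkd m kd) P m) (v w : W × Bool)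
    (hv : vt (nkd m kd v) = false) (hw : vt (nkd m kd w) = false) : P v ↔ P w := by
  have ha' : a < m := by omega
  have hb' : b < m := by omega
  have vf : ∀ x, kd x = .free → (P (x, false) ↔ P (x, true)) := by
    intro x hx
    refine gvert h3 (by rw [hx]; rfl) (by rw [hx]; rfl) ?_ (by rw [hx]; simp [nk, ex4])
    exact mu_m (by rw [hx]; simp [gad]) false
  have tr : ∀ r, r < m → InvG (m + 1) (nf m f kd) (nkd m kd) P r →
      InvK f kd (fun x => P (x, false)) r ∧ InvK f kd (fun x => P (x, false)) (rotInv m r) := by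
    intro r hr h
    refine ⟨(gcopy hm hG hr h false).toK, ?_⟩
    intro x hx hy
    exact ((vf x hx).trans ((gcopy hm hG hr h true).toK x hx hy)).trans (vf _ hy).symm
  have hs0 := hG.K a b (rotInv m a) (rotInv m b) ha' hb' (rotInv_lt hm ha') (rotInv_lt hm hb')
    hab (rotInv_ne hm ha).symm hr2.symm hr1.symm (rotInv_ne hm hb).symm
    (fun h => hab (rotInv_inj hm ha' hb' h)) _ (tr a ha' h1).1 (tr b hb' h2).1 (tr a ha' h1).2
    (tr b hb' h2).2
  obtain ⟨x0, hx0⟩ := exists_free hm hG
  have fr : ∀ y s, kd y = .free → (P (y, s) ↔ P (x0, false)) := by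
    intro y s hy
    cases s
    · exact hs0 y x0 hy hx0
    · exact (vf y hy).symm.trans (hs0 y x0 hy hx0)
  have es : ∀ x s, kd x ≠ .free → vt (nk m (kd x) s) = false →
      (esc m (kd x) s a ∨ esc m (kd x) s b) → (P (x, s) ↔ P (x0, false)) := by
    intro x s hne hx h
    rcases h with h | h
    · obtain ⟨y, hy, hP⟩ := gesc hm hG (by omega) h1 hne hx h
      exact hP.trans (fr y s hy)
    · obtain ⟨y, hy, hP⟩ := gesc hm hG (by omega) h2 hne hx h
      exact hP.trans (fr y s hy)
  have fin : ∀ v : W × Bool, vt (nkd m kd v) = false → (P v ↔ P (x0, false)) := by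
    rintro ⟨x, s⟩ hx
    rw [nkd_eq] at hx
    by_cases hne : kd x = .free
    · exact fr x s hne
    · by_cases hk : vt (kd x) = false
      · have hboth : ∀ s, vt (nk m (kd x) s) = false := fun s => vt_nk hk s
        have hvert : (P (x, false) ↔ P (x, true)) → (P (x, s) ↔ P (x0, false)) := by
          intro hP
          obtain ⟨s', hs'⟩ := esc_two hm (hG.valid x) ha hb hab
          have := es x s' hne (hboth s') hs'
          cases s <;> cases s' <;> tauto
        by_cases hg : ∃ β, gad m (kd x) = .L1 β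
        · obtain ⟨β, hβ⟩ := hg
          have n1 : ∀ s, nk m (kd x) s = .free := nk_L1 (by rw [hβ]; simp)
          by_cases e1 : β = a
          · refine hvert (gvert h1 (hboth _) (hboth _) ?_ (by rw [n1]; simp [ex4]))
            rw [hβ, e1]; exact mu_beta ha' false
          · by_cases e2 : β = b
            · refine hvert (gvert h2 (hboth _) (hboth _) ?_ (by rw [n1]; simp [ex4]))
              rw [hβ, e2]; exact mu_beta hb' false
            · exact es x s hne hx (esc_L1 hm (hG.valid x) s hβ ha hb hab (Ne.symm e1) (Ne.symm e2))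
        · push Not at hg
          exact hvert (gvert h3 (hboth _) (hboth _) (mu_m hg false) (ex4_m hm (hG.valid x) hk _))
      · have hk' : vt (kd x) = true := by simpa using hk
        exact es x s hne hx (Or.inl (esc_small hm (hG.valid x) hk' s ha))
  exact (fin v hv).trans (fin w hw).symm

/-- The new colour together with two old colours, when the two copies share a matching. -/
theorem step_G_mixed2 (hm : 5 ≤ m) (hG : Good m e f kd) {P : W × Bool → Prop} {a b g : ℕ}
    (ha : a + 1 < m) (hb : b < m) (hab : a ≠ b) (hr1 : rotInv m a ≠ b)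
    (hg0 : InvG m f kd (fun x => P (x, false)) g)
    (hg1 : InvG m f kd (fun x => P (x, true)) g)
    (hgL : ∀ κ β, Valid m κ → vt κ = false → gad m κ = .L1 β → β ≠ a → β ≠ b →
      ¬ ex4 m κ g ∧ vt (tab m κ g) = false ∧ ∀ β', gad m (tab m κ g) ≠ .L1 β') (hgm : g < m)
    (h1 : InvG (m + 1) (nf m f kd) (nkd m kd) P a)
    (h2 : InvG (m + 1) (nf m f kd) (nkd m kd) P b)
    (h3 : InvG (m + 1) (nf m f kd) (nkd m kd) P m) (v w : W × Bool)
    (hv : vt (nkd m kd v) = false) (hw : vt (nkd m kd w) = false) : P v ↔ P w := by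
  have ha' : a < m := by omega
  have vn : ∀ x, vt (kd x) = false → (∀ β, gad m (kd x) ≠ .L1 β) →
      (P (x, false) ↔ P (x, true)) := by
    intro x hx hg
    exact gvert h3 (vt_nk hx _) (vt_nk hx _) (mu_m hg false) (ex4_m hm (hG.valid x) hx _)
  have vf : ∀ x, vt (kd x) = false → (P (x, false) ↔ P (x, true)) := by
    intro x hk
    have hboth : ∀ s, vt (nk m (kd x) s) = false := fun s => vt_nk hk s
    by_cases hg : ∃ β, gad m (kd x) = .L1 β
    · obtain ⟨β, hβ⟩ := hg
      have n1 : ∀ s, nk m (kd x) s = .free := nk_L1 (by rw [hβ]; simp)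
      by_cases e1 : β = a
      · refine gvert h1 (hboth _) (hboth _) ?_ (by rw [n1]; simp [ex4])
        rw [hβ, e1]; exact mu_beta ha' false
      · by_cases e2 : β = b
        · refine gvert h2 (hboth _) (hboth _) ?_ (by rw [n1]; simp [ex4])
          rw [hβ, e2]; exact mu_beta hb false
        · obtain ⟨q1, q2, q3⟩ := hgL _ β (hG.valid x) hk hβ e1 e2
          have hne : kd x ≠ .free := by intro h; rw [h] at hβ; simp [gad] at hβ
          have q4 := hG.tab g hgm x hne
          rw [← q4] at q2 q3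
          exact ((hg0 x hk q2 q1).trans (vn _ q2 q3)).trans (hg1 x hk q2 q1).symm
    · push Not at hg
      exact vn x hk hg
  have tr : ∀ r, r < m → InvG (m + 1) (nf m f kd) (nkd m kd) P r →
      InvG m f kd (fun x => P (x, false)) (rotInv m r) := by
    intro r hr h x hx hy hz
    exact ((vf x hx).trans (gcopy hm hG hr h true x hx hy hz)).trans (vf _ hy).symm
  have hs0 := hG.G a b (rotInv m a) ha' hb (rotInv_lt hm ha')
    hab (rotInv_ne hm ha).symm hr1.symm _ (gcopy hm hG ha' h1 false) (gcopy hm hG hb h2 false)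
    (tr a ha' h1)
  obtain ⟨x0, hx0⟩ := exists_free hm hG
  have fr : ∀ y s, vt (kd y) = false → (P (y, s) ↔ P (x0, false)) := by
    intro y s hy
    cases s
    · exact hs0 y x0 hy (by rw [hx0]; rfl)
    · exact (vf y hy).symm.trans (hs0 y x0 hy (by rw [hx0]; rfl))
  have fin : ∀ v : W × Bool, vt (nkd m kd v) = false → (P v ↔ P (x0, false)) := by
    rintro ⟨x, s⟩ hx
    rw [nkd_eq] at hx
    by_cases hk : vt (kd x) = false
    · exact fr x s hk
    · have hk' : vt (kd x) = true := by simpa using hk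
      have hne : kd x ≠ .free := by intro h; rw [h] at hk; exact hk rfl
      obtain ⟨y, hy, hP⟩ := gesc hm hG (by omega) h1 hne hx (esc_small hm (hG.valid x) hk' s ha)
      exact hP.trans (fr y s (by rw [hy]; rfl))
  exact (fin v hv).trans (fin w hw).symm

theorem hgL_rot (hm : 5 ≤ m) {a b : ℕ} (ha : a + 1 < m) (hb : b < m) (h : rotInv m b = a) :
    ∀ κ β, Valid m κ → vt κ = false → gad m κ = .L1 β → β ≠ a → β ≠ b →
      ¬ ex4 m κ a ∧ vt (tab m κ a) = false ∧ ∀ β', gad m (tab m κ a) ≠ .L1 β' := by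
  intro κ β hv hvt hg e1 e2
  rcases κ with _ | ⟨c0, t, i, j⟩ | ⟨i, j⟩ | i | i | ⟨k, i⟩ | k | k
  · simp [gad] at hg
  · cases t
    · simp [gad] at hg
    · obtain ⟨l1, l2, l3, l4, l5⟩ := lab hm hv (by rw [hg]; simp)
      rw [hg] at l1 l2 l5
      simp only [gb] at l1 l2 l5
      have e3 : a ≠ rotInv m β := by
        intro h'
        exact e2 (rotInv_inj hm (by omega) hb (h'.symm.trans h.symm))
      rw [l5 a (Ne.symm e1) e3 (by omega)]
      refine ⟨?_, rfl, fun β' => by simp [gad]⟩
      rw [l2]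
      rintro (h' | h')
      · exact e1 h'.symm
      · exact e3 h'
  · simp [gad] at hg
  · simp [gad] at hg
  · simp [vt] at hvt
  all_goals simp [gad] at hg

theorem hgL_last (hm : 5 ≤ m) {a b : ℕ} (hb : b + 1 = m) :
    ∀ κ β, Valid m κ → vt κ = false → gad m κ = .L1 β → β ≠ a → β ≠ b →
      ¬ ex4 m κ b ∧ vt (tab m κ b) = false ∧ ∀ β', gad m (tab m κ b) ≠ .L1 β' := by
  intro κ β hv hvt hg e1 e2
  rcases κ with _ | ⟨c0, t, i, j⟩ | ⟨i, j⟩ | i | i | ⟨k, i⟩ | k | k
  · simp [gad] at hg
  · cases t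
    · simp [gad] at hg
    · obtain ⟨l1, l2, l3, l4, l5⟩ := lab hm hv (by rw [hg]; simp)
      rw [hg] at l1 l2
      simp only [gb] at l1 l2
      have e3 : tab m (.cl c0 true i j) b = .cl c0 false i j := by simp [tab, hb]
      rw [e3]
      refine ⟨?_, rfl, fun β' => by simp [gad]⟩
      rw [l2]
      have := rotInv_spec m β
      omega
  · simp [gad] at hg
  · simp [gad] at hg
  · simp [vt] at hvt
  all_goals simp [gad] at hg

theorem step_G_mixed (hm : 5 ≤ m) (hG : Good m e f kd) {P : W × Bool → Prop} {a b : ℕ}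
    (ha : a < m) (hb : b < m) (hab : a ≠ b)
    (h1 : InvG (m + 1) (nf m f kd) (nkd m kd) P a)
    (h2 : InvG (m + 1) (nf m f kd) (nkd m kd) P b)
    (h3 : InvG (m + 1) (nf m f kd) (nkd m kd) P m) (v w : W × Bool)
    (hv : vt (nkd m kd v) = false) (hw : vt (nkd m kd w) = false) : P v ↔ P w := by
  have ra := rotInv_spec m a
  have rb := rotInv_spec m b
  by_cases a1 : a + 1 = m
  · have g0 := gcopy hm hG ha h1 false
    have g1 := gcopy hm hG ha h1 true
    simp only [df, Bool.false_eq_true, if_false, if_true, ra.1 a1] at g0 g1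
    exact step_G_mixed2 hm hG (by omega) ha hab.symm (by omega) g0 g1 (hgL_last hm a1) ha
      h2 h1 h3 v w hv hw
  by_cases b1 : b + 1 = m
  · have g0 := gcopy hm hG hb h2 false
    have g1 := gcopy hm hG hb h2 true
    simp only [df, Bool.false_eq_true, if_false, if_true, rb.1 b1] at g0 g1
    exact step_G_mixed2 hm hG (by omega) hb hab (by omega) g0 g1 (hgL_last hm b1) hb
      h1 h2 h3 v w hv hw
  by_cases h4 : rotInv m a = b
  · have g0 := gcopy hm hG hb h2 false
    have g1 := gcopy hm hG ha h1 true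
    simp only [df, Bool.false_eq_true, if_false, if_true, h4] at g0 g1
    exact step_G_mixed2 hm hG (by omega) ha hab.symm (by omega) g0 g1
      (hgL_rot hm (by omega) ha h4) hb h2 h1 h3 v w hv hw
  by_cases h5 : rotInv m b = a
  · have g0 := gcopy hm hG ha h1 false
    have g1 := gcopy hm hG hb h2 true
    simp only [df, Bool.false_eq_true, if_false, if_true, h5] at g0 g1
    exact step_G_mixed2 hm hG (by omega) hb hab (by omega) g0 g1
      (hgL_rot hm (by omega) hb h5) ha h1 h2 h3 v w hv hw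
  exact step_G_mixed1 hm hG (by omega) (by omega) hab h4 h5 h1 h2 h3 v w hv hw

theorem step_G (hm : 5 ≤ m) (hG : Good m e f kd) (a b c : ℕ) (ha : a < m + 1) (hb : b < m + 1)
    (hc : c < m + 1) (hab : a ≠ b) (hac : a ≠ c) (hbc : b ≠ c) (P : W × Bool → Prop)
    (h1 : InvG (m + 1) (nf m f kd) (nkd m kd) P a)
    (h2 : InvG (m + 1) (nf m f kd) (nkd m kd) P b)
    (h3 : InvG (m + 1) (nf m f kd) (nkd m kd) P c) (v w : W × Bool)
    (hv : vt (nkd m kd v) = false) (hw : vt (nkd m kd w) = false) : P v ↔ P w := by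
  by_cases a1 : a = m
  · subst a1
    exact step_G_mixed hm hG (by omega) (by omega) hbc h2 h3 h1 v w hv hw
  by_cases b1 : b = m
  · subst b1
    exact step_G_mixed hm hG (by omega) (by omega) hac h1 h3 h2 v w hv hw
  by_cases c1 : c = m
  · subst c1
    exact step_G_mixed hm hG (by omega) (by omega) hab h1 h2 h3 v w hv hw
  exact step_G_pure hm hG (by omega) (by omega) (by omega) hab hac hbc h1 h2 h3 v w hv hw

/-! ### The connectivity statement for quadruples -/

theorem step_K_pure (hm : 5 ≤ m) (hG : Good m e f kd) {P : W × Bool → Prop} {a b c d : ℕ}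
    (ha : a < m) (hb : b < m) (hc : c < m) (hd : d < m) (hab : a ≠ b) (hac : a ≠ c)
    (had : a ≠ d) (hbc : b ≠ c) (hbd : b ≠ d) (hcd : c ≠ d)
    (h1 : InvK (nf m f kd) (nkd m kd) P a)
    (h2 : InvK (nf m f kd) (nkd m kd) P b)
    (h3 : InvK (nf m f kd) (nkd m kd) P c)
    (h4 : InvK (nf m f kd) (nkd m kd) P d) (v w : W × Bool)
    (hv : nkd m kd v = .free) (hw : nkd m kd w = .free) : P v ↔ P w := by
  have hs : ∀ s x y, kd x = .free → kd y = .free → (P (x, s) ↔ P (y, s)) := by
    intro s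
    exact hG.K _ _ _ _ (df_lt hm s ha) (df_lt hm s hb) (df_lt hm s hc) (df_lt hm s hd)
      (fun h => hab (df_inj hm s ha hb h)) (fun h => hac (df_inj hm s ha hc h))
      (fun h => had (df_inj hm s ha hd h)) (fun h => hbc (df_inj hm s hb hc h))
      (fun h => hbd (df_inj hm s hb hd h)) (fun h => hcd (df_inj hm s hc hd h)) _
      (kcopy hm ha h1 s) (kcopy hm hb h2 s) (kcopy hm hc h3 s) (kcopy hm hd h4 s)
  obtain ⟨x0, hx0⟩ := exists_free hm hG
  have att : ∀ x s, nk m (kd x) s = .free → (P (x, s) ↔ P (x0, s)) := by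
    intro x s hx
    by_cases hk : kd x = .free
    · exact hs s x x0 hk hx0
    · rcases esc_four hm (hG.valid x) s ha hb hc hd hab hac had hbc hbd hcd with h | h | h | h
      · obtain ⟨y, hy, hP⟩ := kesc hG h1 hk hx h
        exact hP.trans (hs s y x0 hy hx0)
      · obtain ⟨y, hy, hP⟩ := kesc hG h2 hk hx h
        exact hP.trans (hs s y x0 hy hx0)
      · obtain ⟨y, hy, hP⟩ := kesc hG h3 hk hx h
        exact hP.trans (hs s y x0 hy hx0)
      · obtain ⟨y, hy, hP⟩ := kesc hG h4 hk hx h
        exact hP.trans (hs s y x0 hy hx0)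
  have link : ∀ β, β < m → β ≠ 1 → β + 2 ≠ m →
      InvK (nf m f kd) (nkd m kd) P β → (P (x0, false) ↔ P (x0, true)) := by
    intro β hβ hβ1 hβ2 hinv
    obtain ⟨κ, k1, k2, k3⟩ := exists_L1 hm hβ hβ1 hβ2
    obtain ⟨x1, hx1⟩ := hG.ex κ k1 k2
    have n1 : ∀ s, nk m (kd x1) s = .free := by
      intro s; rw [hx1]; exact nk_L1 (by rw [k3]; simp) s
    have g1 : P (x1, false) ↔ P (x1, true) := by
      refine kvert hinv (n1 _) (n1 _) ?_
      rw [hx1, k3]; exact mu_beta hβ false
    exact ((att x1 false (n1 _)).symm.trans g1).trans (att x1 true (n1 _))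
  have hlink : P (x0, false) ↔ P (x0, true) := by
    have : (a ≠ 1 ∧ a + 2 ≠ m) ∨ (b ≠ 1 ∧ b + 2 ≠ m) ∨ (c ≠ 1 ∧ c + 2 ≠ m) := by omega
    rcases this with h | h | h
    · exact link a ha h.1 h.2 h1
    · exact link b hb h.1 h.2 h2
    · exact link c hc h.1 h.2 h3
  have fin : ∀ v : W × Bool, nkd m kd v = .free → (P v ↔ P (x0, false)) := by
    rintro ⟨x, s⟩ hx
    cases s
    · exact att x false hx
    · exact (att x true hx).trans hlink.symm
  exact (fin v hv).trans (fin w hw).symm

/-- Three colours are not closed under the rotation. -/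
theorem three_of (hm : 5 ≤ m) {a b c : ℕ} (ha : a < m) (hb : b < m) (hc : c < m) (hab : a ≠ b)
    (hac : a ≠ c) (hbc : b ≠ c) :
    ∃ r, (r = a ∨ r = b ∨ r = c) ∧ rotInv m r ≠ a ∧ rotInv m r ≠ b ∧ rotInv m r ≠ c := by
  by_contra hcon
  push Not at hcon
  have key : ∀ r, r < m → (rotInv m r = r ∧ r + 1 = m) ∨ (rotInv m r = m - 2 ∧ r = 0) ∨
      (rotInv m r = r - 1 ∧ 1 ≤ r ∧ r + 2 ≤ m) := by
    intro r hr
    have := rotInv_spec m r
    omega
  have ka : rotInv m a = a ∨ rotInv m a = b ∨ rotInv m a = c := by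
    have := hcon a (Or.inl rfl); tauto
  have kb : rotInv m b = a ∨ rotInv m b = b ∨ rotInv m b = c := by
    have := hcon b (Or.inr (Or.inl rfl)); tauto
  have kc : rotInv m c = a ∨ rotInv m c = b ∨ rotInv m c = c := by
    have := hcon c (Or.inr (Or.inr rfl)); tauto
  clear hcon
  rcases key a ha with ⟨h1, h1'⟩ | ⟨h1, h1'⟩ | ⟨h1, h1'⟩ <;>
    rcases key b hb with ⟨h2, h2'⟩ | ⟨h2, h2'⟩ | ⟨h2, h2'⟩ <;>
    rcases key c hc with ⟨h3, h3'⟩ | ⟨h3, h3'⟩ | ⟨h3, h3'⟩ <;>
    rw [h1] at ka <;> rw [h2] at kb <;> rw [h3] at kc <;> clear h1 h2 h3 key <;> omega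

theorem step_K_mixed (hm : 5 ≤ m) (hG : Good m e f kd) {P : W × Bool → Prop} {a b c : ℕ}
    (ha : a < m) (hb : b < m) (hc : c < m) (hab : a ≠ b) (hac : a ≠ c) (hbc : b ≠ c)
    (h1 : InvK (nf m f kd) (nkd m kd) P a)
    (h2 : InvK (nf m f kd) (nkd m kd) P b)
    (h3 : InvK (nf m f kd) (nkd m kd) P c)
    (h4 : InvK (nf m f kd) (nkd m kd) P m) (v w : W × Bool)
    (hv : nkd m kd v = .free) (hw : nkd m kd w = .free) : P v ↔ P w := by
  have vf : ∀ x, kd x = .free → (P (x, false) ↔ P (x, true)) := by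
    intro x hx
    refine kvert h4 (by rw [hx]; rfl) (by rw [hx]; rfl) ?_
    exact mu_m (by rw [hx]; simp [gad]) false
  have tr : ∀ r, r < m → InvK (nf m f kd) (nkd m kd) P r →
      InvK f kd (fun x => P (x, false)) r ∧ InvK f kd (fun x => P (x, false)) (rotInv m r) := by
    intro r hr h
    refine ⟨kcopy hm hr h false, ?_⟩
    intro x hx hy
    exact ((vf x hx).trans (kcopy hm hr h true x hx hy)).trans (vf _ hy).symm
  have hs0 : ∀ x y, kd x = .free → kd y = .free → (P (x, false) ↔ P (y, false)) := by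
    obtain ⟨r, hr, r1, r2, r3⟩ := three_of hm ha hb hc hab hac hbc
    have hr' : r < m ∧ InvK (nf m f kd) (nkd m kd) P r := by
      rcases hr with h | h | h <;> subst h
      · exact ⟨ha, h1⟩
      · exact ⟨hb, h2⟩
      · exact ⟨hc, h3⟩
    exact hG.K a b c (rotInv m r) ha hb hc (rotInv_lt hm hr'.1) hab hac r1.symm hbc r2.symm
      r3.symm _ (tr a ha h1).1 (tr b hb h2).1 (tr c hc h3).1 (tr r hr'.1 hr'.2).2
  obtain ⟨x0, hx0⟩ := exists_free hm hG
  have fr : ∀ y s, kd y = .free → (P (y, s) ↔ P (x0, false)) := by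
    intro y s hy
    cases s
    · exact hs0 y x0 hy hx0
    · exact (vf y hy).symm.trans (hs0 y x0 hy hx0)
  have es : ∀ x s r, InvK (nf m f kd) (nkd m kd) P r → kd x ≠ .free → nk m (kd x) s = .free →
      esc m (kd x) s r → (P (x, s) ↔ P (x0, false)) := by
    intro x s r hr hne hx h
    obtain ⟨y, hy, hP⟩ := kesc hG hr hne hx h
    exact hP.trans (fr y s hy)
  -- two of the three colours are different from the newest one
  obtain ⟨p, q, hp, hq, hpq, ip, iq⟩ : ∃ p q, p + 1 < m ∧ q + 1 < m ∧ p ≠ q ∧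
      InvK (nf m f kd) (nkd m kd) P p ∧ InvK (nf m f kd) (nkd m kd) P q := by
    by_cases a1 : a + 1 = m
    · exact ⟨b, c, by omega, by omega, hbc, h2, h3⟩
    · by_cases b1 : b + 1 = m
      · exact ⟨a, c, by omega, by omega, hac, h1, h3⟩
      · exact ⟨a, b, by omega, by omega, hab, h1, h2⟩
  have fin : ∀ v : W × Bool, nkd m kd v = .free → (P v ↔ P (x0, false)) := by
    rintro ⟨x, s⟩ hx
    rw [nkd_eq] at hx
    by_cases hne : kd x = .free
    · exact fr x s hne
    · by_cases hk : vt (kd x) = true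
      · exact es x s p ip hne hx (esc_small hm (hG.valid x) hk s hp)
      · have hboth : ∀ s, nk m (kd x) s = .free := by
          have hv := hG.valid x
          revert hx hne hk
          generalize kd x = κ
          intro hne hk hx
          rcases κ with _ | ⟨c0, t, i, j⟩ | ⟨i, j⟩ | i | i | ⟨k, i⟩ | k | k <;>
            simp_all [nk, vt]
        have hvert : (P (x, false) ↔ P (x, true)) → (P (x, s) ↔ P (x0, false)) := by
          intro hP
          obtain ⟨s', hs'⟩ := esc_two hm (hG.valid x) hp hq hpq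
          have : P (x, s') ↔ P (x0, false) := by
            rcases hs' with h | h
            · exact es x s' p ip hne (hboth s') h
            · exact es x s' q iq hne (hboth s') h
          cases s <;> cases s' <;> tauto
        by_cases hg : ∃ β, gad m (kd x) = .L1 β
        · obtain ⟨β, hβ⟩ := hg
          by_cases e1 : p = β
          · refine hvert (kvert ip (hboth _) (hboth _) ?_)
            rw [hβ, ← e1]; exact mu_beta (by omega) false
          · by_cases e2 : q = β
            · refine hvert (kvert iq (hboth _) (hboth _) ?_)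
              rw [hβ, ← e2]; exact mu_beta (by omega) false
            · rcases esc_L1 hm (hG.valid x) s hβ hp hq hpq e1 e2 with h | h
              · exact es x s p ip hne hx h
              · exact es x s q iq hne hx h
        · push Not at hg
          exact hvert (kvert h4 (hboth _) (hboth _) (mu_m hg false))
  exact (fin v hv).trans (fin w hw).symm

theorem step_K (hm : 5 ≤ m) (hG : Good m e f kd) (a b c d : ℕ) (ha : a < m + 1) (hb : b < m + 1)
    (hc : c < m + 1) (hd : d < m + 1) (hab : a ≠ b) (hac : a ≠ c)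
    (had : a ≠ d) (hbc : b ≠ c) (hbd : b ≠ d) (hcd : c ≠ d) (P : W × Bool → Prop)
    (h1 : InvK (nf m f kd) (nkd m kd) P a)
    (h2 : InvK (nf m f kd) (nkd m kd) P b)
    (h3 : InvK (nf m f kd) (nkd m kd) P c)
    (h4 : InvK (nf m f kd) (nkd m kd) P d) (v w : W × Bool)
    (hv : nkd m kd v = .free) (hw : nkd m kd w = .free) : P v ↔ P w := by
  by_cases a1 : a = m
  · subst a1
    exact step_K_mixed hm hG (by omega) (by omega) (by omega) hbc hbd hcd h2 h3 h4 h1 v w hv hw
  by_cases b1 : b = m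
  · subst b1
    exact step_K_mixed hm hG (by omega) (by omega) (by omega) hac had hcd h1 h3 h4 h2 v w hv hw
  by_cases c1 : c = m
  · subst c1
    exact step_K_mixed hm hG (by omega) (by omega) (by omega) hab had hbd h1 h2 h4 h3 v w hv hw
  by_cases d1 : d = m
  · subst d1
    exact step_K_mixed hm hG (by omega) (by omega) (by omega) hab hac hbc h1 h2 h3 h4 v w hv hw
  exact step_K_pure hm hG (by omega) (by omega) (by omega) (by omega) hab hac had hbc hbd hcd
    h1 h2 h3 h4 v w hv hw

end Pool.Agent.Helper243.RD
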