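import Pool.Agent.Helper243.RDefs

set_option autoImplicit false

namespace Pool.Agent.Helper243.RD

/-- validity of gadgets -/
def GV (m : ℕ) : Gad → Prop
  | .none => True
  | .L1 β => β < m
  | .L2 β => β < m

theorem gv {m : ℕ} (hm : 5 ≤ m) {κ : Kind} : GV m (gad m κ) := by
  rcases κ with _ | ⟨c0, t, i, j⟩ | ⟨i, j⟩ | i | i | ⟨k, i⟩ | k | k <;>
    simp only [gad, GV]
  · split_ifs <;> simp only <;> omega
  · omega

theorem mu_le {m : ℕ} (hm : 5 ≤ m) {g : Gad} (hv : GV m g) (s : Bool) {c : ℕ} (hc : c ≤ m) :
    mu m g s c ≤ m := by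
  rcases g with _ | β | β <;> cases s <;>
    simp only [mu, rot, rotInv, GV] at * <;> split_ifs <;> omega

theorem mu_inj {m : ℕ} (hm : 5 ≤ m) {g : Gad} (hv : GV m g) (s : Bool) {c c' : ℕ}
    (hc : c ≤ m) (hc' : c' ≤ m) (h : mu m g s c = mu m g s c') : c = c' := by
  rcases g with _ | β | β <;> cases s <;>
    simp only [mu, rot, rotInv, GV, if_true, if_false, Bool.false_eq_true] at * <;> split_ifs at h <;> omega

theorem mu_vert {m : ℕ} (hm : 5 ≤ m) {g : Gad} (hv : GV m g) (s : Bool) {c : ℕ}
    (hc : c ≤ m) (h : mu m g s c = m) : mu m g (!s) c = m := by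
  rcases g with _ | β | β <;> cases s <;>
    simp only [mu, rot, rotInv, GV, if_true, if_false, Bool.false_eq_true, Bool.not_true,
      Bool.not_false] at * <;>
    split_ifs at h ⊢ <;> omega


/-- the other gadget of a 4-cycle -/
def flipG : Gad → Gad
  | .none => .none
  | .L1 β => .L2 β
  | .L2 β => .L1 β

/-- the colour of a gadget -/
def gb : Gad → ℕ
  | .none => 0
  | .L1 β => β
  | .L2 β => β

theorem lab {m : ℕ} (hm : 5 ≤ m) {c : ℕ} {i j : Bool} (hv : c + 3 ≤ m)
    (h : gad m (.cl c true i j) ≠ .none) :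
    gb (gad m (.cl c true i j)) + 1 < m ∧
    (∀ r, ex4 m (.cl c true i j) r ↔
      r = gb (gad m (.cl c true i j)) ∨ r = rotInv m (gb (gad m (.cl c true i j)))) ∧
    gad m (tab m (.cl c true i j) (gb (gad m (.cl c true i j)))) = gad m (.cl c true i j) ∧
    gad m (tab m (.cl c true i j) (rotInv m (gb (gad m (.cl c true i j))))) =
      flipG (gad m (.cl c true i j)) ∧
    (∀ r, r ≠ gb (gad m (.cl c true i j)) → r ≠ rotInv m (gb (gad m (.cl c true i j))) →
      r + 1 ≠ m → tab m (.cl c true i j) r = .free) := by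
  by_cases h1 : c + 5 ≤ m
  · have e1 : rp m c = c + 1 := by unfold rp; split_ifs <;> omega
    have e2 : rp m (c + 1) = c + 2 := by unfold rp; split_ifs <;> omega
    have e3 : rotInv m (c + 2) = c + 1 := by
      unfold rotInv; rw [if_neg (by omega), if_neg (by omega)]; omega
    have e4 : gb (gad m (.cl c true i j)) = c + 2 := by
      cases i <;> simp [gad, h1, gb]
    rw [e4, e3]
    refine ⟨by omega, ?_, ?_, ?_, ?_⟩
    · intro r; simp only [ex4, e1, e2, if_true]; omega
    · have : tab m (.cl c true i j) (c + 2) = .cl c true i (!j) := by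
        simp only [tab, e1, e2, if_true]; split_ifs <;> first | rfl | omega
      rw [this]; simp [gad, h1]
    · have : tab m (.cl c true i j) (c + 1) = .cl c true (!i) j := by
        simp only [tab, e1, e2, if_true]; split_ifs <;> first | rfl | omega
      rw [this]; cases i <;> simp [gad, h1, flipG]
    · intro r h2 h3 h4
      simp only [tab, e1, e2, if_true]; split_ifs <;> first | rfl | omega
  · by_cases h2 : c + 3 = m
    · have e1 : rp m c = 0 := by unfold rp; split_ifs <;> omega
      have e2 : rp m (c + 1) = c + 1 := by unfold rp; split_ifs <;> omega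
      have e3 : rotInv m 0 = c + 1 := by
        unfold rotInv; rw [if_neg (by omega), if_pos rfl]; omega
      have e4 : gb (gad m (.cl c true i j)) = 0 := by
        cases j <;> simp [gad, h1, h2, gb]
      rw [e4, e3]
      refine ⟨by omega, ?_, ?_, ?_, ?_⟩
      · intro r; simp only [ex4, e1, e2, if_true]
      · have : tab m (.cl c true i j) 0 = .cl c true (!i) j := by
          simp only [tab, e1, e2, if_true]; split_ifs <;> first | rfl | omega
        rw [this]; simp [gad, h1, h2]
      · have : tab m (.cl c true i j) (c + 1) = .cl c true i (!j) := by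
          simp only [tab, e1, e2, if_true]
          rw [if_neg (by omega), if_neg (by omega)]
        rw [this]; cases j <;> simp [gad, h1, h2, flipG]
      · intro r h2 h3 h4
        simp only [tab, e1, e2, if_true]; split_ifs <;> first | rfl | omega
    · exfalso; apply h; simp [gad, h1, h2]

theorem tab_free_cl {m : ℕ} {c : ℕ} {i j : Bool} {r : ℕ} (h : tab m (.cl c true i j) r = .free) :
    r + 1 ≠ m ∧ ¬ ex4 m (.cl c true i j) r := by
  simp only [tab, ex4, if_true] at *
  split_ifs at h
  exact ⟨by assumption, by tauto⟩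

theorem rot_rotInv {m : ℕ} (hm : 5 ≤ m) {c : ℕ} (hc : c < m) : rot m (rotInv m c) = c := by
  unfold rot rotInv; split_ifs <;> omega

theorem rotInv_rot {m : ℕ} (hm : 5 ≤ m) {c : ℕ} (hc : c < m) : rotInv m (rot m c) = c := by
  unfold rot
  split_ifs with h1 h2
  · unfold rotInv; simp [h1]
  · unfold rotInv; rw [if_neg (by omega), if_pos rfl]; omega
  · unfold rotInv; rw [if_neg (by omega), if_neg (by omega)]; omega

theorem rotInv_lt {m : ℕ} (hm : 5 ≤ m) {c : ℕ} (hc : c < m) : rotInv m c < m := by
  unfold rotInv; split_ifs <;> omega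

theorem rot_lt {m : ℕ} (hm : 5 ≤ m) {c : ℕ} (hc : c < m) : rot m c < m := by
  unfold rot; split_ifs <;> omega

theorem rot_last {m : ℕ} {c : ℕ} (hc : c + 1 = m) : rot m c = c := by
  unfold rot; simp [hc]

theorem rotInv_last {m : ℕ} {c : ℕ} (hc : c + 1 = m) : rotInv m c = c := by
  unfold rotInv; simp [hc]

theorem mu_last {m : ℕ} (hm : 5 ≤ m) {g : Gad} (hg : g ≠ .none → gb g + 1 < m) (s : Bool) {c : ℕ}
    (hc : c + 1 = m) : mu m g s c = c := by
  rcases g with _ | β | β <;> cases s <;>
    simp only [mu, rot, rotInv, gb, if_true, if_false, Bool.false_eq_true, ne_eq, reduceCtorEq,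
      not_false_eq_true, forall_const, not_true_eq_false] at * <;> split_ifs <;> omega

theorem mu_free {m : ℕ} (hm : 5 ≤ m) {κ : Kind} (hv : Valid m κ) (h0 : κ ≠ .free) (s : Bool)
    {c : ℕ} (hc : c ≤ m) {r : ℕ} (hr : mu m .none s c = r) (hrm : r < m)
    (ht : tab m κ r = .free) : mu m (gad m κ) s c = r := by
  rcases κ with _ | ⟨c0, t, i, j⟩ | ⟨i, j⟩ | i | i | ⟨k, i⟩ | k | k
  · exact absurd rfl h0
  · cases t
    · exact hr
    · by_cases hg : gad m (.cl c0 true i j) = .none
      · rw [hg]; exact hr
      · obtain ⟨l1, l2, -⟩ := lab hm hv hg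
        obtain ⟨t1, t2⟩ := tab_free_cl ht
        rw [l2] at t2
        generalize gad m (.cl c0 true i j) = g at *
        have hcm : c < m := by
          rcases Nat.lt_or_ge c m with h | h
          · exact h
          · have : c = m := by omega
            subst this; simp [mu] at hr; omega
        have hne : c ≠ m := by omega
        rcases g with _ | β | β
        · exact hr
        all_goals
          cases s
          · simp only [mu, hne, if_false, Bool.false_eq_true] at hr
            subst hr
            simp only [gb] at t2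
            have : c ≠ β := fun h => t2 (Or.inl h)
            simp [mu, hne, this]
          · simp only [mu, hne, if_false, if_true] at hr
            subst hr
            simp only [gb] at t2 l1
            have h1 : c ≠ β := fun h => t2 (Or.inr (by rw [h]))
            have h2 : c ≠ rot m β := fun h => t2 (Or.inl (by rw [h, rotInv_rot hm (by omega)]))
            simp [mu, hne, h1, h2]
  · exact hr
  · exact hr
  · cases s <;> simp only [mu, tab, gad, rot, rotInv, if_true, if_false, Bool.false_eq_true] at * <;>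
      split_ifs at * <;> omega
  all_goals exact hr

theorem rot_spec (m c : ℕ) : (c + 1 = m → rot m c = c) ∧ (c + 2 = m → rot m c = 0) ∧
    (c + 1 ≠ m → c + 2 ≠ m → rot m c = c + 1) := by
  refine ⟨?_, ?_, ?_⟩
  · intro h; simp [rot, h]
  · intro h
    unfold rot; rw [if_neg (by omega), if_pos h]
  · intro h1 h2; simp [rot, h1, h2]

theorem rotInv_spec (m c : ℕ) : (c + 1 = m → rotInv m c = c) ∧
    (c + 1 ≠ m → c = 0 → rotInv m c = m - 2) ∧
    (c + 1 ≠ m → c ≠ 0 → rotInv m c = c - 1) := by
  refine ⟨?_, ?_, ?_⟩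
  · intro h; simp [rotInv, h]
  · intro h1 h2; subst h2; unfold rotInv; rw [if_neg (by omega), if_pos rfl]
  · intro h1 h2; simp [rotInv, h1, h2]

theorem mu_none_f (m c : ℕ) : mu m .none false c = c := by
  by_cases h : c = m <;> simp [mu, h]

theorem mu_none_t (m c : ℕ) : (c = m → mu m .none true c = m) ∧
    (c ≠ m → mu m .none true c = rotInv m c) := by
  by_cases h : c = m <;> simp [mu, h]

theorem mu_L1_f (m β c : ℕ) : (c = m → mu m (.L1 β) false c = β) ∧
    (c ≠ m → c = β → mu m (.L1 β) false c = m) ∧
    (c ≠ m → c ≠ β → mu m (.L1 β) false c = c) := by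
  refine ⟨?_, ?_, ?_⟩
  · intro h; simp [mu, h]
  · intro h1 h2; unfold mu; simp only [h1, if_false]; simp [h2]
  · intro h1 h2; simp [mu, h1, h2]

theorem mu_L1_t (m β c : ℕ) : (c = m → mu m (.L1 β) true c = β) ∧
    (c ≠ m → c = β → mu m (.L1 β) true c = m) ∧
    (c ≠ m → c ≠ β → c = rot m β → mu m (.L1 β) true c = rotInv m β) ∧
    (c ≠ m → c ≠ β → c ≠ rot m β → mu m (.L1 β) true c = rotInv m c) := by
  refine ⟨?_, ?_, ?_, ?_⟩
  · intro h; simp [mu, h]
  · intro h1 h2; unfold mu; simp only [h1, if_false]; simp [h2]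
  · intro h1 h2 h3; unfold mu; simp only [h1, h2, if_false, if_true]; simp [h3]
  · intro h1 h2 h3; simp [mu, h1, h2, h3]

theorem mu_L2_f (m β c : ℕ) : mu m (.L2 β) false c = c := by
  by_cases h : c = m <;> simp [mu, h]

theorem mu_L2_t (m β c : ℕ) : (c = m → mu m (.L2 β) true c = m) ∧
    (c ≠ m → c = β → mu m (.L2 β) true c = β) ∧
    (c ≠ m → c ≠ β → c = rot m β → mu m (.L2 β) true c = rotInv m β) ∧
    (c ≠ m → c ≠ β → c ≠ rot m β → mu m (.L2 β) true c = rotInv m c) := by
  refine ⟨?_, ?_, ?_, ?_⟩
  · intro h; simp [mu, h]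
  · intro h1 h2; unfold mu; simp only [h1, if_false]; simp [h2]
  · intro h1 h2 h3; unfold mu; simp only [h1, h2, if_false, if_true]; simp [h3]
  · intro h1 h2 h3; simp [mu, h1, h2, h3]

theorem rotInv_ne {m : ℕ} (hm : 5 ≤ m) {c : ℕ} (hc : c + 1 < m) : rotInv m c ≠ c := by
  have := rotInv_spec m c; omega

theorem rotInv_inj {m : ℕ} (hm : 5 ≤ m) {c c' : ℕ} (hc : c < m) (hc' : c' < m)
    (h : rotInv m c = rotInv m c') : c = c' := by
  have := rotInv_spec m c; have := rotInv_spec m c'; omega

theorem mu_flip {m : ℕ} (hm : 5 ≤ m) {g : Gad} (hg : g ≠ .none) (hb : gb g + 1 < m) (s : Bool)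
    {c : ℕ} (hc : c ≤ m) (hr : mu m g s c = rotInv m (gb g)) :
    mu m (flipG g) s c = rotInv m (gb g) := by
  have r1 := rotInv_lt hm (c := gb g) (by omega)
  have r2 := rotInv_ne hm (c := gb g) (by omega)
  rcases g with _ | β | β <;> cases s <;> simp only [gb, flipG] at *
  · exact absurd rfl hg
  · exact absurd rfl hg
  · have h1 := mu_L1_f m β c
    have h2 := mu_L2_f m β c
    omega
  · obtain ⟨h1, h2, h3, h4⟩ := mu_L2_t m β c
    obtain ⟨k1, k2, k3, k4⟩ := mu_L1_t m β c
    by_cases c1 : c = m
    · have := k1 c1; omega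
    · by_cases c2 : c = β
      · have := k2 c1 c2; omega
      · by_cases c3 : c = rot m β
        · exact h3 c1 c2 c3
        · have h5 := k4 c1 c2 c3
          exact absurd (rotInv_inj hm (by omega) (by omega) (h5.symm.trans hr)) c2
  · have h1 := mu_L1_f m β c
    have h2 := mu_L2_f m β c
    omega
  · obtain ⟨h1, h2, h3, h4⟩ := mu_L1_t m β c
    obtain ⟨k1, k2, k3, k4⟩ := mu_L2_t m β c
    by_cases c1 : c = m
    · have := k1 c1; omega
    · by_cases c2 : c = β
      · have := k2 c1 c2; omega
      · by_cases c3 : c = rot m β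
        · exact h3 c1 c2 c3
        · have h5 := k4 c1 c2 c3
          exact absurd (rotInv_inj hm (by omega) (by omega) (h5.symm.trans hr)) c2

theorem mu_else {m : ℕ} (hm : 5 ≤ m) {g : Gad} (hb : gb g < m) (s : Bool)
    {c : ℕ} (hc : c ≤ m) {r : ℕ} (hr : mu m g s c = r) (h1 : r < m) (h2 : r ≠ gb g)
    (h3 : r ≠ rotInv m (gb g)) :
    mu m .none s c = r := by
  have r1 := rotInv_spec m c
  have r2 := rotInv_spec m (gb g)
  have r3 := rot_spec m (gb g)
  rcases g with _ | β | β <;> cases s <;> simp only [gb] at *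
  · exact hr
  · exact hr
  · have h1 := mu_L1_f m β c
    have h2 := mu_none_f m c
    omega
  · have h1 := mu_L1_t m β c
    have h2 := mu_none_t m c
    omega
  · have h1 := mu_L2_f m β c
    have h2 := mu_none_f m c
    omega
  · have h1 := mu_L2_t m β c
    have h2 := mu_none_t m c
    omega

theorem gad_tab_none {m : ℕ} {c : ℕ} {i j : Bool} (h : gad m (.cl c true i j) = .none) (r : ℕ) :
    gad m (tab m (.cl c true i j) r) = .none := by
  have h1 : ¬ c + 5 ≤ m := by
    intro h1; cases i <;> simp [gad, h1] at h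
  have h2 : ¬ c + 3 = m := by
    intro h2; cases j <;> simp [gad, h1, h2] at h
  simp only [tab, if_true]
  split_ifs <;> simp [gad, h1, h2]

theorem mu_tab {m : ℕ} (hm : 5 ≤ m) {κ : Kind} (hv : Valid m κ) (s : Bool)
    {c : ℕ} (hc : c ≤ m) {r : ℕ} (hr : mu m (gad m κ) s c = r) (hrm : r < m) :
    mu m (gad m (tab m κ r)) s c = r := by
  rcases κ with _ | ⟨c0, t, i, j⟩ | ⟨i, j⟩ | i | i | ⟨k, i⟩ | k | k
  · exact hr
  · cases t
    · by_cases h1 : r + 1 = m
      · have h2 : c + 1 = m := by
          have : mu m .none s r = r := mu_last hm (by simp) s h1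
          have := mu_inj hm (g := .none) trivial s hc (by omega) (hr.trans this.symm)
          omega
        have h3 : tab m (.cl c0 false i j) r = .cl c0 true i j := by
          simp [tab, h1]
        rw [h3, mu_last hm (fun h => (lab hm hv h).1) s h2]; omega
      · have h3 : gad m (tab m (.cl c0 false i j) r) = .none := by
          simp only [tab, h1, if_false, Bool.false_eq_true]
          split_ifs <;> simp [gad]
        rw [h3]; exact hr
    · by_cases hg : gad m (.cl c0 true i j) = .none
      · rw [gad_tab_none hg]; rw [hg] at hr; exact hr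
      · obtain ⟨l1, l2, l3, l4, l5⟩ := lab hm hv hg
        by_cases h1 : r + 1 = m
        · have h2 : c + 1 = m := by
            have : mu m (gad m (.cl c0 true i j)) s r = r := mu_last hm (fun _ => l1) s h1
            have := mu_inj hm (gv hm) s hc (by omega) (hr.trans this.symm)
            omega
          have h3 : tab m (.cl c0 true i j) r = .cl c0 false i j := by
            simp [tab, h1]
          rw [h3]
          have : mu m .none s c = c := mu_last hm (by simp) s h2
          show mu m .none s c = r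
          rw [this]; omega
        · by_cases h2 : r = gb (gad m (.cl c0 true i j))
          · rw [h2, l3, ← h2]; exact hr
          · by_cases h3 : r = rotInv m (gb (gad m (.cl c0 true i j)))
            · rw [h3] at hr
              rw [h3, l4]; exact mu_flip hm hg l1 s hc hr
            · rw [l5 r h2 h3 h1]
              exact mu_else hm (by omega) s hc hr hrm h2 h3
  · have h3 : gad m (tab m (.C i j) r) = .none := by
      simp only [tab]; split_ifs <;> simp [gad]
    rw [h3]; exact hr
  · have h3 : gad m (tab m (.E i) r) = .none := by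
      simp only [tab]; split_ifs <;> simp [gad]
    rw [h3]; exact hr
  · by_cases h1 : r + 1 = m
    · have h3 : gad m (tab m (.Es i) r) = .L1 (m - 1) := by
        simp [tab, h1, gad]
      rw [h3]; exact hr
    · have h3 : tab m (.Es i) r = .free := by simp [tab, h1]
      rw [h3]
      refine mu_else hm (g := .L1 (m - 1)) (by simp only [gb]; omega) s hc hr hrm ?_ ?_
      · simp only [gb]; omega
      · simp only [gb]; rw [rotInv_last (by omega)]; omega
  · have h3 : gad m (tab m (.B k i) r) = .none := by
      simp only [tab]; split_ifs <;> simp [gad]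
    rw [h3]; exact hr
  · exact hr
  · exact hr

end Pool.Agent.Helper243.RD
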