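import Pool.Agent.Helper243.RTab

set_option autoImplicit false

namespace Pool.Agent.Helper243.RD

theorem rp_spec (m c : ℕ) : (c + 2 = m → rp m c = c) ∧ (c + 3 = m → rp m c = 0) ∧
    (c + 2 ≠ m → c + 3 ≠ m → rp m c = c + 1) := by
  refine ⟨?_, ?_, ?_⟩
  · intro h; simp [rp, h]
  · intro h
    unfold rp; rw [if_neg (by omega), if_pos h]
  · intro h1 h2; simp [rp, h1, h2]

theorem rp_succ (m c : ℕ) : rp (m + 1) c = rot m c := by
  have h1 := rp_spec (m + 1) c
  have h2 := rot_spec m c
  omega

theorem rotInv_eq_iff {m : ℕ} (hm : 5 ≤ m) {c d : ℕ} (hc : c < m) (hd : d < m) :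
    rotInv m c = d ↔ c = rot m d := by
  constructor
  · intro h; rw [← h, rot_rotInv hm hc]
  · intro h; rw [h, rotInv_rot hm hd]

theorem tab_step {m : ℕ} (hm : 5 ≤ m) {κ : Kind} (hv : Valid m κ) (s : Bool) {c : ℕ}
    (hc : c ≤ m) (hk : nk m κ s ≠ .free) :
    (mu m (gad m κ) s c = m → nk m κ (!s) = tab (m + 1) (nk m κ s) c) ∧
    (mu m (gad m κ) s c ≠ m →
      nk m (tab m κ (mu m (gad m κ) s c)) s = tab (m + 1) (nk m κ s) c) := by
  have hn : gad m κ = .none := by
    rcases κ with _ | ⟨c0, t, i, j⟩ | ⟨i, j⟩ | i | i | ⟨k, i⟩ | k | k <;>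
      simp_all [nk, gad]
  rw [hn]
  have ec : mu m .none s c = m ↔ c = m := by
    cases s
    · rw [mu_none_f]
    · have h1 := mu_none_t m c
      have h2 := rotInv_spec m c
      omega
  rw [Ne, ec]
  have ec' : c ≠ m → mu m .none s c = if s = true then rotInv m c else c := by
    intro h; simp [mu, h]
  have ll : ∀ r, r ≠ m → (r + 1 = m + 1) = False := by
    intro r hr; simp [hr]
  rcases κ with _ | ⟨c0, t, i, j⟩ | ⟨i, j⟩ | i | i | ⟨k, i⟩ | k | k
  · exact absurd rfl hk
  · cases t
    · simp only [Valid] at hv
      refine ⟨fun h => by simp [nk, tab, h], fun h => ?_⟩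
      rw [ec' h]
      cases s
      · simp only [nk, tab, Bool.false_eq_true, if_false, ll c h]
        by_cases h1 : c + 1 = m
        · have h2 : c ≠ c0 := by omega
          have h3 : c ≠ c0 + 1 := by omega
          simp [h1, h2, h3]
        · simp only [h1, if_false]
          split_ifs <;> rfl
      · have hlt : c < m := by omega
        simp only [nk, tab, Bool.false_eq_true, if_false, ll c h, if_true, rp_succ]
        by_cases h1 : c + 1 = m
        · have h4 := rotInv_spec m c
          have h5 := rot_spec m c0
          have h6 := rot_spec m (c0 + 1)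
          have h2 : c ≠ rot m c0 := by omega
          have h3 : c ≠ rot m (c0 + 1) := by omega
          have h7 : rotInv m c + 1 = m := by omega
          simp [h2, h3, h7]
        · have h4 : rotInv m c + 1 ≠ m := by
            have := rotInv_spec m c; omega
          simp only [h4, if_false]
          have e1 := rotInv_eq_iff hm hlt (d := c0) (by omega)
          have e2 := rotInv_eq_iff hm hlt (d := c0 + 1) (by omega)
          simp only [e1, e2]
          split_ifs <;> rfl
    · simp [nk] at hk
  · refine ⟨fun h => by simp [nk, tab, h], fun h => ?_⟩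
    rw [ec' h]
    have hlt : c < m := by omega
    cases s
    · simp only [nk, tab, Bool.false_eq_true, if_false, ll c h]
      have e1 : (c + 2 = m) = (c = m - 2) := by
        apply propext; omega
      have e2 : (c + 1 = m) = (c = m - 2 + 1) := by
        apply propext; omega
      simp only [e1, e2]
      split_ifs <;> rfl
    · simp only [nk, tab, if_false, ll c h, if_true, rp_succ]
      have h4 := rotInv_spec m c
      have h5 := rot_spec m (m - 2)
      have h6 := rot_spec m (m - 2 + 1)
      have e1 : (rotInv m c + 2 = m) = (c = rot m (m - 2)) := by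
        apply propext; omega
      have e2 : (rotInv m c + 1 = m) = (c = rot m (m - 2 + 1)) := by
        apply propext; omega
      simp only [e1, e2]
      split_ifs <;> rfl
  · refine ⟨fun h => by subst h; simp [nk, tab], fun h => ?_⟩
    rw [ec' h]
    have e1 : ((if s = true then rotInv m c else c) + 1 = m) = (c + 2 = m + 1) := by
      have h4 := rotInv_spec m c
      apply propext; cases s <;> simp <;> omega
    simp only [nk, tab, e1, ll c h, if_false]
    split_ifs <;> rfl
  · simp [nk] at hk
  · refine ⟨fun h => ?_, fun h => ?_⟩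
    · cases s <;> cases i <;> simp_all [nk, tab]
    · simp only [tab]
      cases s <;> cases i <;> simp_all [nk, tab] <;> split_ifs <;> simp [nk]
  · refine ⟨fun h => ?_, fun h => ?_⟩
    · cases k <;> simp [nk, tab, h]
    · cases k <;> simp [nk, tab, h]
  · refine ⟨fun h => ?_, fun h => ?_⟩
    · simp [nk, tab, h]
    · simp [nk, tab, h]

end Pool.Agent.Helper243.RD
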