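import Pool.Agent.Helper243.RTabB

set_option autoImplicit false

namespace Pool.Agent.Helper243.RD

/-- The old colour matching the new colour `c` in copy `s`, away from the gadgets. -/
def df (m : ℕ) (s : Bool) (c : ℕ) : ℕ := if s = true then rotInv m c else c

theorem df_lt {m : ℕ} (hm : 5 ≤ m) (s : Bool) {c : ℕ} (hc : c < m) : df m s c < m := by
  cases s
  · simpa [df] using hc
  · simpa [df] using rotInv_lt hm hc

theorem df_inj {m : ℕ} (hm : 5 ≤ m) (s : Bool) {c c' : ℕ} (hc : c < m) (hc' : c' < m)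
    (h : df m s c = df m s c') : c = c' := by
  cases s
  · simpa [df] using h
  · exact rotInv_inj hm hc hc' (by simpa [df] using h)

theorem mu_none {m : ℕ} (s : Bool) {c : ℕ} (hc : c < m) : mu m .none s c = df m s c := by
  have : c ≠ m := by omega
  simp [mu, this, df]

theorem ex4_tab {m : ℕ} {κ : Kind} {r : ℕ} (h : ex4 m κ r) : tab m κ r ≠ .free := by
  rcases κ with _ | ⟨c0, t, i, j⟩ | ⟨i, j⟩ | i | i | ⟨k, i⟩ | k | k <;> simp only [ex4] at h
  · cases t
    · simp only [Bool.false_eq_true, if_false] at h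
      simp only [tab, Bool.false_eq_true, if_false]
      split_ifs <;> simp_all
    · simp only [if_true] at h
      simp only [tab, if_true]
      split_ifs <;> simp_all
  · simp only [tab]
    split_ifs <;> simp_all

theorem ex4_two {m : ℕ} (κ : Kind) : ∃ u v, ∀ r, ex4 m κ r → r = u ∨ r = v := by
  rcases κ with _ | ⟨c0, t, i, j⟩ | ⟨i, j⟩ | i | i | ⟨k, i⟩ | k | k <;> simp only [ex4]
  · exact ⟨0, 0, fun r h => h.elim⟩
  · cases t
    · exact ⟨c0, c0 + 1, fun r h => by simpa using h⟩
    · exact ⟨rp m c0, rp m (c0 + 1), fun r h => by simpa using h⟩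
  · exact ⟨m - 2, m - 1, fun r h => by omega⟩
  all_goals exact ⟨0, 0, fun r h => h.elim⟩

theorem vt_nk {m : ℕ} {κ : Kind} (h : vt κ = false) (s : Bool) : vt (nk m κ s) = false := by
  rcases κ with _ | ⟨c0, t, i, j⟩ | ⟨i, j⟩ | i | i | ⟨k, i⟩ | k | k <;> simp_all [vt, nk]
  cases t <;> simp

/-- away from the 4-cycle edges the colours are the default ones -/
theorem mu_df {m : ℕ} (hm : 5 ≤ m) {κ : Kind} (hv : Valid m κ) (s : Bool) {c : ℕ}
    (hc : c < m) (h : vt κ = false ∨ c + 1 ≠ m) (he : ¬ ex4 m κ (df m s c)) :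
    mu m (gad m κ) s c = df m s c := by
  rcases κ with _ | ⟨c0, t, i, j⟩ | ⟨i, j⟩ | i | i | ⟨k, i⟩ | k | k
  · exact mu_none s hc
  · cases t
    · exact mu_none s hc
    · by_cases hg : gad m (.cl c0 true i j) = .none
      · rw [hg]; exact mu_none s hc
      · obtain ⟨l1, l2, -⟩ := lab hm hv hg
        rw [l2] at he
        generalize gad m (.cl c0 true i j) = g at *
        push Not at he
        obtain ⟨e1, e2⟩ := he
        rcases g with _ | β | β
        · exact absurd rfl hg
        · cases s
          · simp only [df, gb, Bool.false_eq_true, if_false] at *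
            exact (mu_L1_f m β c).2.2 (by omega) e1
          · simp only [df, gb, if_true] at *
            refine (mu_L1_t m β c).2.2.2 (by omega) ?_ ?_
            · intro h; exact e2 (by rw [h])
            · intro h; exact e1 (by rw [h, rotInv_rot hm (by omega)])
        · cases s
          · simp only [df, gb, Bool.false_eq_true, if_false] at *
            exact mu_L2_f m β c
          · simp only [df, gb, if_true] at *
            refine (mu_L2_t m β c).2.2.2 (by omega) ?_ ?_
            · intro h; exact e2 (by rw [h])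
            · intro h; exact e1 (by rw [h, rotInv_rot hm (by omega)])
  · exact mu_none s hc
  · exact mu_none s hc
  · have h1 : c + 1 ≠ m := by
      rcases h with h | h
      · simp [vt] at h
      · exact h
    cases s
    · simp only [df, gad, Bool.false_eq_true, if_false] at *
      exact (mu_L1_f m _ c).2.2 (by omega) (by omega)
    · simp only [df, gad, if_true] at *
      refine (mu_L1_t m _ c).2.2.2 (by omega) (by omega) ?_
      rw [rot_last (by omega)]; omega
  all_goals exact mu_none s hc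

theorem ex4_nk {m : ℕ} (hm : 5 ≤ m) {κ : Kind} (hv : Valid m κ) (h : vt κ = false) (s : Bool)
    {c : ℕ} (hc : c < m) (he : ¬ ex4 m κ (df m s c)) : ¬ ex4 (m + 1) (nk m κ s) c := by
  rcases κ with _ | ⟨c0, t, i, j⟩ | ⟨i, j⟩ | i | i | ⟨k, i⟩ | k | k
  · simp [nk, ex4]
  · cases t
    · simp only [Valid] at hv
      cases s
      · simpa [nk, ex4, df] using he
      · simp only [nk, ex4, df, if_true, Bool.false_eq_true, if_false, rp_succ] at he ⊢
        rw [rotInv_eq_iff hm hc (by omega), rotInv_eq_iff hm hc (by omega)] at he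
        exact he
    · simp [nk, ex4]
  · cases s
    · simp only [nk, ex4, df, Bool.false_eq_true, if_false] at he ⊢
      omega
    · simp only [nk, ex4, df, if_true, rp_succ] at he ⊢
      have h4 := rotInv_spec m c
      have h5 := rot_spec m (m - 2)
      have h6 := rot_spec m (m - 2 + 1)
      omega
  all_goals simp [vt] at h

theorem mu_m {m : ℕ} {κ : Kind} (h : ∀ β, gad m κ ≠ .L1 β) (s : Bool) :
    mu m (gad m κ) s m = m := by
  generalize gad m κ = g at *
  rcases g with _ | β | β
  · simp [mu]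
  · exact absurd rfl (h β)
  · simp [mu]

theorem ex4_m {m : ℕ} (hm : 5 ≤ m) {κ : Kind} (hv : Valid m κ) (h : vt κ = false) (s : Bool) :
    ¬ ex4 (m + 1) (nk m κ s) m := by
  rcases κ with _ | ⟨c0, t, i, j⟩ | ⟨i, j⟩ | i | i | ⟨k, i⟩ | k | k
  · simp [nk, ex4]
  · cases t
    · simp only [Valid] at hv
      cases s
      · simp only [nk, ex4, Bool.false_eq_true, if_false]; omega
      · simp only [nk, ex4, if_true, Bool.false_eq_true, if_false, rp_succ]
        have h5 := rot_spec m c0
        have h6 := rot_spec m (c0 + 1)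
        omega
    · simp [nk, ex4]
  · cases s
    · simp only [nk, ex4, Bool.false_eq_true, if_false]; omega
    · simp only [nk, ex4, if_true, rp_succ]
      have h5 := rot_spec m (m - 2)
      have h6 := rot_spec m (m - 2 + 1)
      omega
  all_goals simp [vt] at h

theorem mu_beta {m β : ℕ} (hb : β < m) (s : Bool) : mu m (.L1 β) s β = m := by
  have : β ≠ m := by omega
  simp [mu, this]

theorem nk_L1 {m : ℕ} {κ : Kind} (h : gad m κ ≠ .none) (s : Bool) : nk m κ s = .free := by
  rcases κ with _ | ⟨c0, t, i, j⟩ | ⟨i, j⟩ | i | i | ⟨k, i⟩ | k | k <;> simp_all [nk, gad]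

/-- every linkable colour has a gadget -/
theorem exists_L1 {m : ℕ} (hm : 5 ≤ m) {β : ℕ} (hb : β < m) (h1 : β ≠ 1) (h2 : β + 2 ≠ m) :
    ∃ κ, κ ≠ .free ∧ Valid m κ ∧ gad m κ = .L1 β := by
  by_cases h3 : β + 1 = m
  · exact ⟨.Es false, by simp, trivial, by simp [gad]; omega⟩
  · by_cases h4 : β = 0
    · refine ⟨.cl (m - 3) true false false, by simp, ?_, ?_⟩
      · simp only [Valid]; omega
      · have h5 : ¬ (m - 3 + 5 ≤ m) := by omega
        have h6 : m - 3 + 3 = m := by omega
        simp [gad, h5, h6, h4]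
    · refine ⟨.cl (β - 2) true false false, by simp, ?_, ?_⟩
      · simp only [Valid]; omega
      · have h5 : β - 2 + 5 ≤ m := by omega
        have h6 : β - 2 + 2 = β := by omega
        simp [gad, h5, h6]

/-- the colour `c` leads from `(x, s)` to an ordinary vertex -/
def esc (m : ℕ) (κ : Kind) (s : Bool) (c : ℕ) : Prop :=
  mu m (gad m κ) s c < m ∧ tab m κ (mu m (gad m κ) s c) = .free

theorem tab_eq_free {m : ℕ} {κ : Kind} {r : ℕ} (h1 : r + 1 ≠ m)
    (h2 : ¬ ex4 m κ r) : tab m κ r = .free := by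
  rcases κ with _ | ⟨c0, t, i, j⟩ | ⟨i, j⟩ | i | i | ⟨k, i⟩ | k | k
  · rfl
  · cases t
    · simp only [ex4, Bool.false_eq_true, if_false, not_or] at h2
      simp [tab, h1, h2.1, h2.2]
    · simp only [ex4, if_true, not_or] at h2
      simp [tab, h1, h2.1, h2.2]
  · simp only [ex4, not_or] at h2
    simp [tab, h1, h2.1]
  all_goals simp [tab, h1]

theorem esc_of {m : ℕ} (hm : 5 ≤ m) {κ : Kind} (hv : Valid m κ) {s : Bool}
    {c : ℕ} (hc : c + 1 < m) (he : ¬ ex4 m κ (df m s c)) : esc m κ s c := by
  have h1 := mu_df hm hv s (c := c) (by omega) (Or.inr (by omega)) he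
  have h2 := df_lt hm s (c := c) (by omega)
  refine ⟨by rw [h1]; exact h2, ?_⟩
  rw [h1]
  refine tab_eq_free ?_ he
  cases s
  · simp [df]; omega
  · have := rotInv_spec m c
    simp only [df, if_true]; omega

theorem esc_ex4 {m : ℕ} (hm : 5 ≤ m) {κ : Kind} (hv : Valid m κ) {s : Bool}
    {c : ℕ} (hc : c ≤ m) (h : esc m κ s c) : ¬ ex4 (m + 1) (nk m κ s) c := by
  obtain ⟨h1, h2⟩ := h
  by_cases hk : nk m κ s = .free
  · rw [hk]; simp [ex4]
  · intro h3
    have h4 := (tab_step hm hv s hc hk).2 (by omega)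
    rw [h2] at h4
    exact ex4_tab h3 h4.symm

/-- Two old colours and their rotations do not fit into one 4-cycle. -/
theorem two_of {m : ℕ} (hm : 5 ≤ m) {p q u v : ℕ} (hp : p + 1 < m) (hq : q + 1 < m) (hpq : p ≠ q)
    (h1 : p = u ∨ p = v) (h2 : q = u ∨ q = v) (h3 : rotInv m p = u ∨ rotInv m p = v)
    (h4 : rotInv m q = u ∨ rotInv m q = v) : False := by
  have r1 := rotInv_spec m p
  have r2 := rotInv_spec m q
  omega

end Pool.Agent.Helper243.RD
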