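import Mathlib

set_option autoImplicit false
set_option linter.unusedSectionVars false

namespace Pool.Agent.Helper243.MG

open Finset Module

variable {V E : Type} [Fintype V] [DecidableEq V] [Fintype E] [DecidableEq E]

/-- Sum of an edge labelling around a vertex, in a multigraph given by end maps. -/
def bd {K : Type} [AddCommMonoid K] (s t : E → V) (φ : E → K) (v : V) : K :=
  (∑ e with s e = v, φ e) + ∑ e with t e = v, φ e

/-- The edges leaving a vertex set. -/
def cut (s t : E → V) (X : Finset V) : Finset E :=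
  univ.filter fun e => ¬ (s e ∈ X ↔ t e ∈ X)

theorem mem_cut (s t : E → V) (X : Finset V) (e : E) :
    e ∈ cut s t X ↔ ¬ (s e ∈ X ↔ t e ∈ X) := by
  simp [cut]

/-- Sum over a vertex set of a flow-like quantity in characteristic two. -/
theorem sum_bd {K : Type} [AddCommGroup K] (h2 : ∀ x : K, x + x = 0) (s t : E → V)
    (φ : E → K) (X : Finset V) :
    ∑ v ∈ X, bd s t φ v = ∑ e ∈ cut s t X, φ e := by
  unfold bd
  rw [Finset.sum_add_distrib]
  have h1 : ∀ f : E → V, ∑ v ∈ X, ∑ e with f e = v, φ e = ∑ e, if f e ∈ X then φ e else 0 := by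
    intro f
    simp_rw [Finset.sum_filter]
    rw [Finset.sum_comm]
    refine Finset.sum_congr rfl fun e _ => ?_
    rw [Finset.sum_ite_eq]
  rw [h1 s, h1 t, ← Finset.sum_add_distrib, cut, Finset.sum_filter]
  refine Finset.sum_congr rfl fun e _ => ?_
  by_cases hs : s e ∈ X <;> by_cases ht : t e ∈ X <;> simp [hs, ht, h2]

/-- The boundary map as a linear map over the field with two elements. -/
def bdL (s t : E → V) : (E → ZMod 2) →ₗ[ZMod 2] (V → ZMod 2) where
  toFun φ := bd s t φ
  map_add' φ ψ := by
    funext v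
    simp only [bd, Pi.add_apply, Finset.sum_add_distrib]
    ring
  map_smul' c φ := by
    funext v
    simp only [bd, Pi.smul_apply, smul_eq_mul, RingHom.id_apply, Finset.mul_sum, mul_add]

/-- The cycle space. -/
abbrev Z (s t : E → V) : Submodule (ZMod 2) (E → ZMod 2) := LinearMap.ker (bdL s t)

/-- Restriction of labellings to a set of edges. -/
abbrev res (A : Finset E) : (E → ZMod 2) →ₗ[ZMod 2] (A → ZMod 2) :=
  LinearMap.funLeft (ZMod 2) (ZMod 2) (fun e : A => (e : E))

/-- Rank of the cycle space restricted to a set of edges. -/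
noncomputable def rk (s t : E → V) (A : Finset E) : ℕ :=
  finrank (ZMod 2) ((Z s t).map (res A))

theorem rk_le (s t : E → V) (A : Finset E) : rk s t A ≤ A.card := by
  have := Submodule.finrank_le ((Z s t).map (res A))
  simpa [rk] using this

theorem rk_add (s t : E → V) (A : Finset E) :
    rk s t A + finrank (ZMod 2) ((Z s t) ⊓ LinearMap.ker (res A) : Submodule _ _) =
      finrank (ZMod 2) (Z s t) := by
  have h := LinearMap.finrank_range_add_finrank_ker ((res A).domRestrict (Z s t))
  rw [← h]
  congr 1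
  · unfold rk
    rw [LinearMap.range_domRestrict]
  · have : (LinearMap.ker ((res A).domRestrict (Z s t))).map (Z s t).subtype =
        (Z s t) ⊓ LinearMap.ker (res A) := by
      ext x
      simp only [Submodule.mem_map, LinearMap.mem_ker, LinearMap.domRestrict_apply,
        Submodule.mem_inf, Submodule.subtype_apply]
      constructor
      · rintro ⟨y, hy, rfl⟩
        exact ⟨LinearMap.mem_ker.1 y.2, hy⟩
      · rintro ⟨h1, h2⟩
        exact ⟨⟨x, LinearMap.mem_ker.2 h1⟩, h2, rfl⟩
    rw [← this]
    exact LinearEquiv.finrank_eq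
      (Submodule.equivMapOfInjective _ (Submodule.injective_subtype _) _).symm

theorem mem_ker_res (A : Finset E) (z : E → ZMod 2) :
    z ∈ LinearMap.ker (res A) ↔ ∀ e ∈ A, z e = 0 := by
  rw [LinearMap.mem_ker]
  constructor
  · intro h e he
    have := congrFun h ⟨e, he⟩
    simpa [LinearMap.funLeft] using this
  · intro h
    funext e
    simpa [LinearMap.funLeft] using h e e.2

theorem rk_submod (s t : E → V) (A B : Finset E) :
    rk s t (A ∪ B) + rk s t (A ∩ B) ≤ rk s t A + rk s t B := by
  have hA := rk_add s t A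
  have hB := rk_add s t B
  have hU := rk_add s t (A ∪ B)
  have hI := rk_add s t (A ∩ B)
  have key := Submodule.finrank_sup_add_finrank_inf_eq
    ((Z s t) ⊓ LinearMap.ker (res A)) ((Z s t) ⊓ LinearMap.ker (res B))
  have e1 : ((Z s t) ⊓ LinearMap.ker (res A)) ⊓ ((Z s t) ⊓ LinearMap.ker (res B)) =
      (Z s t) ⊓ LinearMap.ker (res (A ∪ B)) := by
    ext z
    simp only [Submodule.mem_inf, mem_ker_res, Finset.mem_union]
    constructor
    · rintro ⟨⟨h1, h2⟩, _, h3⟩
      exact ⟨h1, fun e he => he.elim (h2 e) (h3 e)⟩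
    · rintro ⟨h1, h2⟩
      exact ⟨⟨h1, fun e he => h2 e (Or.inl he)⟩, h1, fun e he => h2 e (Or.inr he)⟩
  have e2 : ((Z s t) ⊓ LinearMap.ker (res A)) ⊔ ((Z s t) ⊓ LinearMap.ker (res B)) ≤
      (Z s t) ⊓ LinearMap.ker (res (A ∩ B)) := by
    refine sup_le ?_ ?_
    · intro z
      simp only [Submodule.mem_inf, mem_ker_res, Finset.mem_inter]
      exact fun h => ⟨h.1, fun e he => h.2 e he.1⟩
    · intro z
      simp only [Submodule.mem_inf, mem_ker_res, Finset.mem_inter]
      exact fun h => ⟨h.1, fun e he => h.2 e he.2⟩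
  have h3 := Submodule.finrank_mono e2
  rw [e1] at key
  omega

/-- Full rank gives a flow equal to one on the whole set. -/
theorem exists_flow_one (s t : E → V) (A : Finset E) (h : rk s t A = A.card) :
    ∃ z : E → ZMod 2, (∀ v, bd s t z v = 0) ∧ ∀ e ∈ A, z e = 1 := by
  have htop : (Z s t).map (res A) = ⊤ := by
    apply Submodule.eq_top_of_finrank_eq
    rw [← rk, h]
    simp
  have h1 : (fun _ => 1 : A → ZMod 2) ∈ (Z s t).map (res A) := by
    rw [htop]; exact Submodule.mem_top
  obtain ⟨z, hz, hz1⟩ := Submodule.mem_map.1 h1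
  refine ⟨z, ?_, ?_⟩
  · intro v
    exact congrFun (LinearMap.mem_ker.1 hz) v
  · intro e he
    have := congrFun hz1 ⟨e, he⟩
    simpa [LinearMap.funLeft] using this

end Pool.Agent.Helper243.MG
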