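import Mathlib

set_option autoImplicit false

namespace Pool.Agent.Helper243.SemiSymAll

open Finset

theorem birkhoff {I J : Type*} [Fintype I] [Fintype J] [DecidableEq I] [DecidableEq J] :
    ∀ (k : ℕ) (m : I → J → ℕ), (∀ i, ∑ j, m i j = k) → (∀ j, ∑ i, m i j = k) →
      ∃ σ : Fin k → I ≃ J, ∀ i j, (∑ c, if σ c i = j then 1 else 0) = m i j := by
  intro k
  induction k with
  | zero =>
    intro m h1 _
    refine ⟨fun c => c.elim0, fun i j => ?_⟩
    have := h1 i
    rw [Finset.sum_eq_zero_iff] at this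
    rw [this j (mem_univ j)]
    simp
  | succ k ih =>
    intro m h1 h2
    classical
    have hcard : Fintype.card I = Fintype.card J := by
      have e1 : ∑ i, ∑ j, m i j = Fintype.card I * (k + 1) := by
        rw [Finset.sum_congr rfl (fun i _ => h1 i)]
        simp
      have e2 : ∑ j, ∑ i, m i j = Fintype.card J * (k + 1) := by
        rw [Finset.sum_congr rfl (fun i _ => h2 i)]
        simp
      rw [Finset.sum_comm] at e1
      exact Nat.eq_of_mul_eq_mul_right (Nat.succ_pos k) (e1.symm.trans e2)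
    set t : I → Finset J := fun i => univ.filter (fun j => 0 < m i j) with ht
    have hall : ∀ S : Finset I, S.card ≤ (S.biUnion t).card := by
      intro S
      have e1 : S.card * (k + 1) = ∑ i ∈ S, ∑ j, m i j := by
        rw [Finset.sum_congr rfl (fun i _ => h1 i)]
        simp
      have e2 : ∑ i ∈ S, ∑ j, m i j = ∑ i ∈ S, ∑ j ∈ S.biUnion t, m i j := by
        refine Finset.sum_congr rfl (fun i hi => ?_)
        symm
        apply Finset.sum_subset (subset_univ _)
        intro j _ hj
        by_contra hne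
        exact hj (mem_biUnion.2 ⟨i, hi, by simp [ht]; omega⟩)
      have e3 : ∑ i ∈ S, ∑ j ∈ S.biUnion t, m i j ≤ ∑ j ∈ S.biUnion t, ∑ i, m i j := by
        rw [Finset.sum_comm]
        exact Finset.sum_le_sum (fun j _ => Finset.sum_le_sum_of_subset (subset_univ _))
      have e4 : ∑ j ∈ S.biUnion t, ∑ i, m i j = (S.biUnion t).card * (k + 1) := by
        rw [Finset.sum_congr rfl (fun i _ => h2 i)]
        simp
      have : S.card * (k + 1) ≤ (S.biUnion t).card * (k + 1) := by
        rw [e1, e2, ← e4]; exact e3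
      exact Nat.le_of_mul_le_mul_right this (Nat.succ_pos k)
    obtain ⟨f, hf, hft⟩ := (Finset.all_card_le_biUnion_card_iff_exists_injective t).1 hall
    have hfb : Function.Bijective f := (Fintype.bijective_iff_injective_and_card f).2 ⟨hf, hcard⟩
    have hpos : ∀ i, 0 < m i (f i) := fun i => by
      have := hft i
      simpa [ht] using this
    set m' : I → J → ℕ := fun i j => m i j - (if f i = j then 1 else 0) with hm'
    have hm : ∀ i j, m i j = (if f i = j then 1 else 0) + m' i j := by
      intro i j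
      simp only [hm']
      by_cases h : f i = j
      · subst h
        have := hpos i
        simp; omega
      · simp [h]
    have r1 : ∀ i, ∑ j, m' i j = k := by
      intro i
      have h := h1 i
      rw [Finset.sum_congr rfl (fun j _ => hm i j), Finset.sum_add_distrib] at h
      simp at h
      omega
    have r2 : ∀ j, ∑ i, m' i j = k := by
      intro j
      have h := h2 j
      rw [Finset.sum_congr rfl (fun i _ => hm i j), Finset.sum_add_distrib] at h
      have : ∑ i, (if f i = j then 1 else 0) = 1 := by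
        obtain ⟨i0, hi0⟩ := hfb.2 j
        rw [Finset.sum_eq_single i0]
        · simp [hi0]
        · intro b _ hb
          have : f b ≠ j := fun h => hb (hf (h.trans hi0.symm))
          simp [this]
        · simp
      omega
    obtain ⟨σ, hσ⟩ := ih m' r1 r2
    refine ⟨Fin.cons (Equiv.ofBijective f hfb) σ, fun i j => ?_⟩
    rw [Fin.sum_univ_succ]
    simp only [Fin.cons_zero, Fin.cons_succ, Equiv.ofBijective_apply]
    rw [hσ, ← hm]

theorem transport {I J : Type*} [Fintype I] [Fintype J] [DecidableEq I] [DecidableEq J]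
    (r : I → ℕ) (c : J → ℕ) (h : ∑ i, r i = ∑ j, c j) :
    ∃ m : I → J → ℕ, (∀ i, ∑ j, m i j = r i) ∧ (∀ j, ∑ i, m i j = c j) := by
  have hc : Fintype.card (Σ i, Fin (r i)) = Fintype.card (Σ j, Fin (c j)) := by
    simp [h]
  obtain ⟨e⟩ : Nonempty ((Σ i, Fin (r i)) ≃ (Σ j, Fin (c j))) := ⟨Fintype.equivOfCardEq hc⟩
  refine ⟨fun i j => ∑ x : Fin (r i), if (e ⟨i, x⟩).1 = j then 1 else 0, ?_, ?_⟩
  · intro i
    rw [Finset.sum_comm]
    simp
  · intro j
    have h1 : ∑ i, ∑ x : Fin (r i), (if (e ⟨i, x⟩).1 = j then 1 else 0) =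
        ∑ p : (Σ i, Fin (r i)), (if (e p).1 = j then 1 else 0) := by
      rw [Fintype.sum_sigma]
    rw [h1, Equiv.sum_comp e (fun q => if q.1 = j then 1 else 0), Fintype.sum_sigma,
      Finset.sum_eq_single j]
    · simp
    · intro b _ hb
      simp [hb]
    · simp

/-- arrays: `hd v u`, `tl v u` are the membership in head and tail sets of the colour `u` -/
theorem array_lemma {A : Type*} [Fintype A] [DecidableEq A] (w z ε : ℕ) (hε : ε ≤ 1) (hεz : ε ≤ z)
    (hN : Fintype.card A + ε = w + z)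
    (hd tl : A → Fin w → Prop) [∀ v u, Decidable (hd v u)] [∀ v u, Decidable (tl v u)]
    (q : A → ℕ) (hq : ∀ v, q v ≤ z)
    (hd1 : ∀ u, ∑ v, (if hd v u then 0 else 1) = z) (tl1 : ∀ u, ∑ v, (if tl v u then 0 else 1) = z)
    (hd2 : ∀ v, ∑ u, (if hd v u then 0 else 1) = q v)
    (tl2 : ∀ v, ∑ u, (if tl v u then 0 else 1) = q v) :
    ∃ (σ τ : Fin z → (A ⊕ Fin ε ≃ Fin w ⊕ Fin z)),
      (∀ v u, ∑ c, (if σ c (Sum.inl v) = Sum.inl u then 1 else 0) = if hd v u then 0 else 1) ∧
      (∀ c s u, σ c (Sum.inr s) ≠ Sum.inl u) ∧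
      (∀ v u, ∑ c, (if τ c (Sum.inl v) = Sum.inl u then 1 else 0) = if tl v u then 0 else 1) ∧
      (∀ v ζ, ∑ c, (if τ c (Sum.inl v) = Sum.inr ζ then 1 else 0) =
        if (σ ζ (Sum.inl v)).isRight then 1 else 0) ∧
      (∀ c s, τ c (Sum.inr s) = Sum.inr c) := by
  have tot : ∑ v : A, (z - q v) = ∑ ζ : Fin z, (z - ε) := by
    have e1 : ∑ v : A, (z - q v) + ∑ v, q v = Fintype.card A * z := by
      rw [← Finset.sum_add_distrib, Finset.sum_congr rfl (fun v _ => Nat.sub_add_cancel (hq v))]
      simp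
    have e2 : ∑ v, q v = w * z := by
      rw [← Finset.sum_congr rfl (fun v _ => hd2 v), Finset.sum_comm,
        Finset.sum_congr rfl (fun u _ => hd1 u)]
      simp
    rw [e2] at e1
    rw [Finset.sum_const, card_univ, Fintype.card_fin, smul_eq_mul]
    have e3 : Fintype.card A * z + ε * z = w * z + z * z := by
      rw [← add_mul, hN, add_mul]
    have e4 : z * (z - ε) + z * ε = z * z := by
      rw [← mul_add, Nat.sub_add_cancel hεz]
    have e5 : ε * z = z * ε := mul_comm _ _
    omega
  obtain ⟨β, hβ1, hβ2⟩ := transport (fun v : A => z - q v) (fun _ : Fin z => z - ε) tot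
  set m : A ⊕ Fin ε → Fin w ⊕ Fin z → ℕ := fun x y =>
    match x, y with
    | Sum.inl v, Sum.inl u => if hd v u then 0 else 1
    | Sum.inl v, Sum.inr ζ => β v ζ
    | Sum.inr _, Sum.inl _ => 0
    | Sum.inr _, Sum.inr _ => 1 with hm
  have hmr : ∀ x, ∑ y, m x y = z := by
    rintro (v | s)
    · rw [Fintype.sum_sum_type]
      simp only [hm]
      rw [hd2, hβ1, Nat.add_sub_cancel' (hq v)]
    · rw [Fintype.sum_sum_type]
      simp [hm]
  have hmc : ∀ y, ∑ x, m x y = z := by
    rintro (u | ζ)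
    · rw [Fintype.sum_sum_type]
      simp only [hm]
      rw [hd1]
      simp
    · rw [Fintype.sum_sum_type]
      simp only [hm]
      rw [hβ2]
      simp
      omega
  obtain ⟨σ, hσ⟩ := birkhoff z m hmr hmc
  have hσ0 : ∀ c s u, σ c (Sum.inr s) ≠ Sum.inl u := by
    intro c s u h
    have := hσ (Sum.inr s) (Sum.inl u)
    simp only [hm] at this
    rw [Finset.sum_eq_zero_iff] at this
    have := this c (mem_univ c)
    simp [h] at this
  set γ : A → Fin z → ℕ := fun v ζ => if (σ ζ (Sum.inl v)).isRight then 1 else 0 with hγ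
  have hγ1 : ∀ v, q v + ∑ ζ, γ v ζ = z := by
    intro v
    have e1 : q v = ∑ ζ, (if (σ ζ (Sum.inl v)).isRight then 0 else 1) := by
      rw [← hd2 v]
      have : ∀ u, (if hd v u then 0 else 1) = ∑ c, (if σ c (Sum.inl v) = Sum.inl u then 1 else 0) := by
        intro u
        rw [hσ]
      rw [Finset.sum_congr rfl (fun u _ => this u), Finset.sum_comm]
      refine Finset.sum_congr rfl (fun c _ => ?_)
      rcases h : σ c (Sum.inl v) with u0 | ζ0
      · simp
      · simp
    rw [e1, ← Finset.sum_add_distrib]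
    have : ∀ ζ, (if (σ ζ (Sum.inl v)).isRight then 0 else 1) + γ v ζ = 1 := by
      intro ζ
      simp only [hγ]
      split_ifs <;> rfl
    rw [Finset.sum_congr rfl (fun ζ _ => this ζ)]
    simp
  have hγ2 : ∀ ζ, ∑ v, γ v ζ + ε = z := by
    intro ζ
    have e1 : ∑ x : A ⊕ Fin ε, (if (σ ζ x).isRight then 1 else 0) = z := by
      rw [Equiv.sum_comp (σ ζ) (fun y => if y.isRight then 1 else 0), Fintype.sum_sum_type]
      simp
    rw [Fintype.sum_sum_type] at e1
    have e2 : ∑ s : Fin ε, (if (σ ζ (Sum.inr s)).isRight then 1 else 0) = ε := by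
      have : ∀ s : Fin ε, (if (σ ζ (Sum.inr s)).isRight then 1 else 0) = 1 := by
        intro s
        rcases h : σ ζ (Sum.inr s) with u0 | ζ0
        · exact absurd h (hσ0 _ _ _)
        · simp
      rw [Finset.sum_congr rfl (fun s _ => this s)]
      simp
    rw [e2] at e1
    exact e1
  set m2 : A ⊕ Fin ε → Fin w ⊕ Fin z → ℕ := fun x y =>
    match x, y with
    | Sum.inl v, Sum.inl u => if tl v u then 0 else 1
    | Sum.inl v, Sum.inr ζ => γ v ζ
    | Sum.inr _, Sum.inl _ => 0
    | Sum.inr _, Sum.inr _ => 1 with hm2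
  have hm2r : ∀ x, ∑ y, m2 x y = z := by
    rintro (v | s)
    · rw [Fintype.sum_sum_type]
      simp only [hm2]
      rw [tl2, hγ1]
    · rw [Fintype.sum_sum_type]
      simp [hm2]
  have hm2c : ∀ y, ∑ x, m2 x y = z := by
    rintro (u | ζ)
    · rw [Fintype.sum_sum_type]
      simp only [hm2]
      rw [tl1]
      simp
    · rw [Fintype.sum_sum_type]
      simp only [hm2]
      simp
      exact hγ2 ζ
  obtain ⟨τ, hτ⟩ := birkhoff z m2 hm2r hm2c
  have hτ0 : ∀ c s u, τ c (Sum.inr s) ≠ Sum.inl u := by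
    intro c s u h
    have := hτ (Sum.inr s) (Sum.inl u)
    simp only [hm2] at this
    rw [Finset.sum_eq_zero_iff] at this
    have := this c (mem_univ c)
    simp [h] at this
  obtain ⟨ρ, hρ⟩ : ∃ ρ : Fin z ≃ Fin z, ∀ c s, τ (ρ c) (Sum.inr s) = Sum.inr c := by
    obtain rfl | rfl : ε = 0 ∨ ε = 1 := by omega
    · exact ⟨Equiv.refl _, fun c s => s.elim0⟩
    · have hex : ∀ c, ∃ ζ, τ c (Sum.inr 0) = Sum.inr ζ := by
        intro c
        rcases h : τ c (Sum.inr 0) with u0 | ζ0
        · exact absurd h (hτ0 _ _ _)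
        · exact ⟨ζ0, rfl⟩
      choose g hg using hex
      have hinj : Function.Injective g := by
        intro c c' hcc
        by_contra hne
        have h1 := hτ (Sum.inr 0) (Sum.inr (g c))
        simp only [hm2] at h1
        have h2 : ∑ x ∈ ({c, c'} : Finset (Fin z)), (if τ x (Sum.inr 0) = Sum.inr (g c) then 1 else 0)
            ≤ ∑ x, (if τ x (Sum.inr 0) = Sum.inr (g c) then 1 else 0) :=
          Finset.sum_le_sum_of_subset (subset_univ _)
        rw [h1, Finset.sum_pair hne, hg c, hg c', hcc] at h2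
        simp at h2
      have hbij : Function.Bijective g := Finite.injective_iff_bijective.1 hinj
      refine ⟨(Equiv.ofBijective g hbij).symm, fun c s => ?_⟩
      have hs : s = 0 := Subsingleton.elim _ _
      rw [hs, hg]
      congr 1
      exact (Equiv.ofBijective g hbij).apply_symm_apply c
  refine ⟨σ, fun c => τ (ρ c), ?_, hσ0, ?_, ?_, hρ⟩
  · intro v u
    rw [hσ]
  · intro v u
    rw [Equiv.sum_comp ρ (fun c => if τ c (Sum.inl v) = Sum.inl u then 1 else 0), hτ]
  · intro v ζ
    rw [Equiv.sum_comp ρ (fun c => if τ c (Sum.inl v) = Sum.inr ζ then 1 else 0), hτ]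

theorem exists_of_sum_one {ι : Type*} [Fintype ι] (P : ι → Prop) [DecidablePred P]
    (h : ∑ c, (if P c then 1 else 0) = 1) : ∃ c, P c ∧ ∀ c', P c' → c' = c := by
  rw [← Finset.card_filter, Finset.card_eq_one] at h
  obtain ⟨c, hc⟩ := h
  refine ⟨c, ?_, ?_⟩
  · have : c ∈ univ.filter P := by rw [hc]; exact mem_singleton_self c
    exact (mem_filter.1 this).2
  · intro c' h'
    have : c' ∈ univ.filter P := mem_filter.2 ⟨mem_univ _, h'⟩
    rw [hc] at this
    exact mem_singleton.1 this

theorem not_of_sum_zero {ι : Type*} [Fintype ι] (P : ι → Prop) [DecidablePred P]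
    (h : ∑ c, (if P c then 1 else 0) = 0) : ∀ c, ¬ P c := by
  intro c hc
  rw [Finset.sum_eq_zero_iff] at h
  have := h c (mem_univ c)
  simp [hc] at this

theorem glue {A B : Type*} (G : A → A → A → Prop) (C : A → A → B → Prop) (M : B → B → A → Prop)
    (R : B → B → B → Prop)
    (hG : ∀ a b c, G a b c → G b c a) (hR : ∀ a b c, R a b c → R b c a)
    (h1 : ∀ a b, ∃! t : A ⊕ B, Sum.elim (fun c => G a b c) (fun u => C a b u) t)
    (h2 : ∀ a u, ∃! t : A ⊕ B, Sum.elim (fun b => C b a u) (fun c => M u c a) t)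
    (h3 : ∀ u a, ∃! t : A ⊕ B, Sum.elim (fun b => C a b u) (fun c => M c u a) t)
    (h4 : ∀ b c, ∃! t : A ⊕ B, Sum.elim (fun a => M b c a) (fun d => R b c d) t) :
    ∃ f : A ⊕ B → A ⊕ B → A ⊕ B, (∀ x y, f x (f y x) = y) ∧
      ∀ a b c, G a b c → f (Sum.inl a) (Sum.inl b) = Sum.inl c := by
  set T : A ⊕ B → A ⊕ B → A ⊕ B → Prop := fun x y t =>
    match x, y, t with
    | Sum.inl a, Sum.inl b, Sum.inl c => G a b c
    | Sum.inl a, Sum.inl b, Sum.inr u => C a b u
    | Sum.inl a, Sum.inr u, Sum.inl b => C b a u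
    | Sum.inr u, Sum.inl a, Sum.inl b => C a b u
    | Sum.inl a, Sum.inr b, Sum.inr c => M b c a
    | Sum.inr b, Sum.inr c, Sum.inl a => M b c a
    | Sum.inr c, Sum.inl a, Sum.inr b => M b c a
    | Sum.inr b, Sum.inr c, Sum.inr d => R b c d with hT
  have hrot : ∀ x y t, T x y t → T y t x := by
    rintro (a | a) (b | b) (c | c) h
    · exact hG _ _ _ h
    · exact h
    · exact h
    · exact h
    · exact h
    · exact h
    · exact h
    · exact hR _ _ _ h
  have hex : ∀ x y, ∃! t, T x y t := by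
    rintro (a | a) (b | b)
    · obtain ⟨t, ht, hu⟩ := h1 a b
      refine ⟨t, ?_, fun t' ht' => hu t' ?_⟩
      · rcases t with t | t <;> exact ht
      · rcases t' with t' | t' <;> exact ht'
    · obtain ⟨t, ht, hu⟩ := h2 a b
      refine ⟨t, ?_, fun t' ht' => hu t' ?_⟩
      · rcases t with t | t <;> exact ht
      · rcases t' with t' | t' <;> exact ht'
    · obtain ⟨t, ht, hu⟩ := h3 a b
      refine ⟨t, ?_, fun t' ht' => hu t' ?_⟩
      · rcases t with t | t <;> exact ht
      · rcases t' with t' | t' <;> exact ht'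
    · obtain ⟨t, ht, hu⟩ := h4 a b
      refine ⟨t, ?_, fun t' ht' => hu t' ?_⟩
      · rcases t with t | t <;> exact ht
      · rcases t' with t' | t' <;> exact ht'
  choose f hf hfu using hex
  refine ⟨f, ?_, ?_⟩
  · intro x y
    have h := hrot _ _ _ (hf y x)
    exact (hfu x (f y x) y h).symm
  · intro a b c h
    exact (hfu (Sum.inl a) (Sum.inl b) (Sum.inl c) h).symm

theorem fin_sum_zero (w : ℕ) (a b : Fin w) :
    ∃ c : Fin w, ((a : ℕ) + b + c) % w = 0 ∧ ∀ c' : Fin w, ((a : ℕ) + b + c') % w = 0 → c' = c := by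
  have hw : 0 < w := lt_of_le_of_lt (Nat.zero_le _) a.2
  have hlt : (2 * w - (a + b)) % w < w := Nat.mod_lt _ hw
  refine ⟨⟨(2 * w - (a + b)) % w, hlt⟩, ?_, ?_⟩
  · have : (a : ℕ) + b ≤ 2 * w := by omega
    simp only []
    rw [Nat.add_mod_mod, Nat.add_sub_cancel' this]
    exact Nat.mul_mod_left 2 w
  · intro c' h
    apply Fin.ext
    simp only []
    obtain ⟨k, hk⟩ := Nat.dvd_of_mod_eq_zero h
    have hc := c'.2
    have ha := a.2
    have hb := b.2
    have hk3 : k < 3 := by
      by_contra hk'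
      have : w * 3 ≤ w * k := Nat.mul_le_mul_left _ (by omega)
      omega
    interval_cases k
    · have : (c' : ℕ) = 0 ∧ (a : ℕ) = 0 ∧ (b : ℕ) = 0 := by omega
      rw [this.1, this.2.1, this.2.2]
      simp
    · have : 2 * w - ((a : ℕ) + b) = c' + w := by omega
      rw [this, Nat.add_mod_right, Nat.mod_eq_of_lt hc]
    · have : 2 * w - ((a : ℕ) + b) = c' := by omega
      rw [this, Nat.mod_eq_of_lt hc]

/-- colouring of the undefined pairs -/
theorem colour_lemma {A : Type*} [Fintype A] [DecidableEq A] (w z ε : ℕ)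
    (hN : Fintype.card A + ε = w + z) (D : A → A → Prop) [∀ v v', Decidable (D v v')]
    (d : A → ℕ) (hdw : ∀ v, d v ≤ w)
    (hout : ∀ v, ∑ v', (if D v v' then 1 else 0) = d v)
    (hin : ∀ v', ∑ v, (if D v v' then 1 else 0) = d v')
    (htot : ∑ v, d v + ε * w = w * w) :
    ∃ σ : Fin w → (A ⊕ Fin z ≃ A ⊕ Fin z),
      (∀ v v', (∑ c, if σ c (Sum.inl v) = Sum.inl v' then 1 else 0) = if D v v' then 1 else 0) ∧
      (∀ c i j, σ c (Sum.inr i) ≠ Sum.inr j) := by
  have tot : ∑ v : A, (w - d v) = ∑ _i : Fin z, w := by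
    have e1 : ∑ v : A, (w - d v) + ∑ v, d v = Fintype.card A * w := by
      rw [← Finset.sum_add_distrib, Finset.sum_congr rfl (fun v _ => Nat.sub_add_cancel (hdw v))]
      simp
    rw [Finset.sum_const, card_univ, Fintype.card_fin, smul_eq_mul]
    have e3 : Fintype.card A * w + ε * w = w * w + z * w := by
      rw [← add_mul, hN, add_mul]
    omega
  obtain ⟨α, hα1, hα2⟩ := transport (fun v : A => w - d v) (fun _ : Fin z => w) tot
  set m : A ⊕ Fin z → A ⊕ Fin z → ℕ := fun x y =>
    match x, y with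
    | Sum.inl v, Sum.inl v' => if D v v' then 1 else 0
    | Sum.inl v, Sum.inr i => α v i
    | Sum.inr i, Sum.inl v => α v i
    | Sum.inr _, Sum.inr _ => 0 with hm
  have hmr : ∀ x, ∑ y, m x y = w := by
    rintro (v | s)
    · rw [Fintype.sum_sum_type]
      simp only [hm]
      rw [hout, hα1, Nat.add_sub_cancel' (hdw v)]
    · rw [Fintype.sum_sum_type]
      simp only [hm]
      rw [hα2]
      simp
  have hmc : ∀ y, ∑ x, m x y = w := by
    rintro (v | s)
    · rw [Fintype.sum_sum_type]
      simp only [hm]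
      rw [hin, hα1, Nat.add_sub_cancel' (hdw v)]
    · rw [Fintype.sum_sum_type]
      simp only [hm]
      rw [hα2]
      simp
  obtain ⟨σ, hσ⟩ := birkhoff w m hmr hmc
  refine ⟨σ, fun v v' => hσ _ _, fun c i j h => ?_⟩
  have := hσ (Sum.inr i) (Sum.inr j)
  simp only [hm] at this
  exact not_of_sum_zero _ this c h

theorem sum_isLeft {A B : Type*} [Fintype A] [DecidableEq A] (x : A ⊕ B) [DecidableEq B] :
    ∑ a, (if x = Sum.inl a then 1 else 0) = if x.isLeft then 1 else 0 := by
  rcases x with a | b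
  · simp
  · simp

/-- completion of a structure on `A` to one on `A ⊕ (W ⊕ Z)` -/
theorem completion {A : Type*} [Fintype A] [DecidableEq A] (w z ε : ℕ) (hε : ε ≤ 1) (hεz : ε ≤ z)
    (hN : Fintype.card A + ε = w + z) (G : A → A → A → Prop)
    (hrot : ∀ a b c, G a b c → G b c a) (hfun : ∀ a b c c', G a b c → G a b c' → c = c')
    (d : A → ℕ) (hdw : ∀ v, d v ≤ w) (hdz : ∀ v, w ≤ d v + z)
    (D : A → A → Prop) [∀ v v', Decidable (D v v')] (hD : ∀ a b, D a b ↔ ¬ ∃ c, G a b c)
    (hout : ∀ v, ∑ v', (if D v v' then 1 else 0) = d v)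
    (hin : ∀ v', ∑ v, (if D v v' then 1 else 0) = d v')
    (htot : ∑ v, d v + ε * w = w * w) :
    ∃ f : A ⊕ (Fin w ⊕ Fin z) → A ⊕ (Fin w ⊕ Fin z) → A ⊕ (Fin w ⊕ Fin z),
      (∀ x y, f x (f y x) = y) ∧ ∀ a b c, G a b c → f (Sum.inl a) (Sum.inl b) = Sum.inl c := by
  obtain ⟨κ, hκ1, hκ2⟩ := colour_lemma w z ε hN D d hdw hout hin htot
  -- tails and heads
  have tl1 : ∀ u, ∑ v : A, (if (κ u (Sum.inl v)).isLeft then 0 else 1) = z := by
    intro u
    have e1 : ∑ x : A ⊕ Fin z, (if (κ u x).isLeft then 0 else 1) = z := by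
      rw [Equiv.sum_comp (κ u) (fun y => if y.isLeft then 0 else 1), Fintype.sum_sum_type]
      simp
    rw [Fintype.sum_sum_type] at e1
    have e2 : ∑ i : Fin z, (if (κ u (Sum.inr i)).isLeft then 0 else 1) = 0 := by
      refine Finset.sum_eq_zero (fun i _ => ?_)
      rcases h : κ u (Sum.inr i) with u0 | ζ0
      · simp
      · exact absurd h (hκ2 _ _ _)
    rw [e2] at e1
    exact e1
  have hd1 : ∀ u, ∑ v : A, (if ((κ u).symm (Sum.inl v)).isLeft then 0 else 1) = z := by
    intro u
    have e1 : ∑ x : A ⊕ Fin z, (if ((κ u).symm x).isLeft then 0 else 1) = z := by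
      rw [Equiv.sum_comp (κ u).symm (fun y => if y.isLeft then 0 else 1), Fintype.sum_sum_type]
      simp
    rw [Fintype.sum_sum_type] at e1
    have e2 : ∑ i : Fin z, (if ((κ u).symm (Sum.inr i)).isLeft then 0 else 1) = 0 := by
      refine Finset.sum_eq_zero (fun i _ => ?_)
      rcases h : (κ u).symm (Sum.inr i) with u0 | ζ0
      · simp
      · rw [Equiv.symm_apply_eq] at h
        exact absurd h.symm (hκ2 _ _ _)
    rw [e2] at e1
    exact e1
  have tl2 : ∀ v, ∑ u, (if (κ u (Sum.inl v)).isLeft then 0 else 1) = w - d v := by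
    intro v
    have e1 : ∑ u, (if (κ u (Sum.inl v)).isLeft then 1 else 0) = d v := by
      rw [← hout v, ← Finset.sum_congr rfl (fun v' _ => hκ1 v v'), Finset.sum_comm]
      exact Finset.sum_congr rfl (fun u _ => (sum_isLeft _).symm)
    have e2 : ∑ u : Fin w, ((if (κ u (Sum.inl v)).isLeft then 1 else 0) +
        (if (κ u (Sum.inl v)).isLeft then 0 else 1)) = w := by
      have : ∀ u : Fin w, ((if (κ u (Sum.inl v)).isLeft then 1 else 0) +
        (if (κ u (Sum.inl v)).isLeft then 0 else 1)) = 1 := by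
        intro u
        split_ifs <;> rfl
      rw [Finset.sum_congr rfl (fun u _ => this u)]
      simp
    rw [Finset.sum_add_distrib, e1] at e2
    omega
  have hd2 : ∀ v, ∑ u, (if ((κ u).symm (Sum.inl v)).isLeft then 0 else 1) = w - d v := by
    intro v
    have e1 : ∑ u, (if ((κ u).symm (Sum.inl v)).isLeft then 1 else 0) = d v := by
      rw [← hin v, ← Finset.sum_congr rfl (fun v' _ => hκ1 v' v), Finset.sum_comm]
      refine Finset.sum_congr rfl (fun u _ => ?_)
      rw [← sum_isLeft]
      refine Finset.sum_congr rfl (fun a _ => ?_)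
      simp only [Equiv.symm_apply_eq]
      simp only [eq_comm]
    have e2 : ∑ u : Fin w, ((if ((κ u).symm (Sum.inl v)).isLeft then 1 else 0) +
        (if ((κ u).symm (Sum.inl v)).isLeft then 0 else 1)) = w := by
      have : ∀ u : Fin w, ((if ((κ u).symm (Sum.inl v)).isLeft then 1 else 0) +
        (if ((κ u).symm (Sum.inl v)).isLeft then 0 else 1)) = 1 := by
        intro u
        split_ifs <;> rfl
      rw [Finset.sum_congr rfl (fun u _ => this u)]
      simp
    rw [Finset.sum_add_distrib, e1] at e2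
    omega
  obtain ⟨σ, τ, hσ1, hσ2, hτ1, hτ2, hτ3⟩ := array_lemma w z ε hε hεz hN
    (fun v u => ((κ u).symm (Sum.inl v)).isLeft = true) (fun v u => (κ u (Sum.inl v)).isLeft = true)
    (fun v => w - d v) (fun v => by have := hdz v; omega) hd1 tl1 hd2 tl2
  set C : A → A → Fin w ⊕ Fin z → Prop := fun a b x =>
    match x with
    | Sum.inl u => κ u (Sum.inl a) = Sum.inl b
    | Sum.inr _ => False with hC
  set M : Fin w ⊕ Fin z → Fin w ⊕ Fin z → A → Prop := fun x y a =>
    match x, y with
    | Sum.inl _, Sum.inl _ => False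
    | Sum.inl u, Sum.inr ζ => σ ζ (Sum.inl a) = Sum.inl u
    | Sum.inr ζ, Sum.inl u => τ ζ (Sum.inl a) = Sum.inl u
    | Sum.inr ζ, Sum.inr ζ' => τ ζ (Sum.inl a) = Sum.inr ζ' with hM
  set R : Fin w ⊕ Fin z → Fin w ⊕ Fin z → Fin w ⊕ Fin z → Prop := fun x y t =>
    match x, y, t with
    | Sum.inl a, Sum.inl b, Sum.inl c => ((a : ℕ) + b + c) % w = 0
    | Sum.inr a, Sum.inr b, Sum.inr c => 0 < ε ∧ a = b ∧ b = c
    | _, _, _ => False with hR
  have hRrot : ∀ a b c, R a b c → R b c a := by
    rintro (a | a) (b | b) (c | c) h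
    · simp only [hR] at h ⊢
      rw [← h]
      congr 1
      ring
    · exact h.elim
    · exact h.elim
    · exact h.elim
    · exact h.elim
    · exact h.elim
    · exact h.elim
    · obtain ⟨h1, h2, h3⟩ := h
      exact ⟨h1, h3, h3.symm.trans h2.symm⟩
  refine glue G C M R hrot hRrot ?_ ?_ ?_ ?_
  · intro a b
    by_cases h : D a b
    · have hk := hκ1 a b
      rw [if_pos h] at hk
      obtain ⟨u, hu, huu⟩ := exists_of_sum_one _ hk
      refine ⟨Sum.inr (Sum.inl u), hu, ?_⟩
      rintro (c | x | x) ht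
      · exact absurd ⟨c, ht⟩ ((hD a b).1 h)
      · rw [huu x ht]
      · exact ht.elim
    · have hk := hκ1 a b
      rw [if_neg h] at hk
      have hn := not_of_sum_zero _ hk
      have hc : ∃ c, G a b c := by
        by_contra hc
        exact h ((hD a b).2 hc)
      obtain ⟨c, hc⟩ := hc
      refine ⟨Sum.inl c, hc, ?_⟩
      rintro (c' | x | x) ht
      · rw [hfun _ _ _ _ hc ht]
      · exact absurd ht (hn x)
      · exact ht.elim
  · intro a b
    rcases b with u | ζ
    · have hs := hσ1 a u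
      rcases h : (κ u).symm (Sum.inl a) with v | i
      · rw [h] at hs
        simp only [Sum.isLeft_inl, if_true] at hs
        have hn := not_of_sum_zero _ hs
        refine ⟨Sum.inl v, ?_, ?_⟩
        · show κ u (Sum.inl v) = Sum.inl a
          rw [← h, Equiv.apply_symm_apply]
        · rintro (v' | x | x) ht
          · have ht' : κ u (Sum.inl v') = Sum.inl a := ht
            rw [← ht', Equiv.symm_apply_apply] at h
            rw [Sum.inl.inj h]
          · exact ht.elim
          · exact absurd ht (hn x)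
      · rw [h] at hs
        simp only [Sum.isLeft_inr, Bool.false_eq_true, if_false] at hs
        obtain ⟨ζ, hζ, hζu⟩ := exists_of_sum_one _ hs
        refine ⟨Sum.inr (Sum.inr ζ), hζ, ?_⟩
        rintro (v' | x | x) ht
        · have ht' : κ u (Sum.inl v') = Sum.inl a := ht
          rw [← ht', Equiv.symm_apply_apply] at h
          cases h
        · exact ht.elim
        · rw [hζu x ht]
    · refine ⟨Sum.inr (τ ζ (Sum.inl a)), ?_, ?_⟩
      · show M (Sum.inr ζ) (τ ζ (Sum.inl a)) a
        rcases h : τ ζ (Sum.inl a) with x | x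
        · exact h
        · exact h
      · rintro (v' | x | x) ht
        · exact ht.elim
        · have ht' : τ ζ (Sum.inl a) = Sum.inl x := ht
          rw [ht']
        · have ht' : τ ζ (Sum.inl a) = Sum.inr x := ht
          rw [ht']
  · intro b a
    rcases b with u | ζ
    · have hs := hτ1 a u
      rcases h : κ u (Sum.inl a) with v | i
      · rw [h] at hs
        simp only [Sum.isLeft_inl, if_true] at hs
        have hn := not_of_sum_zero _ hs
        refine ⟨Sum.inl v, h, ?_⟩
        rintro (v' | x | x) ht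
        · have ht' : κ u (Sum.inl a) = Sum.inl v' := ht
          rw [h] at ht'
          rw [Sum.inl.inj ht']
        · exact ht.elim
        · exact absurd ht (hn x)
      · rw [h] at hs
        simp only [Sum.isLeft_inr, Bool.false_eq_true, if_false] at hs
        obtain ⟨ζ, hζ, hζu⟩ := exists_of_sum_one _ hs
        refine ⟨Sum.inr (Sum.inr ζ), hζ, ?_⟩
        rintro (v' | x | x) ht
        · have ht' : κ u (Sum.inl a) = Sum.inl v' := ht
          rw [ht'] at h
          cases h
        · exact ht.elim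
        · rw [hζu x ht]
    · have hs := hτ2 a ζ
      rcases h : σ ζ (Sum.inl a) with u | ζ'
      · rw [h] at hs
        simp only [Sum.isRight_inl, Bool.false_eq_true, if_false] at hs
        have hn := not_of_sum_zero _ hs
        refine ⟨Sum.inr (Sum.inl u), h, ?_⟩
        rintro (v' | x | x) ht
        · exact ht.elim
        · have ht' : σ ζ (Sum.inl a) = Sum.inl x := ht
          rw [h] at ht'
          rw [Sum.inl.inj ht']
        · exact absurd ht (hn x)
      · rw [h] at hs
        simp only [Sum.isRight_inr, if_true] at hs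
        obtain ⟨ξ, hξ, hξu⟩ := exists_of_sum_one _ hs
        refine ⟨Sum.inr (Sum.inr ξ), hξ, ?_⟩
        rintro (v' | x | x) ht
        · exact ht.elim
        · have ht' : σ ζ (Sum.inl a) = Sum.inl x := ht
          rw [h] at ht'
          cases ht'
        · rw [hξu x ht]
  · intro b c
    rcases b with u | ζ
    · rcases c with u' | ζ'
      · obtain ⟨t, ht, htu⟩ := fin_sum_zero w u u'
        refine ⟨Sum.inr (Sum.inl t), ht, ?_⟩
        rintro (v' | x | x) ht'
        · exact ht'.elim
        · rw [htu x ht']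
        · exact ht'.elim
      · rcases h : (σ ζ').symm (Sum.inl u) with v | s
        · refine ⟨Sum.inl v, ?_, ?_⟩
          · show σ ζ' (Sum.inl v) = Sum.inl u
            rw [← h, Equiv.apply_symm_apply]
          · rintro (v' | x | x) ht'
            · have ht'' : σ ζ' (Sum.inl v') = Sum.inl u := ht'
              rw [← ht'', Equiv.symm_apply_apply] at h
              rw [Sum.inl.inj h]
            · exact ht'.elim
            · exact ht'.elim
        · rw [Equiv.symm_apply_eq] at h
          exact absurd h.symm (hσ2 _ _ _)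
    · rcases c with u' | ζ'
      · rcases h : (τ ζ).symm (Sum.inl u') with v | s
        · refine ⟨Sum.inl v, ?_, ?_⟩
          · show τ ζ (Sum.inl v) = Sum.inl u'
            rw [← h, Equiv.apply_symm_apply]
          · rintro (v' | x | x) ht'
            · have ht'' : τ ζ (Sum.inl v') = Sum.inl u' := ht'
              rw [← ht'', Equiv.symm_apply_apply] at h
              rw [Sum.inl.inj h]
            · exact ht'.elim
            · exact ht'.elim
        · rw [Equiv.symm_apply_eq, hτ3] at h
          cases h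
      · rcases h : (τ ζ).symm (Sum.inr ζ') with v | s
        · have hne : ¬ (0 < ε ∧ ζ = ζ') := by
            rintro ⟨hpos, rfl⟩
            rw [← hτ3 ζ ⟨0, hpos⟩, Equiv.symm_apply_apply] at h
            cases h
          refine ⟨Sum.inl v, ?_, ?_⟩
          · show τ ζ (Sum.inl v) = Sum.inr ζ'
            rw [← h, Equiv.apply_symm_apply]
          · rintro (v' | x | x) ht'
            · have ht'' : τ ζ (Sum.inl v') = Sum.inr ζ' := ht'
              rw [← ht'', Equiv.symm_apply_apply] at h
              rw [Sum.inl.inj h]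
            · exact ht'.elim
            · exact absurd ⟨ht'.1, ht'.2.1⟩ hne
        · have hpos : 0 < ε := lt_of_le_of_lt (Nat.zero_le _) s.2
          rw [Equiv.symm_apply_eq, hτ3] at h
          have hz : ζ' = ζ := Sum.inr.inj h
          subst hz
          refine ⟨Sum.inr (Sum.inr ζ'), ⟨hpos, rfl, rfl⟩, ?_⟩
          rintro (v' | x | x) ht'
          · have ht'' : τ ζ' (Sum.inl v') = Sum.inr ζ' := ht'
            rw [← hτ3 ζ' s] at ht''
            have := (τ ζ').injective ht''
            cases this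
          · exact ht'.elim
          · rw [ht'.2.2]

theorem ind_unique {ι : Type*} [Fintype ι] (Q : ι → Prop) [DecidablePred Q]
    [Decidable (∃ c, Q c)] (hu : ∀ c c', Q c → Q c' → c = c') :
    ∑ c, (if Q c then 1 else 0) = if ∃ c, Q c then 1 else 0 := by
  classical
  by_cases h : ∃ c, Q c
  · rw [if_pos h]
    obtain ⟨c, hc⟩ := h
    rw [Finset.sum_eq_single c]
    · rw [if_pos hc]
    · intro b _ hb
      rw [if_neg (fun hb' => hb (hu _ _ hb' hc))]
    · intro hc'
      exact absurd (mem_univ c) hc'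
  · rw [if_neg h]
    refine Finset.sum_eq_zero (fun c _ => ?_)
    rw [if_neg (fun hc => h ⟨c, hc⟩)]

theorem ind_compl {ι : Type*} [Fintype ι] (Q Q' : ι → Prop) [DecidablePred Q] [DecidablePred Q']
    (h : ∀ c, Q c ↔ ¬ Q' c) :
    ∑ c, (if Q c then 1 else 0) + ∑ c, (if Q' c then 1 else 0) = Fintype.card ι := by
  rw [← Finset.sum_add_distrib]
  have : ∀ c, (if Q c then 1 else 0) + (if Q' c then 1 else 0) = 1 := by
    intro c
    by_cases hc : Q' c
    · rw [if_pos hc, if_neg (fun h' => (h c).1 h' hc)]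
    · rw [if_neg hc, if_pos ((h c).2 hc)]
  rw [Finset.sum_congr rfl (fun c _ => this c)]
  simp

theorem inout {A : Type*} [Fintype A] (G : A → A → A → Prop)
    (hrot : ∀ a b c, G a b c → G b c a) (hfun : ∀ a b c c', G a b c → G a b c' → c = c')
    (D : A → A → Prop) [∀ v v', Decidable (D v v')] (hD : ∀ a b, D a b ↔ ¬ ∃ c, G a b c) (a : A) :
    ∑ b, (if D b a then 1 else 0) = ∑ b, (if D a b then 1 else 0) := by
  classical
  have e1 := ind_compl (fun b => D a b) (fun b => ∃ c, G a b c) (fun b => hD a b)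
  have e2 := ind_compl (fun b => D b a) (fun b => ∃ c, G b a c) (fun b => hD b a)
  have e3 : ∑ b, (if ∃ c, G a b c then 1 else 0) = ∑ b, (if ∃ c, G b a c then 1 else 0) := by
    have f1 : ∀ b, (if ∃ c, G a b c then 1 else 0) = ∑ c, (if G a b c then 1 else 0) :=
      fun b => (ind_unique (fun c => G a b c) (fun c c' h h' => hfun _ _ _ _ h h')).symm
    have f2 : ∀ b, (if ∃ c, G b a c then 1 else 0) = ∑ c, (if G b a c then 1 else 0) :=
      fun b => (ind_unique (fun c => G b a c) (fun c c' h h' => hfun _ _ _ _ h h')).symm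
    rw [Finset.sum_congr rfl (fun b _ => f1 b), Finset.sum_congr rfl (fun b _ => f2 b),
      Finset.sum_comm]
    refine Finset.sum_congr rfl (fun c _ => Finset.sum_congr rfl (fun b _ => ?_))
    have : G a b c ↔ G c a b := ⟨fun h => hrot _ _ _ (hrot _ _ _ h), fun h => hrot _ _ _ h⟩
    by_cases h : G a b c
    · rw [if_pos h, if_pos (this.1 h)]
    · rw [if_neg h, if_neg (fun h' => h (this.2 h'))]
  omega

theorem exists_between {ι : Type*} [Fintype ι] (l u : ι → ℕ) (hlu : ∀ i, l i ≤ u i)
    (q : ℕ) (h1 : ∑ i, l i ≤ q) (h2 : q ≤ ∑ i, u i) :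
    ∃ ρ : ι → ℕ, (∀ i, l i ≤ ρ i ∧ ρ i ≤ u i) ∧ ∑ i, ρ i = q := by
  classical
  induction q, h1 using Nat.le_induction with
  | base => exact ⟨l, fun i => ⟨le_refl _, hlu i⟩, rfl⟩
  | succ q hq ih =>
    obtain ⟨ρ, hρ, hs⟩ := ih (by omega)
    have hex : ∃ i, ρ i < u i := by
      by_contra hcon
      push Not at hcon
      have : ∑ i, u i ≤ ∑ i, ρ i := Finset.sum_le_sum (fun i _ => hcon i)
      omega
    obtain ⟨i, hi⟩ := hex
    refine ⟨Function.update ρ i (ρ i + 1), fun j => ?_, ?_⟩
    · by_cases hj : j = i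
      · subst hj
        rw [Function.update_self]
        have := hρ j
        omega
      · rw [Function.update_of_ne hj]
        exact hρ j
    · rw [Finset.sum_update_of_mem (mem_univ i)]
      have := Finset.sum_erase_add univ ρ (mem_univ i)
      rw [Finset.sdiff_singleton_eq_erase]
      omega

theorem half_count (a : ℕ) [NeZero a] (x : Fin a) :
    a ≤ 2 * (univ.filter (fun y : Fin a => y < x - y)).card + 2 := by
  classical
  have e1 : (univ.filter (fun y : Fin a => y < x - y)).card =
      (univ.filter (fun y : Fin a => x - y < y)).card := by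
    refine Finset.card_bij' (fun y _ => x - y) (fun y _ => x - y) ?_ ?_ ?_ ?_
    · intro y hy
      rw [mem_filter] at hy ⊢
      refine ⟨mem_univ _, ?_⟩
      rw [sub_sub_cancel]
      exact hy.2
    · intro y hy
      rw [mem_filter] at hy ⊢
      refine ⟨mem_univ _, ?_⟩
      rw [sub_sub_cancel]
      exact hy.2
    · intro y _
      exact sub_sub_cancel x y
    · intro y _
      exact sub_sub_cancel x y
  have e2 : (univ.filter (fun y : Fin a => y = x - y)).card ≤ 2 := by
    have : (univ.filter (fun y : Fin a => y = x - y)).card ≤ (univ : Finset Bool).card := by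
      refine Finset.card_le_card_of_injOn (fun y => decide (2 * (y : ℕ) = x)) (fun _ _ => mem_univ _) ?_
      intro y hy y' hy' h
      have k : ∀ w : Fin a, w = x - w → 2 * (w : ℕ) = x ∨ 2 * (w : ℕ) = x + a := by
        intro w hw
        have h1 : w + w = x := eq_sub_iff_add_eq.1 hw
        have h2 := congrArg Fin.val h1
        rw [Fin.val_add] at h2
        have hw2 := w.2
        rcases Nat.lt_or_ge ((w : ℕ) + w) a with hlt | hge
        · rw [Nat.mod_eq_of_lt hlt] at h2
          left; omega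
        · have : ((w : ℕ) + w) % a = w + w - a := by
            rw [Nat.mod_eq_sub_mod hge, Nat.mod_eq_of_lt (by omega)]
          rw [this] at h2
          right; omega
      have hy1 := k y (by simpa using hy)
      have hy2 := k y' (by simpa using hy')
      apply Fin.ext
      simp only [decide_eq_decide] at h
      omega
    simpa using this
  have e3 : (univ : Finset (Fin a)) ⊆ (univ.filter (fun y : Fin a => y < x - y)) ∪
      ((univ.filter (fun y : Fin a => x - y < y)) ∪ (univ.filter (fun y : Fin a => y = x - y))) := by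
    intro y _
    rcases lt_trichotomy y (x - y) with h | h | h
    · exact mem_union_left _ (mem_filter.2 ⟨mem_univ _, h⟩)
    · exact mem_union_right _ (mem_union_right _ (mem_filter.2 ⟨mem_univ _, h⟩))
    · exact mem_union_right _ (mem_union_left _ (mem_filter.2 ⟨mem_univ _, h⟩))
  have e4 := Finset.card_le_card e3
  have e5 := Finset.card_union_le (univ.filter (fun y : Fin a => y < x - y))
    ((univ.filter (fun y : Fin a => x - y < y)) ∪ (univ.filter (fun y : Fin a => y = x - y)))
  have e6 := Finset.card_union_le (univ.filter (fun y : Fin a => x - y < y))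
    (univ.filter (fun y : Fin a => y = x - y))
  rw [card_univ, Fintype.card_fin] at e4
  omega

theorem j_facts (m e j : ℕ) (hm : 3 ≤ m) (hj : j ≤ 2) [NeZero (m + e)] :
    (∀ x : Fin m, ∑ y : Fin (m + e), (if (y : ℕ) < j ∧ y + y = Fin.castAdd e x then 1 else 0) ≤ 1) ∧
    (∀ y : Fin (m + e), (y : ℕ) < j → ∃ x : Fin m, y + y = Fin.castAdd e x) ∧
    (∑ x : Fin m, ∑ y : Fin (m + e),
      (if (y : ℕ) < j ∧ y + y = Fin.castAdd e x then 1 else 0) = j) := by
  classical
  have hval : ∀ y : Fin (m + e), (y : ℕ) < j → ((y + y : Fin (m + e)) : ℕ) = (y : ℕ) + y := by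
    intro y hy
    rw [Fin.val_add, Nat.mod_eq_of_lt (by omega)]
  have hex : ∀ y : Fin (m + e), (y : ℕ) < j → ∃ x : Fin m, y + y = Fin.castAdd e x := by
    intro y hy
    refine ⟨⟨(y : ℕ) + y, by omega⟩, ?_⟩
    apply Fin.ext
    rw [hval y hy]
    rfl
  refine ⟨?_, hex, ?_⟩
  · intro x
    rw [ind_unique (fun y : Fin (m + e) => (y : ℕ) < j ∧ y + y = Fin.castAdd e x)]
    · split_ifs <;> omega
    · rintro y y' ⟨h1, h2⟩ ⟨h3, h4⟩
      have h5 := hval y h1
      have h6 := hval y' h3
      rw [h2] at h5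
      rw [h4] at h6
      apply Fin.ext
      omega
  · rw [Finset.sum_comm]
    have h1 : ∀ y : Fin (m + e), ∑ x : Fin m, (if (y : ℕ) < j ∧ y + y = Fin.castAdd e x then 1 else 0) =
        if (y : ℕ) < j then 1 else 0 := by
      intro y
      rw [ind_unique (fun x : Fin m => (y : ℕ) < j ∧ y + y = Fin.castAdd e x)]
      · by_cases h : (y : ℕ) < j
        · obtain ⟨x, hx⟩ := hex y h
          rw [if_pos h, if_pos ⟨x, h, hx⟩]
        · rw [if_neg h, if_neg]
          rintro ⟨x, hx, _⟩
          exact h hx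
      · rintro x x' ⟨_, h2⟩ ⟨_, h4⟩
        exact Fin.castAdd_injective m e (h2.symm.trans h4)
    rw [Finset.sum_congr rfl (fun y _ => h1 y), ← Finset.card_filter]
    have h2 : (univ.filter (fun y : Fin (m + e) => (y : ℕ) < j)).card = (univ : Finset (Fin j)).card := by
      refine Finset.card_bij' (fun y hy => ⟨(y : ℕ), (mem_filter.1 hy).2⟩)
        (fun i _ => ⟨(i : ℕ), by omega⟩) ?_ ?_ ?_ ?_
      · intro y hy
        exact mem_univ _
      · intro i _
        exact mem_filter.2 ⟨mem_univ _, i.2⟩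
      · intro y hy
        rfl
      · intro i _
        rfl
    rw [h2]
    simp

/-- the number of missing pairs does not leave exactly one defined pair off the diagonal -/
theorem not_one (m : ℕ) (G0 : Fin m → Fin m → Fin m → Prop)
    (rot0 : ∀ a b c, G0 a b c → G0 b c a) (loop0 : ∀ x, ∃ z, G0 x x z)
    (D0 : Fin m → Fin m → Prop) [∀ v v', Decidable (D0 v v')] (hD0 : ∀ a b, D0 a b ↔ ¬ ∃ c, G0 a b c)
    (h : ∑ x, ∑ y, (if D0 x y then 1 else 0) + 1 = m * (m - 1)) : False := by
  classical
  have e1 : ∀ x, ∑ y, (if D0 x y then 1 else 0) + ∑ y, (if x ≠ y ∧ ¬ D0 x y then 1 else 0) = m - 1 := by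
    intro x
    rw [← Finset.sum_add_distrib]
    have : ∀ y, (if D0 x y then 1 else 0) + (if x ≠ y ∧ ¬ D0 x y then 1 else 0) =
        if x = y then 0 else 1 := by
      intro y
      by_cases hxy : x = y
      · subst hxy
        have hn : ¬ D0 x x := fun hd => (hD0 x x).1 hd (loop0 x)
        simp [hn]
      · by_cases hd : D0 x y
        · simp [hd, hxy]
        · simp [hd, hxy]
    rw [Finset.sum_congr rfl (fun y _ => this y)]
    have h2 : ∑ y, (if x = y then 0 else 1) + ∑ y : Fin m, (if x = y then 1 else 0) = m := by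
      rw [← Finset.sum_add_distrib]
      have : ∀ y : Fin m, (if x = y then 0 else 1) + (if x = y then 1 else 0) = 1 := by
        intro y; split_ifs <;> rfl
      rw [Finset.sum_congr rfl (fun y _ => this y)]
      simp
    have h3 : ∑ y : Fin m, (if x = y then 1 else 0) = 1 := by simp
    omega
  have e2 : ∑ x, ∑ y, (if D0 x y then 1 else 0) + ∑ x, ∑ y, (if x ≠ y ∧ ¬ D0 x y then 1 else 0) =
      m * (m - 1) := by
    rw [← Finset.sum_add_distrib, Finset.sum_congr rfl (fun x _ => e1 x)]
    simp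
  have e3 : ∑ x, ∑ y, (if x ≠ y ∧ ¬ D0 x y then 1 else 0) = 1 := by omega
  have e4 : ∑ p : Fin m × Fin m, (if p.1 ≠ p.2 ∧ ¬ D0 p.1 p.2 then 1 else 0) = 1 := by
    rw [Fintype.sum_prod_type]
    exact e3
  obtain ⟨⟨x, y⟩, ⟨hne, hd⟩, hu⟩ := exists_of_sum_one _ e4
  have hz : ∃ z, G0 x y z := by
    by_contra hc
    exact hd ((hD0 x y).2 hc)
  obtain ⟨z, hz⟩ := hz
  by_cases hzy : z = y
  · subst hzy
    have h5 : G0 z x z := rot0 _ _ _ (rot0 _ _ _ hz)
    have h6 := hu (z, x) ⟨fun h => hne h.symm, fun h => (hD0 z x).1 h ⟨_, h5⟩⟩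
    exact hne (congrArg Prod.snd h6)
  · have h5 := rot0 _ _ _ hz
    have h6 := hu (y, z) ⟨fun h => hzy h.symm, fun h => (hD0 y z).1 h ⟨_, h5⟩⟩
    exact hne (congrArg Prod.fst h6).symm

theorem sum_four (m e : ℕ) (hme : (m = 3 ∧ e = 1) ∨ (m = 4 ∧ e = 0)) (F : Fin m → ℕ)
    (hg : ∀ x, 4 ≤ F x + 1)
    (hg2 : ∀ x : Fin m, (univ.filter (fun y : Fin (m + e) => y < Fin.castAdd e x - y)).card = 2 →
      9 ≤ F x + m) : m * (m + e) ≤ ∑ x, F x := by
  rcases hme with ⟨rfl, rfl⟩ | ⟨rfl, rfl⟩
  · have h1 := hg2 1 (by decide)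
    have h0 := hg 0
    have h2 := hg 2
    rw [Fin.sum_univ_three]
    omega
  · have h1 := hg2 1 (by decide)
    have h3 := hg2 3 (by decide)
    have h0 := hg 0
    have h2 := hg 2
    rw [Fin.sum_univ_four]
    omega

theorem extend_lemma (m e ε : ℕ) (hm : 3 ≤ m) (he : e ≤ 1) (hε : ε ≤ 1)
    (G0 : Fin m → Fin m → Fin m → Prop) (rot0 : ∀ a b c, G0 a b c → G0 b c a)
    (fun0 : ∀ a b c c', G0 a b c → G0 a b c' → c = c') (loop0 : ∀ x, ∃ z, G0 x x z) :
    ∃ f : (Fin m ⊕ Fin (m + e)) ⊕ (Fin (m + e) ⊕ Fin (m + ε)) →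
        (Fin m ⊕ Fin (m + e)) ⊕ (Fin (m + e) ⊕ Fin (m + ε)) →
        (Fin m ⊕ Fin (m + e)) ⊕ (Fin (m + e) ⊕ Fin (m + ε)),
      (∀ x y, f x (f y x) = y) ∧
      ∀ a b c, G0 a b c → f (Sum.inl (Sum.inl a)) (Sum.inl (Sum.inl b)) = Sum.inl (Sum.inl c) := by
  classical
  have : NeZero (m + e) := ⟨by omega⟩
  set D0 : Fin m → Fin m → Prop := fun x y => ¬ ∃ z, G0 x y z with hD0
  set δ : Fin m → ℕ := fun x => ∑ y, (if D0 x y then 1 else 0) with hδ
  have hδm : ∀ x, δ x + 1 ≤ m := by
    intro x
    have hn : ¬ D0 x x := fun hd => hd (loop0 x)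
    have h1 : δ x + ∑ y : Fin m, (if x = y then 1 else 0) ≤ ∑ y : Fin m, 1 := by
      rw [hδ, ← Finset.sum_add_distrib]
      refine Finset.sum_le_sum (fun y _ => ?_)
      by_cases hxy : x = y
      · subst hxy
        simp [hn]
      · simp only [if_neg hxy]
        split_ifs <;> omega
    simpa using h1
  have hΔ0 : ∑ x, δ x ≤ m * (m - 1) := by
    have : ∑ x, δ x ≤ ∑ x : Fin m, (m - 1) :=
      Finset.sum_le_sum (fun x _ => by have := hδm x; omega)
    simpa using this
  have hme : (m + e) * m = m * m + e * m := by ring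
  obtain ⟨h, hh, hh1, hh2⟩ : ∃ h, h + ε * (m + e) + ∑ x, δ x = m * (m + e) ∧ h ≠ 1 ∧
      (e = 1 → ε = 0 → 2 * m + (m - 1) * (∑ x, (if δ x = 0 then 1 else 0)) ≤ h) := by
    obtain ⟨k, hk⟩ : ∃ k, m = k + 3 := ⟨m - 3, by omega⟩
    have hmm : m * (m - 1) + m = m * m := by
      rw [hk]
      have : k + 3 - 1 = k + 2 := by omega
      rw [this]
      ring
    refine ⟨m * (m + e) - ε * (m + e) - ∑ x, δ x, ?_, ?_, ?_⟩
    · obtain rfl | rfl : ε = 0 ∨ ε = 1 := by omega
      · have : m * (m + e) = m * m + m * e := by ring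
        omega
      · obtain rfl | rfl : e = 0 ∨ e = 1 := by omega
        · simp only [Nat.add_zero]
          omega
        · have : m * (m + 1) = m * m + m := by ring
          omega
    · intro hcon
      obtain rfl | rfl : ε = 0 ∨ ε = 1 := by omega
      · obtain rfl | rfl : e = 0 ∨ e = 1 := by omega
        · simp only [Nat.add_zero] at hcon
          omega
        · have : m * (m + 1) = m * m + m := by ring
          omega
      · obtain rfl | rfl : e = 0 ∨ e = 1 := by omega
        · simp only [Nat.add_zero] at hcon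
          apply not_one m G0 rot0 loop0 D0 (fun a b => Iff.rfl)
          change ∑ x, δ x + 1 = m * (m - 1)
          omega
        · have : m * (m + 1) = m * m + m := by ring
          omega
    · intro h1 h2
      subst h1 h2
      have h3 : ∑ x, δ x + (m - 1) * (∑ x, (if δ x = 0 then 1 else 0)) ≤ m * (m - 1) := by
        rw [Finset.mul_sum, ← Finset.sum_add_distrib]
        have : ∑ x : Fin m, (δ x + (m - 1) * (if δ x = 0 then 1 else 0)) ≤ ∑ x : Fin m, (m - 1) := by
          refine Finset.sum_le_sum (fun x _ => ?_)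
          have := hδm x
          split_ifs with h0
          · rw [h0]; simp
          · omega
        simpa using this
      have : m * (m + 1) = m * m + m := by ring
      omega
  obtain ⟨j, q, hj, hjq⟩ : ∃ j q, j ≤ 2 ∧ 3 * q + 2 * j = h := by
    have h3 : h % 3 = 0 ∨ h % 3 = 1 ∨ h % 3 = 2 := by omega
    rcases h3 with h3 | h3 | h3
    · exact ⟨0, h / 3, by omega, by omega⟩
    · exact ⟨2, (h - 4) / 3, by omega, by omega⟩
    · exact ⟨1, (h - 2) / 3, by omega, by omega⟩
  obtain ⟨hr1, hJ, hrs⟩ := j_facts m e j hm hj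
  set r : Fin m → ℕ := fun x => ∑ y : Fin (m + e),
    (if (y : ℕ) < j ∧ y + y = Fin.castAdd e x then 1 else 0) with hr
  set U : Fin m → Finset (Fin (m + e)) := fun x =>
    univ.filter (fun y : Fin (m + e) => y < Fin.castAdd e x - y) with hU
  have hUc : ∀ x, m + e ≤ 2 * (U x).card + 2 := fun x => half_count (m + e) (Fin.castAdd e x)
  set u : Fin m → ℕ := fun x => min (m + e - δ x - r x) (U x).card with hu
  have hu3 : m + e ≠ 4 → ∀ x, m + e ≤ 3 * u x + 2 * r x + δ x := by
    intro h4 x
    have h1 := hδm x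
    have h2 := hr1 x
    have h3 := hUc x
    simp only [hu]
    rcases min_choice (m + e - δ x - r x) (U x).card with h4 | h4
    · rw [h4]
      change r x ≤ 1 at h2
      omega
    · rw [h4]
      omega
  have hqu' : m * (m + e) ≤ ∑ x, (3 * u x + 2 * r x + δ x) := by
    by_cases h4 : m + e = 4
    · refine sum_four m e (by omega) (fun x => 3 * u x + 2 * r x + δ x) ?_ ?_
      · intro x
        have h1 := hδm x
        have h2 := hr1 x
        have h3 := hUc x
        simp only [hu]
        rcases min_choice (m + e - δ x - r x) (U x).card with h5 | h5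
        · rw [h5]
          change r x ≤ 1 at h2
          omega
        · rw [h5]
          omega
      · intro x hx
        have h1 := hδm x
        have h2 := hr1 x
        change r x ≤ 1 at h2
        change (U x).card = 2 at hx
        simp only [hu]
        rcases min_choice (m + e - δ x - r x) (U x).card with h5 | h5
        · rw [h5]
          omega
        · rw [h5, hx]
          omega
    · have : ∑ x : Fin m, (m + e) ≤ ∑ x, (3 * u x + 2 * r x + δ x) :=
        Finset.sum_le_sum (fun x _ => hu3 h4 x)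
      simpa using this
  have hqu : q ≤ ∑ x, u x := by
    have h2 : ∑ x, r x = j := hrs
    have e2 : ∑ x, (3 * u x + 2 * r x + δ x) = 3 * ∑ x, u x + 2 * ∑ x, r x + ∑ x, δ x := by
      rw [Finset.sum_add_distrib, Finset.sum_add_distrib, Finset.mul_sum, Finset.mul_sum]
    rw [e2, h2] at hqu'
    omega
  set l : Fin m → ℕ := fun x => if e = 1 ∧ ε = 0 ∧ δ x = 0 ∧ r x = 0 then 1 else 0 with hl
  have hlu : ∀ x, l x ≤ u x := by
    intro x
    simp only [hl]
    split_ifs with h1
    · obtain ⟨_, _, h3, h4⟩ := h1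
      have h5 := hUc x
      simp only [hu]
      rw [h3, h4]
      simp only [Nat.sub_zero]
      exact le_min (by omega) (by omega)
    · exact Nat.zero_le _
  have hlq : ∑ x, l x ≤ q := by
    by_cases h1 : e = 1 ∧ ε = 0
    · have h2 := hh2 h1.1 h1.2
      have h3 : ∑ x, l x ≤ ∑ x, (if δ x = 0 then 1 else 0) := by
        refine Finset.sum_le_sum (fun x _ => ?_)
        simp only [hl]
        by_cases h4 : δ x = 0
        · rw [if_pos h4]
          split_ifs <;> omega
        · rw [if_neg h4, if_neg (fun h5 => h4 h5.2.2.1)]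
      by_cases hm3 : m = 3
      · have h5 : ∑ x, (if δ x = 0 then 1 else 0) ≤ ∑ x : Fin m, 1 :=
          Finset.sum_le_sum (fun x _ => by split_ifs <;> omega)
        have h6 : ∑ x : Fin m, 1 = m := by simp
        have h7 : (m - 1) * (∑ x, (if δ x = 0 then 1 else 0)) =
            2 * (∑ x, (if δ x = 0 then 1 else 0)) := by
          have h8 : m - 1 = 2 := by omega
          rw [h8]
        omega
      · have h4 : 3 * (∑ x, (if δ x = 0 then 1 else 0)) ≤
            (m - 1) * (∑ x, (if δ x = 0 then 1 else 0)) := Nat.mul_le_mul_right _ (by omega)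
        omega
    · have : ∑ x, l x = 0 := by
        refine Finset.sum_eq_zero (fun x _ => ?_)
        simp only [hl]
        rw [if_neg (fun h2 => h1 ⟨h2.1, h2.2.1⟩)]
      omega
  obtain ⟨ρ, hρ, hρs⟩ := exists_between l u hlu q hlq hqu
  have hRex : ∀ x, ∃ R : Finset (Fin (m + e)), R ⊆ U x ∧ R.card = ρ x := by
    intro x
    exact Finset.exists_subset_card_eq ((hρ x).2.trans (min_le_right _ _))
  choose R hRU hRc using hRex
  have hRlt : ∀ x y, y ∈ R x → y < Fin.castAdd e x - y := fun x y hy => (mem_filter.1 (hRU x hy)).2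
  set L : Fin (m + e) → Fin (m + e) → Fin m → Prop := fun y y' x =>
    y + y' = Fin.castAdd e x ∧ y ∉ R x ∧ ¬ (y = y' ∧ (y : ℕ) < j) with hL
  set G : Fin m ⊕ Fin (m + e) → Fin m ⊕ Fin (m + e) → Fin m ⊕ Fin (m + e) → Prop := fun p q t =>
    match p, q, t with
    | Sum.inl x, Sum.inl y, Sum.inl z => G0 x y z
    | Sum.inl x, Sum.inr y, Sum.inr y' => L y y' x
    | Sum.inr y, Sum.inr y', Sum.inl x => L y y' x
    | Sum.inr y', Sum.inl x, Sum.inr y => L y y' x
    | Sum.inr y, Sum.inr y', Sum.inr y'' => y = y' ∧ y' = y'' ∧ (y : ℕ) < j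
    | _, _, _ => False with hG
  have rotG : ∀ a b c, G a b c → G b c a := by
    rintro (a | a) (b | b) (c | c) h
    · exact rot0 _ _ _ h
    · exact h.elim
    · exact h.elim
    · exact h
    · exact h.elim
    · exact h
    · exact h
    · obtain ⟨h1, h2, h3⟩ := h
      exact ⟨h2, h2.symm.trans h1.symm, by rw [← h1]; exact h3⟩
  have funG : ∀ a b c c', G a b c → G a b c' → c = c' := by
    rintro (a | a) (b | b) (c | c) (c' | c') h h'
    · rw [fun0 _ _ _ _ h h']
    · exact h'.elim
    · exact h.elim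
    · exact h.elim
    · exact h.elim
    · exact h.elim
    · exact h'.elim
    · have h1 : b + c = Fin.castAdd e a := h.1
      have h2 : b + c' = Fin.castAdd e a := h'.1
      rw [add_left_cancel (h1.trans h2.symm)]
    · exact h.elim
    · exact h.elim
    · exact h'.elim
    · have h1 : c + a = Fin.castAdd e b := h.1
      have h2 : c' + a = Fin.castAdd e b := h'.1
      rw [add_right_cancel (h1.trans h2.symm)]
    · have h1 : a + b = Fin.castAdd e c := h.1
      have h2 : a + b = Fin.castAdd e c' := h'.1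
      rw [Fin.castAdd_injective m e (h1.symm.trans h2)]
    · exact absurd ⟨h'.1, h'.2.2⟩ h.2.2
    · exact absurd ⟨h.1, h.2.2⟩ h'.2.2
    · rw [← h.2.1, ← h'.2.1]
  set D : Fin m ⊕ Fin (m + e) → Fin m ⊕ Fin (m + e) → Prop := fun p q => ¬ ∃ t, G p q t with hD
  have hRsum : ∀ x, ∑ y, (if y ∈ R x then 1 else 0) = ρ x := by
    intro x
    simp [hRc x]
  have hRsum' : ∀ x, ∑ y, (if Fin.castAdd e x - y ∈ R x then 1 else 0) = ρ x := by
    intro x
    rw [← hRsum x]
    exact Equiv.sum_comp (Equiv.subLeft (Fin.castAdd e x)) (fun y => if y ∈ R x then 1 else 0)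
  set A1 : Fin (m + e) → ℕ := fun y => ∑ x, (if Fin.castAdd e x - y ∈ R x then 1 else 0) with hA1
  set A2 : Fin (m + e) → ℕ := fun y => ∑ x, (if y ∈ R x then 1 else 0) with hA2
  set A3 : Fin (m + e) → ℕ := fun y => ∑ x : Fin m,
    (if (y : ℕ) < j ∧ y + y = Fin.castAdd e x then 1 else 0) with hA3
  have sA1 : ∑ y, A1 y = q := by
    rw [hA1, Finset.sum_comm, Finset.sum_congr rfl (fun x _ => hRsum' x)]
    exact hρs
  have sA2 : ∑ y, A2 y = q := by
    rw [hA2, Finset.sum_comm, Finset.sum_congr rfl (fun x _ => hRsum x)]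
    exact hρs
  have sA3 : ∑ y, A3 y = j := by
    rw [hA3, Finset.sum_comm]
    exact hrs
  set d : Fin m ⊕ Fin (m + e) → ℕ := fun p =>
    match p with
    | Sum.inl x => δ x + (ρ x + r x)
    | Sum.inr y => (A1 y + A3 y) + (A2 y + e) with hd
  -- exclusivity
  have ex1 : ∀ x y, y ∈ R x → ¬ (y + y = Fin.castAdd e x) := by
    intro x y h1 h2
    have h3 := hRlt x y h1
    rw [← h2, add_sub_cancel_right] at h3
    exact lt_irrefl _ h3
  have ex2 : ∀ x y, Fin.castAdd e x - y ∈ R x → ¬ (y + y = Fin.castAdd e x) := by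
    intro x y h1 h2
    have h3 := hRlt x _ h1
    rw [← h2, add_sub_cancel_right, add_sub_cancel_right] at h3
    exact lt_irrefl _ h3
  have ex3 : ∀ x y, Fin.castAdd e x - y ∈ R x → ¬ (y ∈ R x) := by
    intro x y h1 h2
    have h3 := hRlt x _ h1
    have h4 := hRlt x _ h2
    rw [sub_sub_cancel] at h3
    exact lt_asymm h3 h4
  have dLL : ∀ x y, D (Sum.inl x) (Sum.inl y) ↔ D0 x y := by
    intro x y
    constructor
    · rintro h ⟨z, hz⟩
      exact h ⟨Sum.inl z, hz⟩
    · rintro h ⟨t, ht⟩
      rcases t with z | z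
      · exact h ⟨z, ht⟩
      · exact ht
  have dLR : ∀ x y, D (Sum.inl x) (Sum.inr y) ↔ (y ∈ R x ∨ ((y : ℕ) < j ∧ y + y = Fin.castAdd e x)) := by
    intro x y
    constructor
    · intro h
      by_contra hcon
      push Not at hcon
      apply h
      refine ⟨Sum.inr (Fin.castAdd e x - y), ?_, hcon.1, ?_⟩
      · exact add_sub_cancel _ _
      · rintro ⟨h1, h2⟩
        exact hcon.2 h2 (eq_sub_iff_add_eq.1 h1)
    · rintro h ⟨t, ht⟩
      rcases t with z | z
      · exact ht
      · obtain ⟨h1, h2, h3⟩ := ht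
        rcases h with h | ⟨h4, h5⟩
        · exact h2 h
        · exact h3 ⟨add_left_cancel (h5.trans h1.symm), h4⟩
  have dRL : ∀ x y, D (Sum.inr y) (Sum.inl x) ↔
      (Fin.castAdd e x - y ∈ R x ∨ ((y : ℕ) < j ∧ y + y = Fin.castAdd e x)) := by
    intro x y
    constructor
    · intro h
      by_contra hcon
      push Not at hcon
      apply h
      refine ⟨Sum.inr (Fin.castAdd e x - y), ?_, hcon.1, ?_⟩
      · exact sub_add_cancel _ _
      · rintro ⟨h1, h2⟩
        rw [h1] at h2
        exact hcon.2 h2 (sub_eq_iff_eq_add.1 h1).symm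
    · rintro h ⟨t, ht⟩
      rcases t with z | z
      · exact ht
      · obtain ⟨h1, h2, h3⟩ := ht
        have h1' : z = Fin.castAdd e x - y := eq_sub_iff_add_eq.2 h1
        rcases h with h | ⟨h4, h5⟩
        · rw [h1'] at h2
          exact h2 h
        · have h6 : z = y := add_right_cancel (h1.trans h5.symm)
          exact h3 ⟨h6, by rw [h6]; exact h4⟩
  have dRR1 : ∀ x y, D (Sum.inr y) (Sum.inr (Fin.castAdd e x - y)) ↔ y ∈ R x := by
    intro x y
    constructor
    · intro h
      by_contra hcon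
      by_cases h1 : y = Fin.castAdd e x - y ∧ (y : ℕ) < j
      · exact h ⟨Sum.inr y, h1.1, h1.1.symm, h1.2⟩
      · exact h ⟨Sum.inl x, add_sub_cancel _ _, hcon, h1⟩
    · rintro h ⟨t, ht⟩
      rcases t with z | z
      · obtain ⟨h1, h2, h3⟩ := ht
        rw [add_sub_cancel] at h1
        rw [Fin.castAdd_injective m e h1] at h
        exact h2 h
      · obtain ⟨h1, h2, h3⟩ := ht
        exact ex1 x y h (eq_sub_iff_add_eq.1 h1)
  have dRR2 : ∀ (i : Fin e) y, D (Sum.inr y) (Sum.inr (Fin.natAdd m i - y)) := by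
    rintro i y ⟨t, ht⟩
    have hne : ∀ x : Fin m, Fin.natAdd m i ≠ Fin.castAdd e x := by
      intro x h
      have := congrArg Fin.val h
      simp at this
      omega
    rcases t with z | z
    · obtain ⟨h1, h2, h3⟩ := ht
      rw [add_sub_cancel] at h1
      exact hne z h1
    · obtain ⟨h1, h2, h3⟩ := ht
      obtain ⟨x, hx⟩ := hJ y h3
      exact hne x ((eq_sub_iff_add_eq.1 h1).symm.trans hx)
  have hor : ∀ (a b : Prop) [Decidable a] [Decidable b], (a → ¬ b) →
      (if a ∨ b then 1 else 0) = (if a then 1 else 0) + (if b then 1 else 0) := by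
    intro a b _ _ hab
    by_cases ha : a
    · simp [ha, hab ha]
    · by_cases hb : b <;> simp [ha, hb]
  have hout : ∀ v, ∑ v', (if D v v' then 1 else 0) = d v := by
    rintro (x | y)
    · rw [Fintype.sum_sum_type]
      have e1 : ∑ y, (if D (Sum.inl x) (Sum.inl y) then 1 else 0) = δ x := by
        rw [hδ]
        refine Finset.sum_congr rfl (fun y _ => ?_)
        simp only [dLL]
      have e2 : ∑ y, (if D (Sum.inl x) (Sum.inr y) then 1 else 0) = ρ x + r x := by
        rw [← hRsum x, hr, ← Finset.sum_add_distrib]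
        refine Finset.sum_congr rfl (fun y _ => ?_)
        simp only [dLR]
        exact hor _ _ (fun h1 h2 => ex1 x y h1 h2.2)
      rw [e1, e2]
    · rw [Fintype.sum_sum_type]
      have e1 : ∑ x, (if D (Sum.inr y) (Sum.inl x) then 1 else 0) = A1 y + A3 y := by
        rw [hA1, hA3, ← Finset.sum_add_distrib]
        refine Finset.sum_congr rfl (fun x _ => ?_)
        simp only [dRL]
        exact hor _ _ (fun h1 h2 => ex2 x y h1 h2.2)
      have e2 : ∑ y', (if D (Sum.inr y) (Sum.inr y') then 1 else 0) = A2 y + e := by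
        rw [← Equiv.sum_comp (Equiv.subRight y) (fun y' => if D (Sum.inr y) (Sum.inr y') then 1 else 0),
          Fin.sum_univ_add]
        congr 1
        · refine Finset.sum_congr rfl (fun x _ => ?_)
          simp only [Equiv.subRight_apply, dRR1]
        · have : ∀ i : Fin e, (if D (Sum.inr y) (Sum.inr (Equiv.subRight y (Fin.natAdd m i))) then 1 else 0) = 1 := by
            intro i
            rw [if_pos]
            exact dRR2 i y
          rw [Finset.sum_congr rfl (fun i _ => this i)]
          simp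
      rw [e1, e2]
  have hin : ∀ v', ∑ v, (if D v v' then 1 else 0) = d v' := by
    intro v'
    rw [← hout v']
    exact inout G rotG funG D (fun a b => Iff.rfl) v'
  have hdw : ∀ v, d v ≤ m + e := by
    rintro (x | y)
    · have h1 := (hρ x).2
      have h2 : u x ≤ m + e - δ x - r x := min_le_left _ _
      have h3 := hδm x
      have h4 := hr1 x
      change r x ≤ 1 at h4
      change δ x + (ρ x + r x) ≤ m + e
      omega
    · have h1 : A1 y + A3 y + A2 y ≤ ∑ x : Fin m, 1 := by
        rw [hA1, hA3, hA2, ← Finset.sum_add_distrib, ← Finset.sum_add_distrib]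
        refine Finset.sum_le_sum (fun x _ => ?_)
        have k1 := ex1 x y
        have k2 := ex2 x y
        have k3 := ex3 x y
        by_cases c1 : Fin.castAdd e x - y ∈ R x
        · have c2 := k2 c1
          have c3 := k3 c1
          simp [c1, c2, c3]
        · by_cases c4 : y ∈ R x
          · have c2 := k1 c4
            simp [c1, c2, c4]
          · simp only [c1, c4, if_false]
            split_ifs <;> omega
      simp only [sum_const, card_univ, Fintype.card_fin, smul_eq_mul, mul_one] at h1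
      change (A1 y + A3 y) + (A2 y + e) ≤ m + e
      omega
  have hdz : ∀ v, m + e ≤ d v + (m + ε) := by
    rintro (x | y)
    · change m + e ≤ δ x + (ρ x + r x) + (m + ε)
      have h1 := (hρ x).1
      simp only [hl] at h1
      by_cases h2 : e = 1 ∧ ε = 0 ∧ δ x = 0 ∧ r x = 0
      · rw [if_pos h2] at h1
        omega
      · omega
    · change m + e ≤ (A1 y + A3 y) + (A2 y + e) + (m + ε)
      omega
  have htot : ∑ v, d v + ε * (m + e) = (m + e) * (m + e) := by
    rw [Fintype.sum_sum_type]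
    have e1 : ∑ x : Fin m, d (Sum.inl x) = ∑ x, δ x + (q + j) := by
      change ∑ x, (δ x + (ρ x + r x)) = _
      rw [Finset.sum_add_distrib, Finset.sum_add_distrib, hρs]
      congr 2
    have e2 : ∑ y : Fin (m + e), d (Sum.inr y) = (q + j) + (q + (m + e) * e) := by
      change ∑ y, ((A1 y + A3 y) + (A2 y + e)) = _
      rw [Finset.sum_add_distrib, Finset.sum_add_distrib, Finset.sum_add_distrib, sA1, sA2, sA3]
      simp
    rw [e1, e2]
    have e3 : (m + e) * (m + e) = m * (m + e) + (m + e) * e := by ring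
    omega
  obtain ⟨f, hf1, hf2⟩ := completion (m + e) (m + ε) ε hε (by omega)
    (by simp only [Fintype.card_sum, Fintype.card_fin]; omega) G rotG funG d hdw hdz D
    (fun a b => Iff.rfl) hout hin htot
  exact ⟨f, hf1, fun a b c h => hf2 _ _ _ h⟩

theorem assemble (n t : ℕ) (P : Fin n → Fin n → Option (Fin n))
    (hP : ∀ x y z, P y x = some z → P x z = some y) (ht : 4 * n ≤ t) (ht' : 12 ≤ t) :
    ∃ (f : Fin t → Fin t → Fin t) (φ : Fin n → Fin t),
      (∀ a, Function.Bijective (f a)) ∧
      (∀ b, Function.Bijective (fun a => f a b)) ∧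
      (∀ x y, f x (f y x) = y) ∧
      Function.Injective φ ∧
      ∀ a b c, P a b = some c → f (φ a) (φ b) = φ c := by
  classical
  obtain ⟨m, e, ε, hm3, he, hε, hmn, hte⟩ : ∃ m e ε : ℕ, 3 ≤ m ∧ e ≤ 1 ∧ ε ≤ 1 ∧ n ≤ m ∧
      t = (m + (m + e)) + ((m + e) + (m + ε)) := by
    have h4 : t % 4 = 0 ∨ t % 4 = 1 ∨ t % 4 = 2 ∨ t % 4 = 3 := by omega
    rcases h4 with h | h | h | h
    · exact ⟨t / 4, 0, 0, by omega, by omega, by omega, by omega, by omega⟩
    · exact ⟨t / 4, 0, 1, by omega, by omega, by omega, by omega, by omega⟩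
    · exact ⟨t / 4, 1, 0, by omega, by omega, by omega, by omega, by omega⟩
    · exact ⟨t / 4, 1, 1, by omega, by omega, by omega, by omega, by omega⟩
  set ι : Fin n → Fin m := Fin.castLE hmn with hι
  have hιi : Function.Injective ι := Fin.castLE_injective hmn
  set P' : Fin m → Fin m → Fin m → Prop := fun x y z =>
    ∃ a b c, P a b = some c ∧ ι a = x ∧ ι b = y ∧ ι c = z with hP'
  have rotP : ∀ a b c, P' a b c → P' b c a := by
    rintro _ _ _ ⟨a, b, c, h, rfl, rfl, rfl⟩
    exact ⟨b, c, a, hP b a c h, rfl, rfl, rfl⟩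
  have funP : ∀ a b c c', P' a b c → P' a b c' → c = c' := by
    rintro _ _ _ _ ⟨a, b, c, h, rfl, rfl, rfl⟩ ⟨a', b', c', h', ha, hb, rfl⟩
    have ha' := hιi ha
    have hb' := hιi hb
    subst ha' hb'
    rw [h] at h'
    rw [Option.some.inj h']
  set G0 : Fin m → Fin m → Fin m → Prop := fun x y z =>
    P' x y z ∨ (x = y ∧ y = z ∧ ∀ w, ¬ P' x x w) with hG0
  have rot0 : ∀ a b c, G0 a b c → G0 b c a := by
    rintro a b c (h | ⟨rfl, rfl, h⟩)
    · exact Or.inl (rotP _ _ _ h)
    · exact Or.inr ⟨rfl, rfl, h⟩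
  have fun0 : ∀ a b c c', G0 a b c → G0 a b c' → c = c' := by
    rintro a b c c' (h | ⟨rfl, rfl, h⟩) (h' | ⟨h1, h2, h3⟩)
    · exact funP _ _ _ _ h h'
    · subst h1 h2
      exact absurd h (h3 c)
    · exact absurd h' (h c')
    · exact h2
  have loop0 : ∀ x, ∃ z, G0 x x z := by
    intro x
    by_cases h : ∃ w, P' x x w
    · obtain ⟨w, hw⟩ := h
      exact ⟨w, Or.inl hw⟩
    · push Not at h
      exact ⟨x, Or.inr ⟨rfl, rfl, h⟩⟩
  obtain ⟨f, hf1, hf2⟩ := extend_lemma m e ε hm3 he hε G0 rot0 fun0 loop0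
  have hcard : Fintype.card ((Fin m ⊕ Fin (m + e)) ⊕ (Fin (m + e) ⊕ Fin (m + ε))) = t := by
    simp only [Fintype.card_sum, Fintype.card_fin]
    exact hte.symm
  set E := Fintype.equivFinOfCardEq hcard with hE
  set F : Fin t → Fin t → Fin t := fun x y => E (f (E.symm x) (E.symm y)) with hF
  have hFs : ∀ x y, F x (F y x) = y := by
    intro x y
    simp only [hF, Equiv.symm_apply_apply, hf1, Equiv.apply_symm_apply]
  have hsurj : ∀ a, Function.Surjective (F a) := fun a y => ⟨F y a, hFs a y⟩
  have hinj : ∀ b, Function.Injective (fun a => F a b) := by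
    intro b a a' h
    have h1 := hFs b a
    have h2 := hFs b a'
    simp only [] at h
    rw [h] at h1
    exact h1.symm.trans h2
  refine ⟨F, fun a => E (Sum.inl (Sum.inl (ι a))), ?_, ?_, hFs, ?_, ?_⟩
  · exact fun a => Finite.surjective_iff_bijective.1 (hsurj a)
  · exact fun b => Finite.injective_iff_bijective.1 (hinj b)
  · intro a a' h
    exact hιi (Sum.inl.inj (Sum.inl.inj (E.injective h)))
  · intro a b c h
    simp only [hF, Equiv.symm_apply_apply]
    rw [hf2 (ι a) (ι b) (ι c) (Or.inl ⟨a, b, c, h, rfl, rfl, rfl⟩)]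

/-! ### small orders -/

theorem finish_embedding {n t : ℕ} (f : Fin t → Fin t → Fin t) (hf : ∀ x y, f x (f y x) = y)
    (φ : Fin n → Fin t) (hφ : Function.Injective φ) (P : Fin n → Fin n → Option (Fin n))
    (h : ∀ a b c, P a b = some c → f (φ a) (φ b) = φ c) :
    ∃ (f : Fin t → Fin t → Fin t) (φ : Fin n → Fin t),
      (∀ a, Function.Bijective (f a)) ∧
      (∀ b, Function.Bijective (fun a => f a b)) ∧
      (∀ x y, f x (f y x) = y) ∧
      Function.Injective φ ∧
      ∀ a b c, P a b = some c → f (φ a) (φ b) = φ c := by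
  have hsurj : ∀ a, Function.Surjective (f a) := fun a y => ⟨f y a, hf a y⟩
  have hinj : ∀ b, Function.Injective (fun a => f a b) := by
    intro b a a' h
    have h1 := hf b a
    have h2 := hf b a'
    simp only [] at h
    rw [h] at h1
    exact h1.symm.trans h2
  exact ⟨f, φ, fun a => Finite.surjective_iff_bijective.1 (hsurj a),
    fun b => Finite.injective_iff_bijective.1 (hinj b), hf, hφ, h⟩

/-- the three kinds of partial tables on two points -/
theorem two_points (P : Fin 2 → Fin 2 → Option (Fin 2))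
    (hP : ∀ x y z, P y x = some z → P x z = some y) :
    (∀ a b c, P a b = some c → a = b ∧ b = c) ∨ (∀ a b c, P a b = some c → c = a + b) ∨
      (∀ a b c, P a b = some c → c = a + b + 1) := by
  by_cases h0 : P 0 0 = some 1
  · right; right
    have h1 := hP _ _ _ h0
    have h2 := hP _ _ _ h1
    intro a b c h
    have h3 := hP _ _ _ h
    have h4 := hP _ _ _ h3
    fin_cases a <;> fin_cases b <;> fin_cases c <;> simp_all
  · by_cases h1 : P 1 1 = some 0
    · right; left
      have h2 := hP _ _ _ h1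
      have h3 := hP _ _ _ h2
      intro a b c h
      have h4 := hP _ _ _ h
      have h5 := hP _ _ _ h4
      fin_cases a <;> fin_cases b <;> fin_cases c <;> simp_all
    · left
      intro a b c h
      have h4 := hP _ _ _ h
      have h5 := hP _ _ _ h4
      fin_cases a <;> fin_cases b <;> fin_cases c <;> simp_all

theorem table_embedding {t : ℕ} (f : Fin t → Fin t → Fin t) (hf : ∀ x y, f x (f y x) = y)
    (a b c d : Fin t) (hab : a ≠ b) (hcd : c ≠ d) (ha : f a a = a) (hb : f b b = b)
    (hc : f c c = c) (hcd1 : f c d = d) (hdc : f d c = d) (hdd : f d d = c)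
    (P : Fin 2 → Fin 2 → Option (Fin 2))
    (hP : ∀ x y z, P y x = some z → P x z = some y) :
    ∃ (f : Fin t → Fin t → Fin t) (φ : Fin 2 → Fin t),
      (∀ a, Function.Bijective (f a)) ∧
      (∀ b, Function.Bijective (fun a => f a b)) ∧
      (∀ x y, f x (f y x) = y) ∧
      Function.Injective φ ∧
      ∀ a b c, P a b = some c → f (φ a) (φ b) = φ c := by
  have hinj : ∀ x y : Fin t, x ≠ y → Function.Injective (![x, y] : Fin 2 → Fin t) := by
    intro x y hxy i j hij
    fin_cases i <;> fin_cases j <;> simp_all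
  rcases two_points P hP with h | h | h
  · refine finish_embedding f hf ![a, b] (hinj _ _ hab) P ?_
    intro x y z hz
    obtain ⟨rfl, rfl⟩ := h x y z hz
    fin_cases x
    · exact ha
    · exact hb
  · refine finish_embedding f hf ![c, d] (hinj _ _ hcd) P ?_
    intro x y z hz
    have := h x y z hz
    subst this
    fin_cases x <;> fin_cases y
    · exact hc
    · exact hcd1
    · exact hdc
    · exact hdd
  · refine finish_embedding f hf ![d, c] (hinj _ _ hcd.symm) P ?_
    intro x y z hz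
    have := h x y z hz
    subst this
    fin_cases x <;> fin_cases y
    · exact hdd
    · exact hdc
    · exact hcd1
    · exact hc

def tab8 : Fin 8 → Fin 8 → Fin 8 :=
  ![![0, 6, 5, 1, 3, 4, 2, 7],
    ![3, 1, 6, 7, 4, 2, 0, 5],
    ![6, 5, 2, 3, 7, 0, 1, 4],
    ![4, 0, 3, 2, 5, 6, 7, 1],
    ![5, 4, 7, 0, 1, 3, 6, 2],
    ![2, 7, 1, 4, 0, 5, 3, 6],
    ![1, 2, 0, 5, 6, 7, 4, 3],
    ![7, 3, 4, 6, 2, 1, 5, 0]]

theorem tab8_semi : ∀ x y : Fin 8, tab8 x (tab8 y x) = y := by decide +kernel

def tab9 : Fin 9 → Fin 9 → Fin 9 :=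
  ![![0, 8, 7, 1, 5, 2, 4, 6, 3],
    ![3, 1, 6, 7, 8, 5, 2, 4, 0],
    ![5, 6, 2, 3, 4, 8, 1, 0, 7],
    ![8, 0, 3, 2, 7, 4, 5, 1, 6],
    ![6, 7, 4, 5, 2, 0, 8, 3, 1],
    ![4, 5, 0, 6, 3, 1, 7, 8, 2],
    ![7, 2, 1, 8, 0, 3, 6, 5, 4],
    ![2, 3, 8, 4, 1, 6, 0, 7, 5],
    ![1, 4, 5, 0, 6, 7, 3, 2, 8]]

theorem tab9_semi : ∀ x y : Fin 9, tab9 x (tab9 y x) = y := by decide +kernel

def tab10 : Fin 10 → Fin 10 → Fin 10 :=
  ![![0, 9, 7, 8, 4, 3, 5, 2, 6, 1],
    ![9, 1, 5, 6, 7, 2, 4, 3, 8, 0],
    ![7, 5, 2, 3, 9, 1, 8, 0, 4, 6],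
    ![5, 7, 3, 2, 6, 4, 1, 9, 0, 8],
    ![4, 6, 8, 5, 0, 7, 3, 1, 9, 2],
    ![6, 2, 1, 0, 3, 8, 7, 4, 5, 9],
    ![8, 3, 9, 4, 1, 0, 6, 5, 2, 7],
    ![2, 4, 0, 1, 5, 6, 9, 8, 7, 3],
    ![3, 8, 6, 9, 2, 5, 0, 7, 1, 4],
    ![1, 0, 4, 7, 8, 9, 2, 6, 3, 5]]

theorem tab10_semi : ∀ x y : Fin 10, tab10 x (tab10 y x) = y := by decide +kernel

def tab11 : Fin 11 → Fin 11 → Fin 11 :=
  ![![0, 10, 7, 4, 2, 5, 3, 6, 9, 8, 1],
    ![10, 1, 6, 9, 7, 3, 2, 8, 5, 4, 0],
    ![4, 6, 2, 3, 10, 9, 1, 0, 8, 7, 5],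
    ![6, 5, 3, 2, 0, 8, 9, 10, 4, 1, 7],
    ![3, 9, 0, 8, 5, 4, 10, 1, 7, 6, 2],
    ![5, 8, 10, 1, 4, 0, 7, 9, 3, 2, 6],
    ![7, 2, 1, 0, 9, 10, 8, 5, 6, 3, 4],
    ![2, 4, 9, 10, 8, 6, 0, 7, 1, 5, 3],
    ![9, 7, 8, 5, 3, 1, 6, 4, 2, 0, 10],
    ![8, 3, 5, 6, 1, 7, 4, 2, 0, 10, 9],
    ![1, 0, 4, 7, 6, 2, 5, 3, 10, 9, 8]]

theorem tab11_semi : ∀ x y : Fin 11, tab11 x (tab11 y x) = y := by decide +kernel


theorem cyclic_semi (t : ℕ) [NeZero t] : ∀ x y : Fin t, -x - (-y - x) = y := by
  intro x y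
  abel

theorem small_case (n t : ℕ) (P : Fin n → Fin n → Option (Fin n))
    (hP : ∀ x y z, P y x = some z → P x z = some y) (ht : 4 * n ≤ t) (ht' : t < 12) :
    ∃ (f : Fin t → Fin t → Fin t) (φ : Fin n → Fin t),
      (∀ a, Function.Bijective (f a)) ∧
      (∀ b, Function.Bijective (fun a => f a b)) ∧
      (∀ x y, f x (f y x) = y) ∧
      Function.Injective φ ∧
      ∀ a b c, P a b = some c → f (φ a) (φ b) = φ c := by
  have hn : n = 0 ∨ n = 1 ∨ n = 2 := by omega
  rcases hn with rfl | rfl | rfl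
  · rcases Nat.eq_zero_or_pos t with rfl | ht0
    · exact finish_embedding (fun x _ => x) (fun x => x.elim0) (fun x => x.elim0)
        (fun x => x.elim0) P (fun x => x.elim0)
    · have : NeZero t := ⟨by omega⟩
      exact finish_embedding (fun x y => -x - y) (cyclic_semi t) (fun x => x.elim0)
        (fun x => x.elim0) P (fun x => x.elim0)
  · have : NeZero t := ⟨by omega⟩
    refine finish_embedding (fun x y => -x - y) (cyclic_semi t) (fun _ => 0)
        (fun x y _ => Subsingleton.elim _ _) P (fun x y z _ => ?_)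
    simp
  · have ht2 : t = 8 ∨ t = 9 ∨ t = 10 ∨ t = 11 := by omega
    rcases ht2 with rfl | rfl | rfl | rfl
    · exact table_embedding tab8 tab8_semi 0 1 2 3 (by decide) (by decide) (by decide) (by decide)
        (by decide) (by decide) (by decide) (by decide) P hP
    · exact table_embedding tab9 tab9_semi 0 1 2 3 (by decide) (by decide) (by decide) (by decide)
        (by decide) (by decide) (by decide) (by decide) P hP
    · exact table_embedding tab10 tab10_semi 0 1 2 3 (by decide) (by decide) (by decide)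
        (by decide) (by decide) (by decide) (by decide) (by decide) P hP
    · exact table_embedding tab11 tab11_semi 0 1 2 3 (by decide) (by decide) (by decide)
        (by decide) (by decide) (by decide) (by decide) (by decide) P hP

theorem assemble_all (n t : ℕ) (P : Fin n → Fin n → Option (Fin n))
    (hP : ∀ x y z, P y x = some z → P x z = some y) (ht : 4 * n ≤ t) :
    ∃ (f : Fin t → Fin t → Fin t) (φ : Fin n → Fin t),
      (∀ a, Function.Bijective (f a)) ∧
      (∀ b, Function.Bijective (fun a => f a b)) ∧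
      (∀ x y, f x (f y x) = y) ∧
      Function.Injective φ ∧
      ∀ a b c, P a b = some c → f (φ a) (φ b) = φ c := by
  by_cases h : t < 12
  · exact small_case n t P hP ht h
  · exact assemble n t P hP ht (by omega)

end Pool.Agent.Helper243.SemiSymAll
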